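import Pool.Agent.Lib.MJ.SpecG

/-!
MP_00e23e_nt, directory Lib/MI, module Abi (helper68): the bilinear part.
-/

namespace Pool.Agent.Lib.MJ

open Finset Pool.Agent.Lib.EH3 Pool.Agent.Lib.TB Pool.Agent.Results.MP_00e23e_nt Pool.Agent.Lib.MI

/-- exchanging the sum over q with the sum over the cells -/
private lemma Abi_swap (F : Finset ℕ) (I : ℕ) (P : ℕ → ℕ → Prop) [∀ i j, Decidable (P i j)]
    (v : ℕ → ℕ → ℕ → ℝ) (B : ℝ) (hB : 0 ≤ B) (h : ∀ i j, P i j → ∑ q ∈ F, v q i j ≤ B) :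
    ∑ q ∈ F, ∑ i ∈ range I, ∑ j ∈ range I, (if P i j then v q i j else 0) ≤ (I : ℝ) ^ 2 * B := by
  have h1 : ∑ q ∈ F, ∑ i ∈ range I, ∑ j ∈ range I, (if P i j then v q i j else 0) =
      ∑ i ∈ range I, ∑ j ∈ range I, ∑ q ∈ F, (if P i j then v q i j else 0) := by
    rw [Finset.sum_comm]
    apply Finset.sum_congr rfl
    intro i _
    rw [Finset.sum_comm]
  rw [h1]
  have h2 : ∀ i ∈ range I, ∑ j ∈ range I, ∑ q ∈ F, (if P i j then v q i j else 0) ≤ (I : ℝ) * B := by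
    intro i _
    have h3 : ∀ j ∈ range I, ∑ q ∈ F, (if P i j then v q i j else 0) ≤ B := by
      intro j _
      by_cases hP : P i j
      · simp only [if_pos hP]
        exact h i j hP
      · simp only [if_neg hP, Finset.sum_const_zero]
        exact hB
    have h4 := Finset.sum_le_sum h3
    rw [Finset.sum_const, Finset.card_range, nsmul_eq_mul] at h4
    exact h4
  have h5 := Finset.sum_le_sum h2
  rw [Finset.sum_const, Finset.card_range, nsmul_eq_mul] at h5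
  have h6 : (I : ℝ) ^ 2 * B = (I : ℝ) * ((I : ℝ) * B) := by ring
  rw [h6]
  exact h5

theorem tAbi (hAcl : AclStmt) (hAtr : AtrStmt) (hAcb : AcbStmt) (hAtu : AtuStmt) : AbiStmt := by
  intro α τ κ ε κ0 hα hε hε1 hBl hκ0 hκ
  obtain ⟨η1, C1, x1, hη1, hC1, hx13, hmain⟩ := hAcb α τ κ ε κ0 hε hε1 hBl hκ0 hκ
  obtain ⟨η, hηdef⟩ : ∃ η, η = min (η1 / 8) (ε / 8) := ⟨_, rfl⟩
  have hη : 0 < η := by
    rw [hηdef]
    exact lt_min (by linarith) (by linarith)
  have hηa : 8 * η ≤ η1 := by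
    have : η ≤ η1 / 8 := by rw [hηdef]; exact min_le_left _ _
    linarith
  have hηb : 8 * η ≤ ε := by
    have : η ≤ ε / 8 := by rw [hηdef]; exact min_le_right _ _
    linarith
  obtain ⟨C2, hC2, hTau⟩ := hAtu (η / 4) 1 (by linarith) one_pos
  have hC20 : 0 < C2 := by linarith
  refine ⟨η, C1 * (2 / η + 1) ^ 2 + 44 * C2 ^ 3, max x1 ((4 : ℝ) ^ (1 / (2 * η))), hη, by positivity,
    hx13.trans (le_max_left _ _), ?_⟩
  intro x a Y f g F t hx hYx hf hg hfs hF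
  have hx1 : x1 ≤ x := (le_max_left _ _).trans hx
  have hx2 : (4 : ℝ) ^ (1 / (2 * η)) ≤ x := (le_max_right _ _).trans hx
  have hx3 : 3 ≤ x := hx13.trans hx1
  have hxpos : 0 < x := by linarith
  have hx1' : 1 ≤ x := by linarith
  rcases Nat.eq_zero_or_pos Y with hY0 | hY0
  · subst hY0
    have : ∑ q ∈ F, ‖∑ m ∈ Icc 1 0, ∑ n ∈ Icc 1 (0 / m), f m * g n * Ek a (t q) q (m * n)‖ = 0 := by
      apply Finset.sum_eq_zero
      intro q _
      simp
    rw [this]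
    have : 0 ≤ x ^ (1 - η) := Real.rpow_nonneg hxpos.le _
    positivity
  have hY1 : (1 : ℝ) ≤ Y := by exact_mod_cast hY0
  have hlogY : Real.log Y ≤ Real.log x := Real.log_le_log (by linarith) hYx
  have hlogx : 0 ≤ Real.log x := Real.log_nonneg hx1'
  -- K
  have hx4 : (4 : ℝ) ≤ x ^ (2 * η) := by
    have h1 : ((4 : ℝ) ^ (1 / (2 * η))) ^ (2 * η) = 4 := by
      rw [← Real.rpow_mul (by norm_num), one_div, inv_mul_cancel₀ (by positivity), Real.rpow_one]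
    calc (4 : ℝ) = ((4 : ℝ) ^ (1 / (2 * η))) ^ (2 * η) := h1.symm
      _ ≤ x ^ (2 * η) := Real.rpow_le_rpow (by positivity) hx2 (by positivity)
  obtain ⟨K, hKdef⟩ : ∃ K, K = ⌈x ^ (2 * η)⌉₊ := ⟨_, rfl⟩
  have hKlow : x ^ (2 * η) ≤ K := by rw [hKdef]; exact Nat.le_ceil _
  have hKup : (K : ℝ) < x ^ (2 * η) + 1 := by
    rw [hKdef]
    exact Nat.ceil_lt_add_one (by linarith)
  have hK4' : (4 : ℝ) ≤ K := hx4.trans hKlow
  have hK4 : 4 ≤ K := by exact_mod_cast hK4'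
  have hKpos : (0 : ℝ) < K := by linarith
  -- G
  obtain ⟨G, hGdef⟩ : ∃ G, G = ⌈(K : ℝ) * (Real.log 4 + (1 - ε / 2) * Real.log x)⌉₊ := ⟨_, rfl⟩
  have hlog4 : 0 ≤ Real.log 4 := Real.log_nonneg (by norm_num)
  have hGarg : 0 ≤ (K : ℝ) * (Real.log 4 + (1 - ε / 2) * Real.log x) := by
    apply mul_nonneg hKpos.le
    exact add_nonneg hlog4 (mul_nonneg (by linarith) hlogx)
  have hGlow : (K : ℝ) * (Real.log 4 + (1 - ε / 2) * Real.log x) ≤ G := by rw [hGdef]; exact Nat.le_ceil _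
  have hGup : (G : ℝ) < (K : ℝ) * (Real.log 4 + (1 - ε / 2) * Real.log x) + 1 := by
    rw [hGdef]
    exact Nat.ceil_lt_add_one hGarg
  -- I
  obtain ⟨I, hIdef⟩ : ∃ I, I = ⌊(K : ℝ) * Real.log x⌋₊ + 1 := ⟨_, rfl⟩
  have hIlow : (K : ℝ) * Real.log Y < I := by
    have h1 : (K : ℝ) * Real.log x < I := by
      rw [hIdef]
      push_cast
      exact Nat.lt_floor_add_one _
    have h2 : (K : ℝ) * Real.log Y ≤ K * Real.log x := mul_le_mul_of_nonneg_left hlogY hKpos.le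
    linarith
  have hIup : (I : ℝ) ≤ K * Real.log x + 1 := by
    rw [hIdef]
    push_cast
    have := Nat.floor_le (mul_nonneg hKpos.le hlogx)
    linarith
  -- D
  obtain ⟨D, hDdef⟩ : ∃ D, D = ⌊x ^ ((3 : ℝ) / 5)⌋₊ := ⟨_, rfl⟩
  have hx35 : 1 ≤ x ^ ((3 : ℝ) / 5) := Real.one_le_rpow hx1' (by norm_num)
  have hD1 : 1 ≤ D := by
    rw [hDdef]
    exact Nat.le_floor (by exact_mod_cast hx35)
  have hDup : (D : ℝ) ≤ x ^ ((3 : ℝ) / 5) := by
    rw [hDdef]
    exact Nat.floor_le (by linarith)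
  have hDx : (D : ℝ) ≤ x := by
    refine hDup.trans ?_
    have := Real.rpow_le_rpow_of_exponent_le hx1' (show (3 : ℝ) / 5 ≤ 1 by norm_num)
    rwa [Real.rpow_one] at this
  have hFD : ∀ q ∈ F, Squarefree q ∧ t q ∣ q ∧ q ≤ D := by
    intro q hq
    obtain ⟨hM, _⟩ := hF q hq
    refine ⟨hM.1, hM.2.1, ?_⟩
    rw [hDdef]
    apply Nat.le_floor
    exact hM.2.2.1.trans (Real.rpow_le_rpow_of_exponent_le hx1' hα)
  -- T
  obtain ⟨T, hTdef⟩ : ∃ T, T = C2 * x ^ (η / 4) := ⟨_, rfl⟩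
  have hT : Tau x T := by
    have := hTau x hx1'
    rw [Real.rpow_one] at this
    rw [hTdef]
    exact this
  have hA := hAtr x T D K G Y a F t hT hD1 hDx hYx hY0 (by omega) hFD
  have hB : ∀ q, ‖∑ m ∈ Icc 1 Y, ∑ n ∈ Icc 1 (Y / m), f m * g n * Ek a (t q) q (m * n)‖ ≤
      (∑ i ∈ range I, ∑ j ∈ range I, if G ≤ i + j ∧ ((i : ℝ) + j + 2) ≤ K * Real.log Y then
        ‖∑ m ∈ Icc 1 Y, ∑ n ∈ Icc 1 Y, cl K i f m * cl K j g n * Ek a (t q) q (m * n)‖ else 0) +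
      ∑ k ∈ (Icc 1 Y).filter (fun k : ℕ => (K : ℝ) * Real.log k < G + 1 ∨ (K : ℝ) * Real.log Y - 2 < K * Real.log k),
        (k.divisors.card : ℝ) * ‖Ek a (t q) q k‖ := fun q =>
    hAcl K G Y I f g (Ek a (t q) q) (by omega) hIlow hf hg
  refine (Finset.sum_le_sum (fun q _ => hB q)).trans ?_
  rw [Finset.sum_add_distrib]
  -- powers
  obtain ⟨p, hp⟩ : ∃ p, p = x ^ (1 - η) := ⟨_, rfl⟩
  have hppos : 0 < p := by rw [hp]; exact Real.rpow_pos_of_pos hxpos _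
  have hgood : ∑ q ∈ F, ∑ i ∈ range I, ∑ j ∈ range I, (if G ≤ i + j ∧ ((i : ℝ) + j + 2) ≤ K * Real.log Y then
        ‖∑ m ∈ Icc 1 Y, ∑ n ∈ Icc 1 Y, cl K i f m * cl K j g n * Ek a (t q) q (m * n)‖ else 0) ≤
      (I : ℝ) ^ 2 * (C1 * x ^ (1 - η1)) := by
    apply Abi_swap F I (fun i j => G ≤ i + j ∧ ((i : ℝ) + j + 2) ≤ K * Real.log Y)
      (fun q i j => ‖∑ m ∈ Icc 1 Y, ∑ n ∈ Icc 1 Y, cl K i f m * cl K j g n * Ek a (t q) q (m * n)‖)
    · exact mul_nonneg hC1 (Real.rpow_nonneg hxpos.le _)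
    · intro i j hij
      apply hmain x a Y K i j f g F t hx1 hYx hK4 hf hg hfs _ hij.2 hF
      have : (G : ℝ) ≤ (i : ℝ) + j := by exact_mod_cast hij.1
      linarith
  have hI2 : (I : ℝ) ≤ (2 / η + 1) * x ^ (3 * η) := by
    have h1 : Real.log x ≤ x ^ η / η := Real.log_le_rpow_div hxpos.le hη
    have h2 : (K : ℝ) ≤ 2 * x ^ (2 * η) := by linarith
    have h3 : (K : ℝ) * Real.log x ≤ (2 * x ^ (2 * η)) * (x ^ η / η) :=
      mul_le_mul h2 h1 hlogx (by positivity)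
    have h4 : (2 * x ^ (2 * η)) * (x ^ η / η) = 2 / η * x ^ (3 * η) := by
      have : x ^ (3 * η) = x ^ (2 * η) * x ^ η := by
        rw [← Real.rpow_add hxpos]
        congr 1
        ring
      rw [this]
      ring
    have h5 : 1 ≤ x ^ (3 * η) := Real.one_le_rpow hx1' (by positivity)
    have h6 : (2 / η + 1) * x ^ (3 * η) = 2 / η * x ^ (3 * η) + x ^ (3 * η) := by ring
    rw [h6]
    linarith
  have hgood2 : (I : ℝ) ^ 2 * (C1 * x ^ (1 - η1)) ≤ C1 * (2 / η + 1) ^ 2 * p := by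
    have h1 : (I : ℝ) ^ 2 ≤ ((2 / η + 1) * x ^ (3 * η)) ^ 2 := pow_le_pow_left₀ (by positivity) hI2 2
    have h2 : x ^ (1 - η1) ≤ x ^ (1 - 8 * η) := Real.rpow_le_rpow_of_exponent_le hx1' (by linarith)
    have h3 : (I : ℝ) ^ 2 * (C1 * x ^ (1 - η1)) ≤ ((2 / η + 1) * x ^ (3 * η)) ^ 2 * (C1 * x ^ (1 - 8 * η)) := by
      apply mul_le_mul h1 (mul_le_mul_of_nonneg_left h2 hC1) _ (by positivity)
      exact mul_nonneg hC1 (Real.rpow_nonneg hxpos.le _)
    have h4 : ((2 / η + 1) * x ^ (3 * η)) ^ 2 * (C1 * x ^ (1 - 8 * η)) =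
        C1 * (2 / η + 1) ^ 2 * (x ^ (3 * η) * x ^ (3 * η) * x ^ (1 - 8 * η)) := by ring
    have h5 : x ^ (3 * η) * x ^ (3 * η) * x ^ (1 - 8 * η) = x ^ (1 - 2 * η) := by
      rw [← Real.rpow_add hxpos, ← Real.rpow_add hxpos]
      congr 1
      ring
    have h6 : x ^ (1 - 2 * η) ≤ p := by
      rw [hp]
      exact Real.rpow_le_rpow_of_exponent_le hx1' (by linarith)
    rw [h4, h5] at h3
    exact h3.trans (mul_le_mul_of_nonneg_left h6 (by positivity))
  have hrest : 4 * T ^ 3 * (Real.exp (((G : ℝ) + 1) / K) + (Y : ℝ) / K + 1 + D) ≤ 44 * C2 ^ 3 * p := by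
    obtain ⟨r, hr⟩ : ∃ r, r = x ^ (1 - 7 * η / 4) := ⟨_, rfl⟩
    have hrpos : 0 < r := by rw [hr]; exact Real.rpow_pos_of_pos hxpos _
    have e1 : Real.exp (((G : ℝ) + 1) / K) ≤ 8 * r := by
      have h1 : ((G : ℝ) + 1) / K ≤ Real.log 4 + (1 - ε / 2) * Real.log x + 1 / 2 := by
        rw [div_le_iff₀ hKpos]
        have : (Real.log 4 + (1 - ε / 2) * Real.log x + 1 / 2) * K =
          (K : ℝ) * (Real.log 4 + (1 - ε / 2) * Real.log x) + K / 2 := by ring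
        rw [this]
        linarith
      have h2 : Real.exp (Real.log 4 + (1 - ε / 2) * Real.log x + 1 / 2) = 4 * x ^ (1 - ε / 2) * Real.exp (1 / 2) := by
        rw [Real.exp_add, Real.exp_add, Real.exp_log (by norm_num), Real.rpow_def_of_pos hxpos,
          mul_comm (Real.log x)]
      have h3 : Real.exp (1 / 2) ≤ 2 := by
        have h4 : Real.exp (1 / 2) ^ 2 ≤ (2 : ℝ) ^ 2 := by
          rw [← Real.exp_nat_mul]
          have : ((2 : ℕ) : ℝ) * (1 / 2) = 1 := by norm_num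
          rw [this]
          have := Real.exp_one_lt_d9
          norm_num
          linarith
        exact le_of_pow_le_pow_left₀ (by norm_num) (by norm_num) h4
      have h4 : x ^ (1 - ε / 2) ≤ r := by
        rw [hr]
        exact Real.rpow_le_rpow_of_exponent_le hx1' (by linarith)
      have h5 : 4 * x ^ (1 - ε / 2) * Real.exp (1 / 2) ≤ 4 * r * 2 := by
        apply mul_le_mul (by linarith) h3 (Real.exp_pos _).le (by positivity)
      have h6 := Real.exp_le_exp.2 h1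
      rw [h2] at h6
      linarith
    have e2 : (Y : ℝ) / K ≤ r := by
      rw [div_le_iff₀ hKpos]
      have h1 : x = x ^ (1 - 2 * η) * x ^ (2 * η) := by
        rw [← Real.rpow_add hxpos]
        have : 1 - 2 * η + 2 * η = 1 := by ring
        rw [this, Real.rpow_one]
      have h2 : x ^ (1 - 2 * η) ≤ r := by
        rw [hr]
        exact Real.rpow_le_rpow_of_exponent_le hx1' (by linarith)
      calc (Y : ℝ) ≤ x := hYx
        _ = x ^ (1 - 2 * η) * x ^ (2 * η) := h1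
        _ ≤ r * K := mul_le_mul h2 hKlow (by positivity) hrpos.le
    have e3 : 1 ≤ r := by
      rw [hr]
      exact Real.one_le_rpow hx1' (by linarith)
    have e4 : (D : ℝ) ≤ r := by
      refine hDup.trans ?_
      rw [hr]
      exact Real.rpow_le_rpow_of_exponent_le hx1' (by linarith)
    have e5 : T ^ 3 * r = C2 ^ 3 * p := by
      rw [hTdef, hr, hp, mul_pow, ← Real.rpow_natCast, ← Real.rpow_natCast, ← Real.rpow_mul hxpos.le, mul_assoc,
        ← Real.rpow_add hxpos]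
      congr 2
      push_cast
      ring
    have hTpos : 0 < T ^ 3 := by
      have : 0 < T := by have := hT.1; linarith
      positivity
    calc 4 * T ^ 3 * (Real.exp (((G : ℝ) + 1) / K) + (Y : ℝ) / K + 1 + D)
        ≤ 4 * T ^ 3 * (11 * r) := mul_le_mul_of_nonneg_left (by linarith) (by positivity)
      _ = 44 * (T ^ 3 * r) := by ring
      _ = 44 * C2 ^ 3 * p := by rw [e5]; ring
  rw [← hp]
  have hfin : (C1 * (2 / η + 1) ^ 2 + 44 * C2 ^ 3) * p = C1 * (2 / η + 1) ^ 2 * p + 44 * C2 ^ 3 * p := by ring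
  rw [hfin]
  exact add_le_add (hgood.trans hgood2) (hA.trans hrest)

end Pool.Agent.Lib.MJ
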