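import Pool.Agent.Lib.MJ.SpecG

/-! MP_00e23e_nt, Lib/MI: module Bbo (tBbo : BboStmt), one block, Type I. -/

namespace Pool.Agent.Lib.MJ

open Finset Pool.Agent.Lib.EH3 Pool.Agent.Lib.TB Pool.Agent.Results.MP_00e23e_nt Pool.Agent.Lib.MI

private lemma Bbo_mul {x : ℝ} (hx : 0 < x) {a b c : ℝ} (h : a + b = c) : x ^ a * x ^ b = x ^ c := by
  rw [← Real.rpow_add hx, h]

private lemma Bbo_K {x K a b e : ℝ} (hx : 1 ≤ x) (hK : K ≤ x ^ e) (h : a + e ≤ b) : K * x ^ a ≤ x ^ b := by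
  have hx0 : 0 < x := by linarith
  have h1 : K * x ^ a ≤ x ^ e * x ^ a := mul_le_mul_of_nonneg_right hK (by positivity)
  refine h1.trans ?_
  rw [← Real.rpow_add hx0]
  exact Real.rpow_le_rpow_of_exponent_le hx (by linarith)

private lemma Bbo_A {δ τ κ ε x : ℝ} {M N R S : ℕ} (hP : Par δ τ κ ε) (hB : Blk δ κ ε x M N R S) (hx : 1 ≤ x)
    (hK : 16 ≤ x ^ ε) :
    8 * ((R : ℝ) * (S : ℝ) ^ 2) ≤ M * x ^ (yy δ κ ε) ∧ 16 * x ^ (2 * yy δ κ ε + ε) ≤ 2 * R ∧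
      (S : ℝ) * N ≤ 2 * x ^ (1 / 2 + δ + ε + κ) ∧ x ^ (1 / 2 + ε / 2) ≤ 4 * ((S : ℝ) * N) ∧
      (R : ℝ) ≤ N * x ^ (-ε) ∧ 16 ≤ (N : ℝ) ∧ 16 * (R : ℝ) ≤ N := by
  obtain ⟨hδ, hτ, hκ, hε, hε1, hp1, hp2⟩ := hP
  obtain ⟨hNM, hN, hMN1, hMN2, hS, hR1, hR2, hRS1, hRS2⟩ := hB
  have hx0 : 0 < x := by linarith
  have hN0 : (0 : ℝ) < N := lt_of_lt_of_le (Real.rpow_pos_of_pos hx0 _) hN
  have hS1 : (1 : ℝ) ≤ S := by exact_mod_cast hS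
  -- lower bound for R
  have r1 : x ^ ((1 : ℝ) / 3 - 2 * ε - κ) ≤ 2 * R := by
    have h1 : x ^ ((1 : ℝ) / 3 - ε) * x ^ (-ε - κ) ≤ (N : ℝ) * x ^ (-ε - κ) :=
      mul_le_mul_of_nonneg_right hN (by positivity)
    rw [Bbo_mul hx0 (c := (1 : ℝ) / 3 - 2 * ε - κ) (by ring)] at h1
    exact h1.trans hR2
  have hR0 : (0 : ℝ) < R := by
    have := Real.rpow_pos_of_pos hx0 ((1 : ℝ) / 3 - 2 * ε - κ)
    linarith
  have r2 : 16 * x ^ (2 * yy δ κ ε + ε) ≤ 2 * R := by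
    refine le_trans (Bbo_K hx hK ?_) r1
    unfold yy
    linarith
  -- R M
  have r3 : x ^ (1 - 2 * ε - κ) ≤ 2 * R * M := by
    have h1 : x ^ (1 - ε) * x ^ (-ε - κ) ≤ (M : ℝ) * N * x ^ (-ε - κ) :=
      mul_le_mul_of_nonneg_right hMN1 (by positivity)
    rw [Bbo_mul hx0 (c := 1 - 2 * ε - κ) (by ring)] at h1
    have h2 : (N : ℝ) * x ^ (-ε - κ) * M ≤ 2 * R * M := mul_le_mul_of_nonneg_right hR2 (by positivity)
    linarith [mul_comm (M : ℝ) (N : ℝ), mul_assoc (M : ℝ) (N : ℝ) (x ^ (-ε - κ)),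
      mul_comm (M : ℝ) ((N : ℝ) * x ^ (-ε - κ))]
  have r4 : 8 * ((R : ℝ) * (S : ℝ) ^ 2) ≤ M * x ^ (yy δ κ ε) := by
    have h1 : ((R : ℝ) * S) ^ 2 ≤ x ^ (1 + 2 * δ) := by
      have h2 := pow_le_pow_left₀ (by positivity) hRS1 2
      rw [sq (x ^ (1 / 2 + δ)), Bbo_mul hx0 (c := 1 + 2 * δ) (by ring)] at h2
      exact h2
    have h3 : x ^ (1 - 2 * ε - κ) * x ^ (yy δ κ ε) ≤ 2 * R * M * x ^ (yy δ κ ε) :=
      mul_le_mul_of_nonneg_right r3 (by positivity)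
    rw [Bbo_mul hx0 (c := 1 + 2 * δ + ε) (by unfold yy; ring)] at h3
    have h4 : 16 * x ^ (1 + 2 * δ) ≤ x ^ (1 + 2 * δ + ε) := Bbo_K hx hK le_rfl
    have h5 : (R : ℝ) * (8 * ((R : ℝ) * (S : ℝ) ^ 2)) ≤ R * (M * x ^ (yy δ κ ε)) := by
      have h6 : (R : ℝ) * (8 * ((R : ℝ) * (S : ℝ) ^ 2)) = 8 * ((R : ℝ) * S) ^ 2 := by ring
      have h7 : 2 * (R : ℝ) * M * x ^ (yy δ κ ε) = 2 * (R * (M * x ^ (yy δ κ ε))) := by ring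
      rw [h6]
      rw [h7] at h3
      linarith
    exact le_of_mul_le_mul_left h5 hR0
  have r5 : (S : ℝ) * N ≤ 2 * x ^ (1 / 2 + δ + ε + κ) := by
    have h1 : (S : ℝ) * N * x ^ (-ε - κ) ≤ 2 * x ^ (1 / 2 + δ) := by
      have h2 : (S : ℝ) * ((N : ℝ) * x ^ (-ε - κ)) ≤ S * (2 * R) := mul_le_mul_of_nonneg_left hR2 (by positivity)
      linarith [mul_assoc (S : ℝ) (N : ℝ) (x ^ (-ε - κ)), mul_comm (S : ℝ) (R : ℝ), mul_left_comm (S : ℝ) 2 (R : ℝ)]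
    have h3 : (S : ℝ) * N * x ^ (-ε - κ) * x ^ (ε + κ) ≤ 2 * x ^ (1 / 2 + δ) * x ^ (ε + κ) :=
      mul_le_mul_of_nonneg_right h1 (by positivity)
    rw [mul_assoc ((S : ℝ) * N), Bbo_mul hx0 (c := 0) (by ring), Real.rpow_zero, mul_one, mul_assoc 2,
      Bbo_mul hx0 (c := 1 / 2 + δ + ε + κ) (by ring)] at h3
    exact h3
  have r6 : x ^ (1 / 2 + ε / 2) ≤ 4 * ((S : ℝ) * N) := by
    have h1 : x ^ (1 / 2 - ε / 2) ≤ 4 * ((S : ℝ) * N) * x ^ (-ε) := by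
      have h2 : (R : ℝ) * S ≤ N * x ^ (-ε) * S := mul_le_mul_of_nonneg_right hR1 (by positivity)
      linarith [mul_comm (S : ℝ) (N : ℝ), mul_assoc (N : ℝ) (x ^ (-ε)) (S : ℝ),
        mul_comm (x ^ (-ε)) (S : ℝ), mul_assoc (N : ℝ) (S : ℝ) (x ^ (-ε))]
    have h3 : x ^ (1 / 2 - ε / 2) * x ^ ε ≤ 4 * ((S : ℝ) * N) * x ^ (-ε) * x ^ ε :=
      mul_le_mul_of_nonneg_right h1 (by positivity)
    rw [Bbo_mul hx0 (c := 1 / 2 + ε / 2) (by ring), mul_assoc (4 * ((S : ℝ) * N)),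
      Bbo_mul hx0 (c := 0) (by ring), Real.rpow_zero, mul_one] at h3
    exact h3
  have r7 : 16 ≤ (N : ℝ) := by
    refine le_trans ?_ hN
    refine hK.trans (Real.rpow_le_rpow_of_exponent_le hx ?_)
    linarith
  have r8 : 16 * (R : ℝ) ≤ N := by
    have h1 : (R : ℝ) * x ^ ε ≤ N * x ^ (-ε) * x ^ ε := mul_le_mul_of_nonneg_right hR1 (by positivity)
    rw [mul_assoc, Bbo_mul hx0 (c := 0) (by ring), Real.rpow_zero, mul_one] at h1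
    have h2 : (R : ℝ) * 16 ≤ R * x ^ ε := mul_le_mul_of_nonneg_left hK hR0.le
    linarith
  exact ⟨r4, r2, r5, r6, hR1, r7, r8⟩

private lemma Bbo_B {δ τ κ ε x : ℝ} (hP : Par δ τ κ ε) (hx : 1 ≤ x) {Y0 V L L' S N : ℝ}
    (hN : x ^ ((1 : ℝ) / 3 - ε) ≤ N) (hS0 : 0 < S) (hSN : S * N ≤ 2 * x ^ (1 / 2 + δ + ε + κ))
    (hS : x ^ (sg δ κ ε + ε / 2) ≤ 4 * S) (hY0 : 0 ≤ Y0) (hY : Y0 ≤ 2 * x ^ (yy δ κ ε))
    (hV1 : x ^ (yy δ κ ε + 4 * ε) ≤ 2 * V) (hV2 : V ≤ x ^ (yy δ κ ε + κ + 4 * ε))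
    (hL : x ^ (4 * yy δ κ ε + 8 * ε) ≤ 2 * L) (hL' : L' ≤ x ^ (4 * yy δ κ ε + 8 * ε + κ)) :
    Real.sqrt (Y0 / V + Y0 ^ 2 * Real.sqrt (1 / L + 1 / (Real.sqrt (L * V) * S) +
      Real.sqrt (L' * V) * S / N)) ≤ 5 * x ^ (-(2 * ε)) := by
  obtain ⟨hδ, hτ, hκ, hε, hε1, hp1, hp2⟩ := hP
  have hx0 : 0 < x := by linarith
  have hN0 : 0 < N := lt_of_lt_of_le (Real.rpow_pos_of_pos hx0 _) hN
  have hV0 : 0 < V := by
    have := Real.rpow_pos_of_pos hx0 (yy δ κ ε + 4 * ε)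
    linarith
  have hL0 : 0 < L := by
    have := Real.rpow_pos_of_pos hx0 (4 * yy δ κ ε + 8 * ε)
    linarith
  set y := yy δ κ ε with hy
  have hyv : y = 2 * δ + κ + 3 * ε := by rw [hy]; rfl
  have hsv : sg δ κ ε = 3 * δ + 2 * κ + 10 * ε := rfl
  set Q : ℝ := x ^ (-(4 * y + 8 * ε)) with hQ
  have hQ0 : 0 < Q := Real.rpow_pos_of_pos hx0 _
  -- 1/L
  have b1 : 1 / L ≤ 2 * Q := by
    rw [div_le_iff₀ hL0]
    have h1 : Q * x ^ (4 * y + 8 * ε) ≤ Q * (2 * L) := mul_le_mul_of_nonneg_left hL hQ0.le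
    rw [hQ, Bbo_mul hx0 (c := 0) (by ring), Real.rpow_zero] at h1
    rw [hQ]
    linarith
  -- 1/(sqrt(LV) S)
  have b2 : 1 / (Real.sqrt (L * V) * S) ≤ 8 * Q := by
    have h1 : x ^ ((5 * y + 12 * ε) / 2) / 2 ≤ Real.sqrt (L * V) := by
      apply Real.le_sqrt_of_sq_le
      have h2 : x ^ (4 * y + 8 * ε) * x ^ (y + 4 * ε) ≤ 2 * L * (2 * V) :=
        mul_le_mul hL hV1 (by positivity) (by positivity)
      rw [Bbo_mul hx0 (c := 5 * y + 12 * ε) (by ring)] at h2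
      have h3 : (x ^ ((5 * y + 12 * ε) / 2) / 2) ^ 2 = x ^ (5 * y + 12 * ε) / 4 := by
        rw [div_pow, sq (x ^ ((5 * y + 12 * ε) / 2)), Bbo_mul hx0 (c := 5 * y + 12 * ε) (by ring)]
        norm_num
      rw [h3]
      linarith
    have h4 : x ^ ((5 * y + 12 * ε) / 2) / 2 * (x ^ (sg δ κ ε + ε / 2) / 4) ≤ Real.sqrt (L * V) * S :=
      mul_le_mul h1 (by linarith) (by positivity) (Real.sqrt_nonneg _)
    have h5 : x ^ (4 * y + 8 * ε) / 8 ≤ Real.sqrt (L * V) * S := by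
      refine le_trans ?_ h4
      have h6 : x ^ ((5 * y + 12 * ε) / 2) / 2 * (x ^ (sg δ κ ε + ε / 2) / 4) =
          x ^ ((5 * y + 12 * ε) / 2 + (sg δ κ ε + ε / 2)) / 8 := by
        rw [← Bbo_mul hx0 (a := (5 * y + 12 * ε) / 2) (b := sg δ κ ε + ε / 2) rfl]
        ring
      rw [h6]
      have h7 : x ^ (4 * y + 8 * ε) ≤ x ^ ((5 * y + 12 * ε) / 2 + (sg δ κ ε + ε / 2)) := by
        refine Real.rpow_le_rpow_of_exponent_le hx ?_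
        rw [hsv, hyv]
        linarith
      linarith
    have h8 : 0 < Real.sqrt (L * V) * S := lt_of_lt_of_le (by positivity) h5
    rw [div_le_iff₀ h8]
    have h9 : Q * (x ^ (4 * y + 8 * ε) / 8) ≤ Q * (Real.sqrt (L * V) * S) := mul_le_mul_of_nonneg_left h5 hQ0.le
    have h10 : Q * (x ^ (4 * y + 8 * ε) / 8) = 1 / 8 := by
      rw [← mul_div_assoc, hQ, Bbo_mul hx0 (c := 0) (by ring), Real.rpow_zero]
    rw [h10] at h9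
    linarith
  -- sqrt(L'V) S/N
  have b3 : Real.sqrt (L' * V) * S / N ≤ 2 * Q := by
    have h1 : Real.sqrt (L' * V) ≤ x ^ ((5 * y + 12 * ε + 2 * κ) / 2) := by
      apply Real.sqrt_le_iff.2
      refine ⟨by positivity, ?_⟩
      rw [sq, Bbo_mul hx0 (c := 5 * y + 12 * ε + 2 * κ) (by ring)]
      have h2 : L' * V ≤ x ^ (4 * y + 8 * ε + κ) * x ^ (y + κ + 4 * ε) :=
        mul_le_mul hL' hV2 hV0.le (by positivity)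
      rwa [Bbo_mul hx0 (c := 5 * y + 12 * ε + 2 * κ) (by ring)] at h2
    rw [div_le_iff₀ hN0]
    have h3 : x ^ ((1 : ℝ) / 3 - ε) * x ^ ((1 : ℝ) / 3 - ε) ≤ N * N := mul_le_mul hN hN (by positivity) hN0.le
    rw [Bbo_mul hx0 (c := 2 / 3 - 2 * ε) (by ring)] at h3
    have h4 : Real.sqrt (L' * V) * (S * N) ≤ x ^ ((5 * y + 12 * ε + 2 * κ) / 2) * (2 * x ^ (1 / 2 + δ + ε + κ)) :=
      mul_le_mul h1 hSN (by positivity) (by positivity)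
    have h5 : x ^ ((5 * y + 12 * ε + 2 * κ) / 2) * (2 * x ^ (1 / 2 + δ + ε + κ)) =
        2 * x ^ ((5 * y + 12 * ε + 2 * κ) / 2 + (1 / 2 + δ + ε + κ)) := by
      rw [← Bbo_mul hx0 (a := (5 * y + 12 * ε + 2 * κ) / 2) (b := 1 / 2 + δ + ε + κ) rfl]
      ring
    have h6 : x ^ ((5 * y + 12 * ε + 2 * κ) / 2 + (1 / 2 + δ + ε + κ)) ≤ Q * x ^ (2 / 3 - 2 * ε) := by
      rw [hQ, Bbo_mul hx0 (c := -(4 * y + 8 * ε) + (2 / 3 - 2 * ε)) rfl]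
      refine Real.rpow_le_rpow_of_exponent_le hx ?_
      rw [hyv]
      linarith
    have h7 : Q * x ^ (2 / 3 - 2 * ε) ≤ Q * (N * N) := mul_le_mul_of_nonneg_left h3 hQ0.le
    have h8 : Real.sqrt (L' * V) * S * N ≤ 2 * Q * N * N := by
      calc Real.sqrt (L' * V) * S * N = Real.sqrt (L' * V) * (S * N) := by ring
        _ ≤ 2 * x ^ ((5 * y + 12 * ε + 2 * κ) / 2 + (1 / 2 + δ + ε + κ)) := by rw [← h5]; exact h4
        _ ≤ 2 * (Q * (N * N)) := by linarith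
        _ = 2 * Q * N * N := by ring
    exact le_of_mul_le_mul_right h8 hN0
  have b4 : Real.sqrt (1 / L + 1 / (Real.sqrt (L * V) * S) + Real.sqrt (L' * V) * S / N) ≤
      4 * x ^ (-(2 * y + 4 * ε)) := by
    apply Real.sqrt_le_iff.2
    refine ⟨by positivity, ?_⟩
    have h1 : (4 * x ^ (-(2 * y + 4 * ε))) ^ 2 = 16 * Q := by
      rw [mul_pow, sq (x ^ (-(2 * y + 4 * ε))), Bbo_mul hx0 (c := -(4 * y + 8 * ε)) (by ring), hQ]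
      norm_num
    rw [h1]
    linarith
  apply Real.sqrt_le_iff.2
  refine ⟨by positivity, ?_⟩
  have c1 : Y0 / V ≤ 4 * x ^ (-(4 * ε)) := by
    rw [div_le_iff₀ hV0]
    have h1 : x ^ (-(4 * ε)) * x ^ (y + 4 * ε) ≤ x ^ (-(4 * ε)) * (2 * V) :=
      mul_le_mul_of_nonneg_left hV1 (by positivity)
    rw [Bbo_mul hx0 (c := y) (by ring)] at h1
    linarith
  have c2 : Y0 ^ 2 ≤ 4 * x ^ (2 * y) := by
    have h1 := pow_le_pow_left₀ hY0 hY 2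
    rw [mul_pow, sq (x ^ y), Bbo_mul hx0 (c := 2 * y) (by ring)] at h1
    linarith
  have c3 : Y0 ^ 2 * Real.sqrt (1 / L + 1 / (Real.sqrt (L * V) * S) + Real.sqrt (L' * V) * S / N) ≤
      16 * x ^ (-(4 * ε)) := by
    have h1 := mul_le_mul c2 b4 (Real.sqrt_nonneg _) (by positivity)
    refine h1.trans (le_of_eq ?_)
    rw [← Bbo_mul hx0 (a := 2 * y) (b := -(2 * y + 4 * ε)) (c := -(4 * ε)) (by ring)]
    ring
  have c4 : (5 * x ^ (-(2 * ε))) ^ 2 = 25 * x ^ (-(4 * ε)) := by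
    rw [mul_pow, sq (x ^ (-(2 * ε))), Bbo_mul hx0 (c := -(4 * ε)) (by ring)]
    norm_num
  rw [c4]
  have c5 : 0 < x ^ (-(4 * ε)) := Real.rpow_pos_of_pos hx0 _
  linarith

private lemma Bbo_choice (P : Finset (ℕ × ℕ)) (p q : ℕ → ℕ → Prop)
    (h : ∀ w ∈ P, (∃ v : ℕ, p w.2 v) ∧ ∃ r : ℕ, q w.1 r) :
    ∃ r0 v : ℕ → ℕ, ∀ w ∈ P, p w.2 (v w.2) ∧ q w.1 (r0 w.1) := by
  classical
  refine ⟨fun r => if h : ∃ r0, q r r0 then Classical.choose h else 0,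
    fun s => if h : ∃ v, p s v then Classical.choose h else 0, ?_⟩
  intro w hw
  obtain ⟨h1, h2⟩ := h w hw
  refine ⟨?_, ?_⟩
  · show p w.2 (if h : ∃ v, p w.2 v then Classical.choose h else 0)
    rw [dif_pos h1]
    exact Classical.choose_spec h1
  · show q w.1 (if h : ∃ r0, q w.1 r0 then Classical.choose h else 0)
    rw [dif_pos h2]
    exact Classical.choose_spec h2

private lemma Bbo_fin {x ε κ0 μ y e C1 C2 CT T B M N R S H : ℝ} {A1 A2 : ℕ} (hx1 : 1 ≤ x) (hμ0 : 0 < μ)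
    (hμ1 : μ ≤ ε) (hμ2 : μ ≤ κ0) (hC1 : 0 < C1) (hC2 : 0 < C2) (hCT : 1 ≤ CT) (hT1 : 1 ≤ T)
    (hM : 0 < M) (hN : 0 < N) (hR : 0 < R) (hS : 0 < S) (hH : 0 < H) (a5 : R ≤ N * x ^ (-ε))
    (h5 : R * S ^ 2 ≤ M * x ^ y) (hHa : x ^ (2 * y + ε) ≤ H) (hMN2 : M * N ≤ x)
    (hB : B = C1 * T ^ A1 * (M * N) * (5 * x ^ (-(2 * ε)))) (hT : T = CT * x ^ e)
    (he : e * ((A1 + A2 : ℕ) : ℝ) ≤ μ / 2) :
    C2 * T ^ A2 * (R * M ^ 2 * N + M ^ 2 * N ^ 2 / x ^ κ0 + R ^ 2 * S ^ 4 * N ^ 2 / H + M * N * B) ≤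
      C2 * CT ^ (A1 + A2) * (3 + 5 * C1) * (x ^ (1 - μ / 4)) ^ 2 := by
  have hx0 : 0 < x := by linarith
  have hxε : x ^ (-ε) ≤ x ^ (-μ) := Real.rpow_le_rpow_of_exponent_le hx1 (by linarith)
  have hxκ : x ^ (-κ0) ≤ x ^ (-μ) := Real.rpow_le_rpow_of_exponent_le hx1 (by linarith)
  have hx2ε : x ^ (-(2 * ε)) ≤ x ^ (-μ) := Real.rpow_le_rpow_of_exponent_le hx1 (by linarith)
  have hMNsq : (M * N) ^ 2 ≤ x ^ 2 := pow_le_pow_left₀ (by positivity) hMN2 2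
  have d1 : R * M ^ 2 * N ≤ (M * N) ^ 2 * x ^ (-μ) := by
    have h6 : R * (M ^ 2 * N) ≤ N * x ^ (-ε) * (M ^ 2 * N) := mul_le_mul_of_nonneg_right a5 (by positivity)
    calc R * M ^ 2 * N = R * (M ^ 2 * N) := by ring
      _ ≤ N * x ^ (-ε) * (M ^ 2 * N) := h6
      _ = (M * N) ^ 2 * x ^ (-ε) := by ring
      _ ≤ _ := mul_le_mul_of_nonneg_left hxε (by positivity)
  have d2 : M ^ 2 * N ^ 2 / x ^ κ0 ≤ (M * N) ^ 2 * x ^ (-μ) := by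
    calc M ^ 2 * N ^ 2 / x ^ κ0 = (M * N) ^ 2 * x ^ (-κ0) := by
          rw [Real.rpow_neg hx0.le, div_eq_mul_inv]
          ring
      _ ≤ _ := mul_le_mul_of_nonneg_left hxκ (by positivity)
  have d3 : R ^ 2 * S ^ 4 * N ^ 2 / H ≤ (M * N) ^ 2 * x ^ (-μ) := by
    refine le_trans ?_ (mul_le_mul_of_nonneg_left hxε (by positivity))
    rw [div_le_iff₀ hH]
    have h6 := pow_le_pow_left₀ (by positivity) h5 2
    rw [mul_pow, mul_pow, sq (x ^ y), Bbo_mul hx0 (c := 2 * y) (by ring)] at h6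
    have h7 : x ^ (2 * y) ≤ x ^ (-ε) * H := by
      calc x ^ (2 * y) = x ^ (-ε) * x ^ (2 * y + ε) := (Bbo_mul hx0 (by ring)).symm
        _ ≤ _ := mul_le_mul_of_nonneg_left hHa (by positivity)
    calc R ^ 2 * S ^ 4 * N ^ 2 = R ^ 2 * (S ^ 2) ^ 2 * N ^ 2 := by ring
      _ ≤ M ^ 2 * x ^ (2 * y) * N ^ 2 := mul_le_mul_of_nonneg_right h6 (by positivity)
      _ = (M * N) ^ 2 * x ^ (2 * y) := by ring
      _ ≤ (M * N) ^ 2 * (x ^ (-ε) * H) := mul_le_mul_of_nonneg_left h7 (by positivity)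
      _ = _ := by ring
  have d4 : M * N * B ≤ (M * N) ^ 2 * x ^ (-μ) * (5 * C1 * T ^ A1) := by
    have h6 : (M * N) ^ 2 * (5 * C1 * T ^ A1) * x ^ (-(2 * ε)) ≤
        (M * N) ^ 2 * (5 * C1 * T ^ A1) * x ^ (-μ) := mul_le_mul_of_nonneg_left hx2ε (by positivity)
    calc M * N * B = (M * N) ^ 2 * (5 * C1 * T ^ A1) * x ^ (-(2 * ε)) := by
          rw [hB]
          ring
      _ ≤ _ := h6
      _ = _ := by ring
  have hTA : (1 : ℝ) ≤ T ^ A1 := one_le_pow₀ hT1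
  have hsum : R * M ^ 2 * N + M ^ 2 * N ^ 2 / x ^ κ0 + R ^ 2 * S ^ 4 * N ^ 2 / H + M * N * B ≤
      x ^ 2 * x ^ (-μ) * ((3 + 5 * C1) * T ^ A1) := by
    have h5 : 0 ≤ (M * N) ^ 2 * x ^ (-μ) := by positivity
    have h6 : (M * N) ^ 2 * x ^ (-μ) * ((3 + 5 * C1) * T ^ A1) ≤
        x ^ 2 * x ^ (-μ) * ((3 + 5 * C1) * T ^ A1) :=
      mul_le_mul_of_nonneg_right (mul_le_mul_of_nonneg_right hMNsq (by positivity)) (by positivity)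
    have h7 : (M * N) ^ 2 * x ^ (-μ) * 1 ≤ (M * N) ^ 2 * x ^ (-μ) * T ^ A1 :=
      mul_le_mul_of_nonneg_left hTA h5
    have h8 : (M * N) ^ 2 * x ^ (-μ) * ((3 + 5 * C1) * T ^ A1) =
        3 * ((M * N) ^ 2 * x ^ (-μ) * T ^ A1) + (M * N) ^ 2 * x ^ (-μ) * (5 * C1 * T ^ A1) := by ring
    linarith
  have hTpow : T ^ (A1 + A2) ≤ CT ^ (A1 + A2) * x ^ (μ / 2) := by
    rw [hT, mul_pow]
    refine mul_le_mul_of_nonneg_left ?_ (by positivity)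
    rw [← Real.rpow_natCast, ← Real.rpow_mul hx0.le]
    exact Real.rpow_le_rpow_of_exponent_le hx1 he
  have h9 : (x ^ (1 - μ / 4)) ^ 2 = x ^ 2 * x ^ (-μ) * x ^ (μ / 2) := by
    rw [sq (x ^ (1 - μ / 4)), Bbo_mul hx0 (c := 2 + -μ + μ / 2) (by ring), Real.rpow_add hx0, Real.rpow_add hx0]
    congr 2
    exact_mod_cast Real.rpow_natCast x 2
  rw [h9]
  calc _ ≤ C2 * T ^ A2 * (x ^ 2 * x ^ (-μ) * ((3 + 5 * C1) * T ^ A1)) :=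
        mul_le_mul_of_nonneg_left hsum (by positivity)
    _ = C2 * (3 + 5 * C1) * (x ^ 2 * x ^ (-μ)) * T ^ (A1 + A2) := by
        rw [pow_add]
        ring
    _ ≤ C2 * (3 + 5 * C1) * (x ^ 2 * x ^ (-μ)) * (CT ^ (A1 + A2) * x ^ (μ / 2)) :=
        mul_le_mul_of_nonneg_left hTpow (by positivity)
    _ = _ := by ring

private lemma Bbo_X1 {x R S N V HY L : ℝ} (hx : 16 ≤ x) (hR0 : 0 ≤ R) (hS0 : 0 ≤ S) (hN0 : 0 ≤ N) (hV0 : 0 ≤ V)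
    (hH0 : 0 ≤ HY) (hL0 : 0 ≤ L) (hR : R ≤ x) (hS : S ≤ x) (hN : N ≤ x) (hV : V ≤ x) (hH : HY ≤ x) (hL : L ≤ x) :
    100 * R ^ 2 * S ^ 4 * N ^ 2 * V ^ 2 * HY ^ 2 * L ^ 2 ≤ x ^ (30 : ℝ) := by
  have hx0 : 0 ≤ x := by linarith
  have h100 : (100 : ℝ) ≤ x ^ 2 := by nlinarith
  have hx30 : x ^ (30 : ℝ) = x ^ (30 : ℕ) := by exact_mod_cast Real.rpow_natCast x 30
  rw [hx30]
  calc 100 * R ^ 2 * S ^ 4 * N ^ 2 * V ^ 2 * HY ^ 2 * L ^ 2 ≤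
      x ^ 2 * x ^ 2 * x ^ 4 * x ^ 2 * x ^ 2 * x ^ 2 * x ^ 2 := by gcongr
    _ = x ^ 16 := by ring
    _ ≤ x ^ 30 := pow_le_pow_right₀ (by linarith) (by norm_num)

private lemma Bbo_X2 {x M N R S : ℝ} (hx : 16 ≤ x) (hM0 : 0 ≤ M) (hR0 : 0 ≤ R) (hS0 : 0 ≤ S)
    (hN0 : 0 ≤ N) (hM : M ≤ x) (hR : R ≤ x) (hS : S ≤ x) (hN : N ≤ x) :
    100 * M ^ 2 * N ^ 2 * R ^ 2 * S ^ 4 ≤ x ^ (30 : ℝ) := by
  have hx0 : 0 ≤ x := by linarith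
  have h100 : (100 : ℝ) ≤ x ^ 2 := by nlinarith
  have hx30 : x ^ (30 : ℝ) = x ^ (30 : ℕ) := by exact_mod_cast Real.rpow_natCast x 30
  rw [hx30]
  calc 100 * M ^ 2 * N ^ 2 * R ^ 2 * S ^ 4 ≤
      x ^ 2 * x ^ 2 * x ^ 2 * x ^ 2 * x ^ 4 := by gcongr
    _ = x ^ 12 := by ring
    _ ≤ x ^ 30 := pow_le_pow_right₀ (by linarith) (by norm_num)

/-- the sizes Y0, H, L, L' -/
private lemma Bbo_sz {δ τ κ ε x y : ℝ} (hP : Par δ τ κ ε) (hyv : y = 2 * δ + κ + 3 * ε) (hx1 : 1 ≤ x)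
    (hK16 : 16 ≤ x ^ ε) : ∃ Y0 H L L' : ℕ, 1 ≤ Y0 ∧ 1 ≤ H ∧ 1 ≤ L ∧ x ^ y ≤ Y0 ∧ (Y0 : ℝ) ≤ 2 * x ^ y ∧
      x ^ (2 * y + ε) ≤ H ∧ (H : ℝ) ≤ 2 * x ^ (2 * y + ε) ∧ x ^ (4 * y + 8 * ε) ≤ 2 * L ∧
      (L : ℝ) ≤ x ^ (4 * y + 8 * ε) ∧ (L' : ℝ) ≤ x ^ (4 * y + 8 * ε + κ) ∧
      (∀ r : ℕ, (r : ℝ) ≤ x ^ (4 * y + 8 * ε + κ) → r ≤ L') ∧ (L : ℝ) ≤ x ∧ 2 * (H : ℝ) + Y0 ≤ x ∧
      16 ≤ x ^ (y + 4 * ε) := by
  obtain ⟨hδ, hτ, hκp, hε, hε1, hp1, hp2⟩ := hP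
  have hx0 : 0 < x := by linarith
  have hle1 : ∀ s : ℝ, s ≤ 1 → x ^ s ≤ x := fun s hs => by
    calc x ^ s ≤ x ^ (1 : ℝ) := Real.rpow_le_rpow_of_exponent_le hx1 hs
      _ = x := Real.rpow_one x
  have hxy1 : 1 ≤ x ^ y := Real.one_le_rpow hx1 (by rw [hyv]; positivity)
  have hY0a : x ^ y ≤ (⌈x ^ y⌉₊ : ℝ) := Nat.le_ceil _
  have hY0b : (⌈x ^ y⌉₊ : ℝ) ≤ 2 * x ^ y := by
    have := Nat.ceil_lt_add_one (by positivity : 0 ≤ x ^ y)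
    linarith
  have hxh1 : 1 ≤ x ^ (2 * y + ε) := Real.one_le_rpow hx1 (by rw [hyv]; positivity)
  have hHa : x ^ (2 * y + ε) ≤ (⌈x ^ (2 * y + ε)⌉₊ : ℝ) := Nat.le_ceil _
  have hHb : (⌈x ^ (2 * y + ε)⌉₊ : ℝ) ≤ 2 * x ^ (2 * y + ε) := by
    have := Nat.ceil_lt_add_one (by positivity : 0 ≤ x ^ (2 * y + ε))
    linarith
  have hL16 : 16 ≤ x ^ (4 * y + 8 * ε) := by
    refine hK16.trans (Real.rpow_le_rpow_of_exponent_le hx1 ?_)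
    rw [hyv]
    linarith
  have hLa : (⌊x ^ (4 * y + 8 * ε)⌋₊ : ℝ) ≤ x ^ (4 * y + 8 * ε) := Nat.floor_le (by positivity)
  have hLb : x ^ (4 * y + 8 * ε) ≤ 2 * (⌊x ^ (4 * y + 8 * ε)⌋₊ : ℝ) := by
    have := Nat.lt_floor_add_one (x ^ (4 * y + 8 * ε))
    linarith
  refine ⟨⌈x ^ y⌉₊, ⌈x ^ (2 * y + ε)⌉₊, ⌊x ^ (4 * y + 8 * ε)⌋₊, ⌊x ^ (4 * y + 8 * ε + κ)⌋₊, ?_, ?_, ?_, hY0a, hY0b,
    hHa, hHb, hLb, hLa, Nat.floor_le (by positivity), fun r hr => Nat.le_floor hr, ?_, ?_, ?_⟩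
  · have h4 : (1 : ℝ) ≤ (⌈x ^ y⌉₊ : ℝ) := hxy1.trans hY0a
    exact_mod_cast h4
  · have h4 : (1 : ℝ) ≤ (⌈x ^ (2 * y + ε)⌉₊ : ℝ) := hxh1.trans hHa
    exact_mod_cast h4
  · have h4 : (1 : ℝ) ≤ (⌊x ^ (4 * y + 8 * ε)⌋₊ : ℝ) := by linarith
    exact_mod_cast h4
  · exact hLa.trans (hle1 _ (by rw [hyv]; linarith))
  · have h5 : x ^ y ≤ x ^ (2 * y + ε) := Real.rpow_le_rpow_of_exponent_le hx1 (by rw [hyv]; linarith)
    have h6 : 16 * x ^ (2 * y + ε) ≤ x ^ (2 * y + ε + ε) := Bbo_K hx1 hK16 le_rfl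
    have h7 : x ^ (2 * y + ε + ε) ≤ x := hle1 _ (by rw [hyv]; linarith)
    linarith
  · refine hK16.trans (Real.rpow_le_rpow_of_exponent_le hx1 ?_)
    rw [hyv]
    linarith

/-- R, S, N, M at most x -/
private lemma Bbo_le {δ τ κ ε x : ℝ} {M N R S : ℕ} (hP : Par δ τ κ ε) (hB : Blk δ κ ε x M N R S) (hx1 : 1 ≤ x)
    (hN16 : 16 ≤ (N : ℝ)) (hRpos : (0 : ℝ) < R) : 1 ≤ R ∧ 16 ≤ (M : ℝ) ∧ (R : ℝ) ≤ x ∧ (S : ℝ) ≤ x ∧ (N : ℝ) ≤ x ∧ (M : ℝ) ≤ x := by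
  obtain ⟨hδ, hτ, hκp, hε, hε1, hp1, hp2⟩ := hP
  obtain ⟨hNM, hN, hMN1, hMN2, hS1, hR1, hR2, hRS1, hRS2⟩ := hB
  have hNMr : (N : ℝ) ≤ M := by exact_mod_cast hNM
  have hS1r : (1 : ℝ) ≤ S := by exact_mod_cast hS1
  have hR1n : 1 ≤ R := by exact_mod_cast hRpos
  have hR1r : (1 : ℝ) ≤ R := by exact_mod_cast hR1n
  have hRS : (R : ℝ) * S ≤ x := by
    refine hRS1.trans ?_
    calc x ^ (1 / 2 + δ) ≤ x ^ (1 : ℝ) := Real.rpow_le_rpow_of_exponent_le hx1 (by linarith)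
      _ = x := Real.rpow_one x
  refine ⟨hR1n, by linarith, le_trans (le_mul_of_one_le_right (by linarith) hS1r) hRS,
    le_trans (le_mul_of_one_le_left (by linarith) hR1r) hRS,
    le_trans (le_mul_of_one_le_left (by linarith) (by linarith)) hMN2,
    le_trans (le_mul_of_one_le_right (by linarith) (by linarith)) hMN2⟩

theorem tBbo (h1 : DspStmt) (h2 : Bt1Stmt) (h3 : BtaStmt) : BboStmt := by
  classical
  intro δ τ κ ε κ0 hP hκ0 hκ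
  obtain ⟨C2, hC2, A2, hD⟩ := h1
  obtain ⟨C1, hC1, A1, hB⟩ := h2
  have hε : 0 < ε := hP.2.2.2.1
  obtain ⟨μ, hμ, hμ1, hμ2⟩ : ∃ μ : ℝ, 0 < μ ∧ μ ≤ ε ∧ μ ≤ κ0 := ⟨min ε κ0, lt_min hε hκ0, min_le_left _ _, min_le_right _ _⟩
  obtain ⟨e, he, he2⟩ : ∃ e : ℝ, 0 < e ∧ e * ((A1 + A2 : ℕ) : ℝ) ≤ μ / 2 := by
    refine ⟨μ / (2 * ((A1 : ℝ) + A2 + 1)), by positivity, ?_⟩
    push_cast
    have h5 : (0 : ℝ) < 2 * ((A1 : ℝ) + A2 + 1) := by positivity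
    rw [div_mul_eq_mul_div, div_le_div_iff₀ h5 (by norm_num)]
    nlinarith
  obtain ⟨CT, hCT1, hCT⟩ := h3 e 30 he (by norm_num)
  refine ⟨μ / 4, Real.sqrt (C2 * CT ^ (A1 + A2) * (3 + 5 * C1)), (16 : ℝ) ^ (1 / ε), by positivity, ?_⟩
  intro x a M N R S V P f g hx hBlk hNx hV1 hV2 hPr hsel hf hg
  have hx1 : 1 ≤ x := le_trans (Real.one_le_rpow (by norm_num) (by positivity)) hx
  have hx0 : 0 < x := by linarith
  have hK16 : 16 ≤ x ^ ε := by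
    have h4 : ((16 : ℝ) ^ (1 / ε)) ^ ε ≤ x ^ ε := Real.rpow_le_rpow (by positivity) hx hε.le
    rwa [← Real.rpow_mul (by norm_num), one_div_mul_cancel hε.ne', Real.rpow_one] at h4
  have hδ := hP.1
  have hκp := hP.2.2.1
  have hε1 := hP.2.2.2.2.1
  have hp1 := hP.2.2.2.2.2.1
  have hx16 : 16 ≤ x := by
    refine hK16.trans ?_
    calc x ^ ε ≤ x ^ (1 : ℝ) := Real.rpow_le_rpow_of_exponent_le hx1 (by linarith)
      _ = x := Real.rpow_one x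
  obtain ⟨a1, a2, a3, a4, a5, a6, a7⟩ := Bbo_A hP hBlk hx1 hK16
  have hyv : yy δ κ ε = 2 * δ + κ + 3 * ε := rfl
  have hRpos : (0 : ℝ) < R := by
    have := Real.rpow_pos_of_pos hx0 (2 * yy δ κ ε + ε)
    linarith
  obtain ⟨hR1n, hM16, hRx, hSx, hNx', hMx'⟩ := Bbo_le hP hBlk hx1 a6 hRpos
  have hVx : (V : ℝ) ≤ x := by
    refine hV2.trans ?_
    calc x ^ (yy δ κ ε + κ + 4 * ε) ≤ x ^ (1 : ℝ) :=
          Real.rpow_le_rpow_of_exponent_le hx1 (by rw [hyv]; linarith)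
      _ = x := Real.rpow_one x
  obtain ⟨Y0, H, L, L', hY01, hH1, hL1, hY0a, hY0b, hHa, hHb, hLb, hLa, hL'a, hL'c, hLx, hHYx, hV16⟩ :=
    Bbo_sz hP hyv hx1 hK16
  obtain ⟨hNM, hN, hMN1, hMN2, hS1, hR1, hR2, hRS1, hRS2⟩ := hBlk
  have hS1r : (1 : ℝ) ≤ S := by exact_mod_cast hS1
  have hH1r : (1 : ℝ) ≤ H := by exact_mod_cast hH1
  have hN1 : 1 ≤ N := by
    have : (1 : ℝ) ≤ N := by linarith
    exact_mod_cast this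
  have hM8 : 8 ≤ M := by
    have : (8 : ℝ) ≤ M := by linarith
    exact_mod_cast this
  have hV2' : 2 ≤ V := by
    have h4 : (2 : ℝ) ≤ V := by linarith
    exact_mod_cast h4
  have h2HR : 2 * H < R := by
    have : (2 : ℝ) * H < R := by linarith
    exact_mod_cast this
  -- T
  obtain ⟨T, hTdef⟩ : ∃ T : ℝ, T = CT * x ^ e := ⟨_, rfl⟩
  have hTau : Tau (x ^ (30 : ℝ)) T := by
    rw [hTdef]
    exact hCT x hx1
  have hT1 : 1 ≤ T := hTau.1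
  -- choice functions
  obtain ⟨r0, v, hrv⟩ := Bbo_choice P (fun s v => v ∣ s ∧ V < v ∧ v ≤ 2 * V)
    (fun r r0 => r0 ∣ r ∧ x ^ (4 * yy δ κ ε + 8 * ε) < r0 ∧ (r0 : ℝ) ≤ x ^ (4 * yy δ κ ε + 8 * ε + κ)) hsel
  have hrv' : ∀ w ∈ P, r0 w.1 ∣ w.1 ∧ L < r0 w.1 ∧ r0 w.1 ≤ L' ∧ v w.2 ∣ w.2 ∧ V < v w.2 ∧ v w.2 ≤ 2 * V := by
    intro w hw
    obtain ⟨⟨u1, u2, u3⟩, u4, u5, u6⟩ := hrv w hw
    refine ⟨u4, ?_, hL'c _ u6, u1, u2, u3⟩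
    have h4 : (L : ℝ) < r0 w.1 := lt_of_le_of_lt hLa u5
    exact_mod_cast h4
  -- the root
  have hS4 : x ^ (sg δ κ ε + ε / 2) ≤ 4 * (S : ℝ) := by
    have h4 : (S : ℝ) * N ≤ S * x ^ (1 / 2 - sg δ κ ε) := mul_le_mul_of_nonneg_left hNx (by positivity)
    have h5 : x ^ (1 / 2 + ε / 2) ≤ 4 * (S : ℝ) * x ^ (1 / 2 - sg δ κ ε) := by linarith
    have h6 : x ^ (sg δ κ ε + ε / 2) * x ^ (1 / 2 - sg δ κ ε) = x ^ (1 / 2 + ε / 2) :=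
      Bbo_mul hx0 (by ring)
    rw [← h6] at h5
    exact le_of_mul_le_mul_right h5 (by positivity)
  have hroot := Bbo_B hP hx1 (Y0 := (Y0 : ℝ)) (V := (V : ℝ)) (L := (L : ℝ)) (L' := (L' : ℝ)) (S := (S : ℝ))
    (N := (N : ℝ)) hN (by linarith) a3 hS4 (by positivity) hY0b hV1 hV2 hLb hL'a
  have hRSn : 4 * (R * S ^ 2) ≤ M * Y0 := by
    have h5 : (4 : ℝ) * ((R : ℝ) * (S : ℝ) ^ 2) ≤ M * Y0 := by
      have h6 : (M : ℝ) * x ^ (yy δ κ ε) ≤ M * Y0 := mul_le_mul_of_nonneg_left hY0a (by positivity)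
      have h7 : 0 ≤ (R : ℝ) * (S : ℝ) ^ 2 := by positivity
      linarith
    exact_mod_cast h5
  have h2RN : 2 * R ≤ N := by
    have h5 : (2 : ℝ) * R ≤ N := by linarith
    exact_mod_cast h5
  have hX1 := Bbo_X1 hx16 (Nat.cast_nonneg R) (Nat.cast_nonneg S) (Nat.cast_nonneg N) (Nat.cast_nonneg V)
    (by positivity : (0 : ℝ) ≤ 2 * H + Y0) (Nat.cast_nonneg L) hRx hSx hNx' hVx hHYx hLx
  have hX2 := Bbo_X2 hx16 (Nat.cast_nonneg M) (Nat.cast_nonneg R) (Nat.cast_nonneg S)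
    (Nat.cast_nonneg N) hMx' hRx hSx hNx'
  -- B
  obtain ⟨B, hBdef⟩ : ∃ B : ℝ, B = C1 * T ^ A1 * ((M : ℝ) * N) * (5 * x ^ (-(2 * ε))) := ⟨_, rfl⟩
  have hB0 : 0 ≤ B := by
    rw [hBdef]
    positivity
  have hmain : ∀ (k : ℕ) (γ : ℤ → ℕ → ℕ → ℕ → ℂ) (ω : ℕ → ℕ → ℂ), Cf P R S M γ → (∀ r n, ‖ω r n‖ ≤ 1) →
      ‖∑ h ∈ Icc (-(H : ℤ)) H, TT a h k R S N (γ h) ω‖ ≤ B := by
    intro k γ ω hγ hω
    have h4 := hB (x ^ (30 : ℝ)) T a k R S M N H Y0 V L L' r0 v P γ ω hTau hR1n hS1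
      (by omega) hN1 hY01 hV2' hL1 hX1 h2RN hRSn hγ hω hrv'
    refine h4.trans ?_
    rw [hBdef]
    exact mul_le_mul_of_nonneg_left hroot (by positivity)
  have hKMN : R * S ^ 2 ≤ M * N := by
    have h5 : x ^ (yy δ κ ε) ≤ x ^ ((1 : ℝ) / 3 - ε) :=
      Real.rpow_le_rpow_of_exponent_le hx1 (by rw [hyv]; linarith [hP.2.2.2.2.2.2, hP.2.1])
    have h6 : (Y0 : ℝ) ≤ 2 * N := by linarith
    have h7 : (M : ℝ) * Y0 ≤ M * (2 * N) := mul_le_mul_of_nonneg_left h6 (by positivity)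
    have h8 : (4 : ℝ) * ((R : ℝ) * (S : ℝ) ^ 2) ≤ M * Y0 := by exact_mod_cast hRSn
    have h9 : (R : ℝ) * (S : ℝ) ^ 2 ≤ M * N := by
      have : (0 : ℝ) ≤ (M : ℝ) * N := by positivity
      linarith
    exact_mod_cast h9
  have hDsp := hD (x ^ (30 : ℝ)) T (x ^ κ0) B a R S M N H P f g hTau (Real.one_le_rpow hx1 hκ0.le) hB0 hS1
    hN1 hM8 hH1 (by omega) h2HR hX2 hKMN hPr hf hg hmain
  have hRS2' : (R : ℝ) * (S : ℝ) ^ 2 ≤ M * x ^ (yy δ κ ε) := by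
    have h7 : 0 ≤ (R : ℝ) * (S : ℝ) ^ 2 := by positivity
    linarith
  have hE := Bbo_fin (A1 := A1) (A2 := A2) hx1 hμ hμ1 hμ2 hC1 hC2 hCT1 hT1 (by linarith : (0 : ℝ) < M) (by linarith : (0 : ℝ) < N)
    hRpos (by linarith : (0 : ℝ) < S) (by linarith : (0 : ℝ) < H) a5 hRS2' hHa hMN2 hBdef hTdef he2
  refine (pow_le_pow_iff_left₀ (sum_nonneg fun _ _ => norm_nonneg _) (by positivity) (by norm_num : 2 ≠ 0)).1 ?_
  rw [mul_pow, Real.sq_sqrt (by positivity)]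
  exact hDsp.trans hE

end Pool.Agent.Lib.MJ
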