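import Pool.Agent.Lib.MJ.SpecG

/-!
MP_00e23e_nt, directory Lib/MI, module Bbt: one block, Type II.
-/

namespace Pool.Agent.Lib.MJ

open Finset Pool.Agent.Lib.EH3 Pool.Agent.Lib.TB Pool.Agent.Results.MP_00e23e_nt Pool.Agent.Lib.MI

private theorem Bbt_E {x : ℝ} (hx : 0 < x) (a b c : ℝ) (h : a + b = c) :
    x ^ a * x ^ b = x ^ c := by
  rw [← Real.rpow_add hx, h]

private theorem Bbt_L {x : ℝ} (hx : 1 ≤ x) (a b : ℝ) (h : a ≤ b) : x ^ a ≤ x ^ b :=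
  Real.rpow_le_rpow_of_exponent_le hx h

private theorem Bbt_G2 (δ κ ε x m n r s : ℝ) (hx : 1 ≤ x) (hr : 0 < r) (hm : 0 < m) (hs : 0 < s)
    (F3 : x ^ (1 - ε) ≤ m * n) (F7 : n * x ^ (-ε - κ) ≤ 2 * r)
    (F8 : r * s ≤ x ^ (1 / 2 + δ)) : r * s ^ 2 ≤ 2 * x ^ (yy δ κ ε - ε) * m := by
  have hx0 : 0 < x := by linarith
  have h1 : (r * s) ^ 2 ≤ x ^ (1 + 2 * δ) := by
    have h : x ^ (1 + 2 * δ) = (x ^ (1 / 2 + δ)) ^ 2 := by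
      rw [sq, Bbt_E hx0 _ _ (1 + 2 * δ) (by ring)]
    rw [h]
    exact pow_le_pow_left₀ (by positivity) F8 2
  have h2 : x ^ (1 - 2 * ε - κ) ≤ 2 * (r * m) := by
    calc x ^ (1 - 2 * ε - κ) = x ^ (1 - ε) * x ^ (-ε - κ) := (Bbt_E hx0 _ _ _ (by ring)).symm
      _ ≤ (m * n) * x ^ (-ε - κ) := mul_le_mul_of_nonneg_right F3 (Real.rpow_nonneg hx0.le _)
      _ = m * (n * x ^ (-ε - κ)) := by ring
      _ ≤ m * (2 * r) := mul_le_mul_of_nonneg_left F7 hm.le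
      _ = _ := by ring
  have h3 : x ^ (1 + 2 * δ) ≤ x ^ (yy δ κ ε - ε) * (2 * (r * m)) := by
    calc x ^ (1 + 2 * δ) = x ^ (yy δ κ ε - ε) * x ^ (1 - 2 * ε - κ) :=
          (Bbt_E hx0 _ _ _ (by unfold yy; ring)).symm
      _ ≤ _ := mul_le_mul_of_nonneg_left h2 (Real.rpow_nonneg hx0.le _)
  have h4 : r * (r * s ^ 2) ≤ r * (2 * x ^ (yy δ κ ε - ε) * m) := by
    calc r * (r * s ^ 2) = (r * s) ^ 2 := by ring
      _ ≤ x ^ (yy δ κ ε - ε) * (2 * (r * m)) := h1.trans h3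
      _ = _ := by ring
  exact le_of_mul_le_mul_left h4 hr

private theorem Bbt_G5 (δ κ ε x n r s : ℝ) (hx : 1 ≤ x) (hs : 0 < s)
    (F7 : n * x ^ (-ε - κ) ≤ 2 * r) (F8 : r * s ≤ x ^ (1 / 2 + δ)) :
    s * n ≤ 2 * x ^ (1 / 2 + δ + ε + κ) := by
  have hx0 : 0 < x := by linarith
  have h1 : n ≤ 2 * r * x ^ (ε + κ) := by
    have h2 : x ^ (-ε - κ) * x ^ (ε + κ) = 1 := by
      rw [Bbt_E hx0 _ _ 0 (by ring), Real.rpow_zero]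
    calc n = n * x ^ (-ε - κ) * x ^ (ε + κ) := by rw [mul_assoc, h2, mul_one]
      _ ≤ _ := mul_le_mul_of_nonneg_right F7 (Real.rpow_nonneg hx0.le _)
  calc s * n ≤ s * (2 * r * x ^ (ε + κ)) := mul_le_mul_of_nonneg_left h1 hs.le
    _ = 2 * ((r * s) * x ^ (ε + κ)) := by ring
    _ ≤ 2 * (x ^ (1 / 2 + δ) * x ^ (ε + κ)) :=
        mul_le_mul_of_nonneg_left (mul_le_mul_of_nonneg_right F8 (Real.rpow_nonneg hx0.le _))
          (by norm_num)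
    _ = _ := by rw [Bbt_E hx0 _ _ (1 / 2 + δ + ε + κ) (by ring)]

private theorem Bbt_G6 (ε x n r s : ℝ) (hx : 1 ≤ x) (hs : 0 < s) (hn : n ≤ x ^ ((1 : ℝ) / 2))
    (F6 : r ≤ n * x ^ (-ε)) (F9 : x ^ (1 / 2 - ε / 2) ≤ 4 * (r * s)) :
    1 / s ^ 2 ≤ 16 * x ^ (-ε) := by
  have hx0 : 0 < x := by linarith
  have hp : ∀ a : ℝ, 0 < x ^ a := fun a => Real.rpow_pos_of_pos hx0 a
  have h1 : x ^ (1 / 2 - ε) * x ^ (ε / 2) ≤ x ^ (1 / 2 - ε) * (4 * s) := by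
    calc x ^ (1 / 2 - ε) * x ^ (ε / 2) = x ^ (1 / 2 - ε / 2) := Bbt_E hx0 _ _ _ (by ring)
      _ ≤ 4 * (r * s) := F9
      _ ≤ 4 * (n * x ^ (-ε) * s) :=
          mul_le_mul_of_nonneg_left (mul_le_mul_of_nonneg_right F6 hs.le) (by norm_num)
      _ ≤ 4 * (x ^ ((1 : ℝ) / 2) * x ^ (-ε) * s) :=
          mul_le_mul_of_nonneg_left (mul_le_mul_of_nonneg_right
            (mul_le_mul_of_nonneg_right hn (hp _).le) hs.le) (by norm_num)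
      _ = _ := by
          rw [Bbt_E hx0 _ _ (1 / 2 - ε) (by ring)]
          ring
  have h2 : x ^ (ε / 2) ≤ 4 * s := le_of_mul_le_mul_left h1 (hp _)
  have h3 : x ^ ε ≤ 16 * s ^ 2 := by
    calc x ^ ε = (x ^ (ε / 2)) ^ 2 := by rw [sq, Bbt_E hx0 _ _ ε (by ring)]
      _ ≤ (4 * s) ^ 2 := pow_le_pow_left₀ (hp _).le h2 2
      _ = _ := by ring
  rw [Real.rpow_neg hx0.le, div_le_iff₀ (by positivity)]
  have h4 : (x ^ ε)⁻¹ * x ^ ε = 1 := inv_mul_cancel₀ (hp _).ne'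
  have h5 : (x ^ ε)⁻¹ * x ^ ε ≤ (x ^ ε)⁻¹ * (16 * s ^ 2) :=
    mul_le_mul_of_nonneg_left h3 (inv_nonneg.2 (hp _).le)
  linarith

/-- the third term -/
private theorem Bbt_G7 (δ κ ε x n r s Y : ℝ) (hx : 1 ≤ x) (hε : 0 < ε) (hn : 0 < n)
    (hs : 0 < s) (hY0 : 0 ≤ Y) (hY : Y ≤ x ^ (yy δ κ ε)) (hrn : r ≤ n)
    (hp : 86 * δ + 60 * κ + 300 * ε ≤ 1)
    (G5 : s * n ≤ 2 * x ^ (1 / 2 + δ + ε + κ)) (F10 : x ^ (1 / 2 - sg δ κ ε) ≤ n) :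
    Real.sqrt r * Y ^ 2 * s ^ 4 / n ≤ 16 * x ^ (-ε) := by
  have hx0 : 0 < x := by linarith
  have hpp : ∀ a : ℝ, 0 < x ^ a := fun a => Real.rpow_pos_of_pos hx0 a
  have h1 : Real.sqrt r ≤ n ^ ((1 : ℝ) / 2) := by
    rw [← Real.sqrt_eq_rpow]
    exact Real.sqrt_le_sqrt hrn
  have h2 : Y ^ 2 ≤ x ^ (2 * yy δ κ ε) := by
    calc Y ^ 2 ≤ (x ^ (yy δ κ ε)) ^ 2 := pow_le_pow_left₀ hY0 hY 2
      _ = _ := by rw [sq, Bbt_E hx0 _ _ (2 * yy δ κ ε) (by ring)]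
  have h3 : s ^ 4 * n ^ 4 ≤ 16 * x ^ (2 + 4 * δ + 4 * ε + 4 * κ) := by
    calc s ^ 4 * n ^ 4 = (s * n) ^ 4 := by ring
      _ ≤ (2 * x ^ (1 / 2 + δ + ε + κ)) ^ 4 := pow_le_pow_left₀ (by positivity) G5 4
      _ = 16 * ((x ^ (1 / 2 + δ + ε + κ) * x ^ (1 / 2 + δ + ε + κ)) *
          (x ^ (1 / 2 + δ + ε + κ) * x ^ (1 / 2 + δ + ε + κ))) := by ring
      _ = _ := by
          rw [Bbt_E hx0 _ _ (1 + 2 * δ + 2 * ε + 2 * κ) (by ring),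
            Bbt_E hx0 _ _ (2 + 4 * δ + 4 * ε + 4 * κ) (by ring)]
  have h4 : n ^ (-((9 : ℝ) / 2)) ≤ x ^ (-(9 : ℝ) / 4 + 9 / 2 * sg δ κ ε) := by
    calc n ^ (-((9 : ℝ) / 2)) ≤ (x ^ (1 / 2 - sg δ κ ε)) ^ (-((9 : ℝ) / 2)) :=
          Real.rpow_le_rpow_of_nonpos (hpp _) F10 (by norm_num)
      _ = _ := by
          rw [← Real.rpow_mul hx0.le]
          refine congrArg _ ?_
          ring
  have h5 : n ^ ((1 : ℝ) / 2) * s ^ 4 / n = s ^ 4 * n ^ 4 * n ^ (-((9 : ℝ) / 2)) := by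
    have h6 : n ^ ((1 : ℝ) / 2) = n ^ (-((9 : ℝ) / 2)) * n ^ 5 := by
      rw [← Real.rpow_natCast n 5, Bbt_E hn _ _ ((1 : ℝ) / 2) (by norm_num)]
    rw [h6]
    field_simp
  calc Real.sqrt r * Y ^ 2 * s ^ 4 / n = Real.sqrt r * (Y ^ 2 * (s ^ 4 / n)) := by ring
    _ ≤ n ^ ((1 : ℝ) / 2) * (Y ^ 2 * (s ^ 4 / n)) :=
        mul_le_mul_of_nonneg_right h1 (by positivity)
    _ = Y ^ 2 * (n ^ ((1 : ℝ) / 2) * s ^ 4 / n) := by ring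
    _ = Y ^ 2 * (s ^ 4 * n ^ 4 * n ^ (-((9 : ℝ) / 2))) := by rw [h5]
    _ ≤ x ^ (2 * yy δ κ ε) * (16 * x ^ (2 + 4 * δ + 4 * ε + 4 * κ) *
          x ^ (-(9 : ℝ) / 4 + 9 / 2 * sg δ κ ε)) := by
        refine mul_le_mul h2 ?_ (by positivity) (hpp _).le
        exact mul_le_mul h3 h4 (Real.rpow_nonneg hn.le _) (by positivity)
    _ = 16 * (x ^ (2 * yy δ κ ε) * (x ^ (2 + 4 * δ + 4 * ε + 4 * κ) *
          x ^ (-(9 : ℝ) / 4 + 9 / 2 * sg δ κ ε))) := by ring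
    _ = 16 * x ^ (2 * yy δ κ ε + (2 + 4 * δ + 4 * ε + 4 * κ + (-(9 : ℝ) / 4 +
          9 / 2 * sg δ κ ε))) := by
        rw [← Real.rpow_add hx0, ← Real.rpow_add hx0]
    _ ≤ 16 * x ^ (-ε) := by
        refine mul_le_mul_of_nonneg_left (Bbt_L hx _ _ ?_) (by norm_num)
        unfold yy sg
        linarith

/-- Module Bbt: one block, Type II. -/
theorem tBbt (h1 : DspStmt) (h2 : Bt2Stmt) (h3 : BtaStmt) : BbtStmt := by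
  intro δ τ κ ε κ0 hPar hκ0 hκ0κ
  obtain ⟨hδ, hτ, hκ, hε, hε1, hp1, hp2⟩ := hPar
  obtain ⟨C3, hC3, A3, hD⟩ := h1
  obtain ⟨C2, hC2, A2, hT⟩ := h2
  set μ : ℝ := min (ε / 2) κ0 with hμ
  have hμ0 : 0 < μ := lt_min (by linarith) hκ0
  have hμε : μ ≤ ε / 2 := min_le_left _ _
  have hμκ : μ ≤ κ0 := min_le_right _ _
  set e : ℝ := μ / (2 * ((A3 : ℝ) + A2 + 1)) with he
  have hA : (0 : ℝ) < 2 * ((A3 : ℝ) + A2 + 1) := by positivity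
  have he0 : 0 < e := div_pos hμ0 hA
  obtain ⟨C1, hC1, hTau⟩ := h3 e 30 he0 (by norm_num)
  set K : ℝ := C3 * (6 + 7 * C2) * C1 ^ (A3 + A2) with hK
  have hC1p : 0 < C1 := by linarith
  have hK0 : 0 < K := by positivity
  refine ⟨μ / 4, Real.sqrt K, (100 : ℝ) ^ (1 / ε), by linarith, ?_⟩
  intro x a M N R S P f g hx hBlk F10 hPr hf hg
  obtain ⟨hNM, F2, F3, F4, hS, F6, F7, F8, F9⟩ := hBlk
  -- basic facts about x
  have hx1 : 1 ≤ x := le_trans (Real.one_le_rpow (by norm_num) (by positivity)) hx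
  have hx0 : 0 < x := by linarith
  have hp : ∀ a : ℝ, 0 < x ^ a := fun a => Real.rpow_pos_of_pos hx0 a
  have hq : 100 ≤ x ^ ε := by
    have h4 : ((100 : ℝ) ^ (1 / ε)) ^ ε = 100 := by
      rw [← Real.rpow_mul (by norm_num), one_div, inv_mul_cancel₀ hε.ne', Real.rpow_one]
    rw [← h4]
    exact Real.rpow_le_rpow (by positivity) hx hε.le
  have hq' : ∀ a : ℝ, ε ≤ a → 100 ≤ x ^ a := fun a ha => hq.trans (Bbt_L hx1 _ _ ha)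
  have hx100 : 100 ≤ x := by
    have := hq' 1 (by linarith)
    rwa [Real.rpow_one] at this
  -- the real numbers
  have hn100 : (100 : ℝ) ≤ N := (hq' _ (by linarith)).trans F2
  have hn0 : (0 : ℝ) < N := by linarith
  have hmn : (N : ℝ) ≤ M := by exact_mod_cast hNM
  have hm0 : (0 : ℝ) < M := by linarith
  have hs1 : (1 : ℝ) ≤ S := by exact_mod_cast hS
  have hs0 : (0 : ℝ) < S := by linarith
  have hr13 : x ^ ((1 : ℝ) / 3 - 2 * ε - κ) ≤ 2 * R := by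
    calc x ^ ((1 : ℝ) / 3 - 2 * ε - κ) = x ^ ((1 : ℝ) / 3 - ε) * x ^ (-ε - κ) :=
          (Bbt_E hx0 _ _ _ (by ring)).symm
      _ ≤ N * x ^ (-ε - κ) := mul_le_mul_of_nonneg_right F2 (hp _).le
      _ ≤ _ := F7
  have hr50 : (50 : ℝ) ≤ R := by
    have := hq' ((1 : ℝ) / 3 - 2 * ε - κ) (by linarith)
    linarith
  have hr0 : (0 : ℝ) < R := by linarith
  have hnx : (N : ℝ) ≤ x ^ ((1 : ℝ) / 2) := by
    rw [← Real.sqrt_eq_rpow]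
    refine Real.le_sqrt_of_sq_le ?_
    calc (N : ℝ) ^ 2 = N * N := sq _
      _ ≤ M * N := mul_le_mul_of_nonneg_right hmn hn0.le
      _ ≤ x := F4
  have hrn : (R : ℝ) ≤ N := by
    refine F6.trans ?_
    calc (N : ℝ) * x ^ (-ε) ≤ N * 1 :=
          mul_le_mul_of_nonneg_left (Real.rpow_le_one_of_one_le_of_nonpos hx1 (by linarith)) hn0.le
      _ = N := mul_one _
  have G2 := Bbt_G2 δ κ ε x M N R S hx1 hr0 hm0 hs0 F3 F7 F8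
  have G5 := Bbt_G5 δ κ ε x N R S hx1 hs0 F7 F8
  have G6 := Bbt_G6 ε x N R S hx1 hs0 hnx F6 F9
  -- Y0 and H
  set Y0 : ℕ := ⌈4 * ((R : ℝ) * (S : ℝ) ^ 2) / M⌉₊ with hY0
  set H : ℕ := ⌈x ^ (2 * yy δ κ ε + ε)⌉₊ with hH
  have hYpos : 0 < 4 * ((R : ℝ) * (S : ℝ) ^ 2) / M := by positivity
  have hY1 : 1 ≤ Y0 := Nat.one_le_ceil_iff.2 hYpos
  have hYle : (Y0 : ℝ) ≤ 4 * ((R : ℝ) * (S : ℝ) ^ 2) / M + 1 := (Nat.ceil_lt_add_one hYpos.le).le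
  have hYge : 4 * ((R : ℝ) * (S : ℝ) ^ 2) ≤ M * Y0 := by
    have h4 : 4 * ((R : ℝ) * (S : ℝ) ^ 2) / M ≤ Y0 := Nat.le_ceil _
    rw [div_le_iff₀ hm0] at h4
    linarith
  have hyy : 0 < yy δ κ ε - ε := by
    unfold yy
    linarith
  have hYx : (Y0 : ℝ) ≤ x ^ (yy δ κ ε) := by
    have h4 : 4 * ((R : ℝ) * (S : ℝ) ^ 2) / M ≤ 8 * x ^ (yy δ κ ε - ε) := by
      rw [div_le_iff₀ hm0]
      linarith
    have h5 : 1 ≤ x ^ (yy δ κ ε - ε) := Real.one_le_rpow hx1 hyy.le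
    have h6 : x ^ (yy δ κ ε) = x ^ (yy δ κ ε - ε) * x ^ ε := (Bbt_E hx0 _ _ _ (by ring)).symm
    have h7 : x ^ (yy δ κ ε - ε) * 9 ≤ x ^ (yy δ κ ε - ε) * x ^ ε :=
      mul_le_mul_of_nonneg_left (by linarith) (hp _).le
    rw [h6]
    linarith
  have hHge : x ^ (2 * yy δ κ ε + ε) ≤ H := Nat.le_ceil _
  have hHle : (H : ℝ) ≤ 2 * x ^ (2 * yy δ κ ε + ε) := by
    have h4 : (H : ℝ) ≤ x ^ (2 * yy δ κ ε + ε) + 1 := (Nat.ceil_lt_add_one (hp _).le).le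
    have h5 : 1 ≤ x ^ (2 * yy δ κ ε + ε) := Real.one_le_rpow hx1 (by linarith)
    linarith
  have hH1 : 1 ≤ H := Nat.one_le_ceil_iff.2 (hp _)
  have h2H : 2 * H < R := by
    have h4 : x ^ ((1 : ℝ) / 3 - 2 * ε - κ) = x ^ (2 * yy δ κ ε + ε) *
        x ^ ((1 : ℝ) / 3 - 3 * ε - κ - 2 * yy δ κ ε) := (Bbt_E hx0 _ _ _ (by ring)).symm
    have h5 : 100 ≤ x ^ ((1 : ℝ) / 3 - 3 * ε - κ - 2 * yy δ κ ε) :=
      hq' _ (by unfold yy; linarith)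
    have h6 : x ^ (2 * yy δ κ ε + ε) * 100 ≤ 2 * R := by
      refine le_trans ?_ hr13
      rw [h4]
      exact mul_le_mul_of_nonneg_left h5 (hp _).le
    have h7 : (2 : ℝ) * H < R := by
      have := hp (2 * yy δ κ ε + ε)
      linarith
    exact_mod_cast h7
  -- sizes
  have hrs : (R : ℝ) * S ≤ x := by
    refine F8.trans ?_
    have := Bbt_L hx1 (1 / 2 + δ) 1 (by linarith)
    rwa [Real.rpow_one] at this
  have hsx : (S : ℝ) ≤ x := by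
    refine le_trans ?_ hrs
    have : 1 * (S : ℝ) ≤ R * S := mul_le_mul_of_nonneg_right (by linarith) hs0.le
    linarith
  have hrs4 : (R : ℝ) ^ 2 * (S : ℝ) ^ 4 ≤ x ^ 4 := by
    calc (R : ℝ) ^ 2 * (S : ℝ) ^ 4 = (R * S) ^ 2 * (S : ℝ) ^ 2 := by ring
      _ ≤ x ^ 2 * x ^ 2 := mul_le_mul (pow_le_pow_left₀ (by positivity) hrs 2)
          (pow_le_pow_left₀ hs0.le hsx 2) (by positivity) (by positivity)
      _ = x ^ 4 := by ring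
  have hmn2 : ((M : ℝ) * N) ^ 2 ≤ x ^ 2 := pow_le_pow_left₀ (by positivity) F4 2
  have hX30 : (x : ℝ) ^ (30 : ℝ) = x ^ 30 := by
    rw [← Real.rpow_natCast x 30]
    norm_num
  have hD1 : 100 * (M : ℝ) ^ 2 * (N : ℝ) ^ 2 * (R : ℝ) ^ 2 * (S : ℝ) ^ 4 ≤
      x ^ (30 : ℝ) := by
    rw [hX30]
    calc 100 * (M : ℝ) ^ 2 * (N : ℝ) ^ 2 * (R : ℝ) ^ 2 * (S : ℝ) ^ 4 =
          100 * ((((M : ℝ) * N) ^ 2) * ((R : ℝ) ^ 2 * (S : ℝ) ^ 4)) := by ring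
      _ ≤ x * (x ^ 2 * x ^ 4) :=
          mul_le_mul hx100 (mul_le_mul hmn2 hrs4 (by positivity) (by positivity))
            (by positivity) hx0.le
      _ = x ^ 7 := by ring
      _ ≤ x ^ 30 := pow_le_pow_right₀ hx1 (by norm_num)
  have hy1 : x ^ (2 * yy δ κ ε + ε) ≤ x := by
    have := Bbt_L hx1 (2 * yy δ κ ε + ε) 1 (by unfold yy; linarith)
    rwa [Real.rpow_one] at this
  have hy2 : x ^ (yy δ κ ε) ≤ x := by
    have := Bbt_L hx1 (yy δ κ ε) 1 (by unfold yy; linarith)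
    rwa [Real.rpow_one] at this
  have hD2 : 100 * (R : ℝ) ^ 2 * (S : ℝ) ^ 4 * (N : ℝ) ^ 2 * (2 * H + Y0 : ℝ) ^ 2 ≤
      x ^ (30 : ℝ) := by
    rw [hX30]
    have h4 : (2 * (H : ℝ) + Y0) ^ 2 ≤ (5 * x) ^ 2 :=
      pow_le_pow_left₀ (by positivity) (by linarith) 2
    have h5 : (N : ℝ) ^ 2 ≤ x := by
      calc (N : ℝ) ^ 2 = N * N := sq _
        _ ≤ M * N := mul_le_mul_of_nonneg_right hmn hn0.le
        _ ≤ x := F4
    calc 100 * (R : ℝ) ^ 2 * (S : ℝ) ^ 4 * (N : ℝ) ^ 2 * (2 * H + Y0 : ℝ) ^ 2 =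
          100 * ((((R : ℝ) ^ 2 * (S : ℝ) ^ 4) * (N : ℝ) ^ 2) * (2 * H + Y0 : ℝ) ^ 2) := by ring
      _ ≤ 100 * ((x ^ 4 * x) * (5 * x) ^ 2) :=
          mul_le_mul_of_nonneg_left (mul_le_mul (mul_le_mul hrs4 h5 (by positivity)
            (by positivity)) h4 (by positivity) (by positivity)) (by norm_num)
      _ = 2500 * x ^ 7 := by ring
      _ ≤ (x * x) * x ^ 7 := by
          have h6 : (100 : ℝ) * 100 ≤ x * x := mul_le_mul hx100 hx100 (by norm_num) hx0.le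
          exact mul_le_mul_of_nonneg_right (by linarith) (by positivity)
      _ = x ^ 9 := by ring
      _ ≤ x ^ 30 := pow_le_pow_right₀ hx1 (by norm_num)
  -- the bound B
  set T : ℝ := C1 * x ^ e with hTdef
  have hTau' : Tau (x ^ (30 : ℝ)) T := hTau x hx1
  have hT1 : 1 ≤ T := hTau'.1
  have hT0 : 0 < T := by linarith
  have hRN : R ≤ N := by exact_mod_cast hrn
  have hR1 : 1 ≤ R := by
    have : (1 : ℝ) ≤ R := by linarith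
    exact_mod_cast this
  have hN1 : 1 ≤ N := by
    have : (1 : ℝ) ≤ N := by linarith
    exact_mod_cast this
  have hM8 : 8 ≤ M := by
    have : (8 : ℝ) ≤ M := by linarith
    exact_mod_cast this
  have hYnat : 4 * (R * S ^ 2) ≤ M * Y0 := by exact_mod_cast hYge
  set Q : ℝ := Real.sqrt R * (Y0 : ℝ) ^ 2 * (S : ℝ) ^ 4 / N + (Y0 : ℝ) / (S : ℝ) ^ 2 +
    (Y0 : ℝ) ^ 2 / R with hQ
  set B : ℝ := C2 * T ^ A2 * ((M : ℝ) * N) * Real.sqrt Q with hB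
  have hB0 : 0 ≤ B := by positivity
  have hBB : ∀ (k : ℕ) (γ : ℤ → ℕ → ℕ → ℕ → ℂ) (ω : ℕ → ℕ → ℂ), Cf P R S M γ →
      (∀ r n, ‖ω r n‖ ≤ 1) → ‖∑ h ∈ Icc (-(H : ℤ)) H, TT a h k R S N (γ h) ω‖ ≤ B :=
    fun k γ ω hγ hω => hT (x ^ (30 : ℝ)) T a k R S M N H Y0 P γ ω hTau' hR1 hS (by omega) hN1 hY1
      hD2 hYnat hγ hω
  -- estimate of Q
  have hQle : Q ≤ 38 * x ^ (-ε) := by
    have q1 := Bbt_G7 δ κ ε x N R S Y0 hx1 hε hn0 hs0 (by positivity) hYx hrn hp1 G5 F10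
    have q2 : (Y0 : ℝ) / (S : ℝ) ^ 2 ≤ 20 * x ^ (-ε) := by
      have h4 : (R : ℝ) / M ≤ x ^ (-ε) := by
        rw [div_le_iff₀ hm0]
        calc (R : ℝ) ≤ N * x ^ (-ε) := F6
          _ ≤ M * x ^ (-ε) := mul_le_mul_of_nonneg_right hmn (hp _).le
          _ = _ := mul_comm _ _
      calc (Y0 : ℝ) / (S : ℝ) ^ 2 ≤ (4 * ((R : ℝ) * (S : ℝ) ^ 2) / M + 1) / (S : ℝ) ^ 2 :=
            div_le_div_of_nonneg_right hYle (by positivity)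
        _ = 4 * ((R : ℝ) / M) + 1 / (S : ℝ) ^ 2 := by field_simp
        _ ≤ 4 * x ^ (-ε) + 16 * x ^ (-ε) := by linarith
        _ = _ := by ring
    have q3 : (Y0 : ℝ) ^ 2 / R ≤ 2 * x ^ (-ε) := by
      have h4 : (Y0 : ℝ) ^ 2 ≤ x ^ (2 * yy δ κ ε) := by
        calc (Y0 : ℝ) ^ 2 ≤ (x ^ (yy δ κ ε)) ^ 2 := pow_le_pow_left₀ (by positivity) hYx 2
          _ = _ := by rw [sq, Bbt_E hx0 _ _ (2 * yy δ κ ε) (by ring)]
      rw [div_le_iff₀ hr0]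
      refine h4.trans ?_
      have h5 : x ^ (2 * yy δ κ ε) ≤ x ^ (-ε) * x ^ ((1 : ℝ) / 3 - 2 * ε - κ) := by
        rw [← Real.rpow_add hx0]
        exact Bbt_L hx1 _ _ (by unfold yy; linarith)
      have h6 : x ^ (-ε) * x ^ ((1 : ℝ) / 3 - 2 * ε - κ) ≤ x ^ (-ε) * (2 * R) :=
        mul_le_mul_of_nonneg_left hr13 (hp _).le
      linarith
    rw [hQ]
    linarith
  have hsq : Real.sqrt Q ≤ 7 * x ^ (-(ε / 2)) := by
    refine Real.sqrt_le_iff.2 ⟨by positivity, hQle.trans ?_⟩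
    have h4 : (7 * x ^ (-(ε / 2))) ^ 2 = 49 * x ^ (-ε) := by
      rw [mul_pow, sq (x ^ (-(ε / 2))), Bbt_E hx0 _ _ (-ε) (by ring)]
      norm_num
    rw [h4]
    have := hp (-ε)
    linarith
  -- the dispersion
  have hKMN : R * S ^ 2 ≤ M * N := by
    have h4 : x ^ (yy δ κ ε) ≤ N :=
      (Bbt_L hx1 _ _ (by unfold yy; linarith)).trans F2
    have h5 : (M : ℝ) * Y0 ≤ M * N := mul_le_mul_of_nonneg_left (hYx.trans h4) hm0.le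
    have h6 : 0 ≤ (R : ℝ) * (S : ℝ) ^ 2 := by positivity
    have h7 : (R : ℝ) * (S : ℝ) ^ 2 ≤ M * N := by linarith
    exact_mod_cast h7
  have hz1 : 1 ≤ x ^ κ0 := Real.one_le_rpow hx1 hκ0.le
  have main := hD (x ^ (30 : ℝ)) T (x ^ κ0) B a R S M N H P f g hTau' hz1 hB0 hS hN1 hM8
    hH1 hRN h2H hD1 hKMN hPr hf hg hBB
  set Sm : ℝ := ∑ w ∈ P, ‖∑ m ∈ Ioc M (2 * M), ∑ n ∈ Ioc N (2 * N),
    f m * g n * Dl a w.1 w.2 (m * n)‖ with hSm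
  have hx2 : (0 : ℝ) < x ^ 2 := by positivity
  have hmu : ∀ t : ℝ, μ ≤ t → x ^ (-t) ≤ x ^ (-μ) := fun t ht => Bbt_L hx1 _ _ (by linarith)
  have t1 : (R : ℝ) * (M : ℝ) ^ 2 * N ≤ x ^ 2 * x ^ (-μ) := by
    calc (R : ℝ) * (M : ℝ) ^ 2 * N ≤ (N * x ^ (-ε)) * (M : ℝ) ^ 2 * N := by
          refine mul_le_mul_of_nonneg_right (mul_le_mul_of_nonneg_right F6 ?_) hn0.le
          positivity
      _ = ((M : ℝ) * N) ^ 2 * x ^ (-ε) := by ring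
      _ ≤ x ^ 2 * x ^ (-μ) := mul_le_mul hmn2 (hmu ε (by linarith)) (hp _).le hx2.le
  have t2 : (M : ℝ) ^ 2 * (N : ℝ) ^ 2 / x ^ κ0 ≤ x ^ 2 * x ^ (-μ) := by
    have h4 : (M : ℝ) ^ 2 * (N : ℝ) ^ 2 / x ^ κ0 = ((M : ℝ) * N) ^ 2 * x ^ (-κ0) := by
      rw [Real.rpow_neg hx0.le, div_eq_mul_inv]
      ring
    rw [h4]
    exact mul_le_mul hmn2 (hmu κ0 hμκ) (hp _).le hx2.le
  have t3 : (R : ℝ) ^ 2 * (S : ℝ) ^ 4 * (N : ℝ) ^ 2 / H ≤ 4 * (x ^ 2 * x ^ (-μ)) := by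
    have hH0 : (0 : ℝ) < H := lt_of_lt_of_le (hp _) hHge
    rw [div_le_iff₀ hH0]
    have h4 : (R * (S : ℝ) ^ 2) ^ 2 ≤ (2 * x ^ (yy δ κ ε - ε) * M) ^ 2 :=
      pow_le_pow_left₀ (by positivity) G2 2
    have h5 : (2 * x ^ (yy δ κ ε - ε) * M) ^ 2 * (N : ℝ) ^ 2 =
        4 * (x ^ (2 * yy δ κ ε - 2 * ε) * ((M : ℝ) * N) ^ 2) := by
      rw [← Bbt_E hx0 (yy δ κ ε - ε) (yy δ κ ε - ε) (2 * yy δ κ ε - 2 * ε) (by ring)]
      ring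
    have h6 : x ^ (2 * yy δ κ ε - 2 * ε) ≤ x ^ (-μ) * x ^ (2 * yy δ κ ε + ε) := by
      rw [← Real.rpow_add hx0]
      exact Bbt_L hx1 _ _ (by linarith)
    calc (R : ℝ) ^ 2 * (S : ℝ) ^ 4 * (N : ℝ) ^ 2 = (R * (S : ℝ) ^ 2) ^ 2 * (N : ℝ) ^ 2 := by ring
      _ ≤ (2 * x ^ (yy δ κ ε - ε) * M) ^ 2 * (N : ℝ) ^ 2 :=
          mul_le_mul_of_nonneg_right h4 (by positivity)
      _ = 4 * (x ^ (2 * yy δ κ ε - 2 * ε) * ((M : ℝ) * N) ^ 2) := h5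
      _ ≤ 4 * ((x ^ (-μ) * x ^ (2 * yy δ κ ε + ε)) * x ^ 2) :=
          mul_le_mul_of_nonneg_left (mul_le_mul h6 hmn2 (by positivity) (by positivity))
            (by norm_num)
      _ = 4 * (x ^ 2 * x ^ (-μ)) * x ^ (2 * yy δ κ ε + ε) := by ring
      _ ≤ 4 * (x ^ 2 * x ^ (-μ)) * H := mul_le_mul_of_nonneg_left hHge (by positivity)
  have t4 : (M : ℝ) * N * B ≤ 7 * C2 * T ^ A2 * (x ^ 2 * x ^ (-μ)) := by
    have h4 : Real.sqrt Q ≤ 7 * x ^ (-μ) := by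
      refine hsq.trans (mul_le_mul_of_nonneg_left (hmu (ε / 2) hμε) (by norm_num))
    calc (M : ℝ) * N * B = (C2 * T ^ A2) * ((((M : ℝ) * N) ^ 2) * Real.sqrt Q) := by
          rw [hB]
          ring
      _ ≤ (C2 * T ^ A2) * (x ^ 2 * (7 * x ^ (-μ))) :=
          mul_le_mul_of_nonneg_left (mul_le_mul hmn2 h4 (Real.sqrt_nonneg _) hx2.le)
            (by positivity)
      _ = _ := by ring
  have hTA : 1 ≤ T ^ A2 := one_le_pow₀ hT1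
  have hZ : 0 < x ^ 2 * x ^ (-μ) := mul_pos hx2 (hp _)
  have hsum : (R : ℝ) * (M : ℝ) ^ 2 * N + (M : ℝ) ^ 2 * (N : ℝ) ^ 2 / x ^ κ0 +
      (R : ℝ) ^ 2 * (S : ℝ) ^ 4 * (N : ℝ) ^ 2 / H + (M : ℝ) * N * B ≤
      (6 + 7 * C2) * T ^ A2 * (x ^ 2 * x ^ (-μ)) := by
    have h4 : 6 * (x ^ 2 * x ^ (-μ)) ≤ 6 * (T ^ A2 * (x ^ 2 * x ^ (-μ))) := by
      have h5 : 1 * (x ^ 2 * x ^ (-μ)) ≤ T ^ A2 * (x ^ 2 * x ^ (-μ)) :=
        mul_le_mul_of_nonneg_right hTA hZ.le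
      linarith
    calc _ ≤ x ^ 2 * x ^ (-μ) + x ^ 2 * x ^ (-μ) + 4 * (x ^ 2 * x ^ (-μ)) +
          7 * C2 * T ^ A2 * (x ^ 2 * x ^ (-μ)) := add_le_add (add_le_add (add_le_add t1 t2) t3) t4
      _ = 6 * (x ^ 2 * x ^ (-μ)) + 7 * C2 * T ^ A2 * (x ^ 2 * x ^ (-μ)) := by ring
      _ ≤ 6 * (T ^ A2 * (x ^ 2 * x ^ (-μ))) + 7 * C2 * T ^ A2 * (x ^ 2 * x ^ (-μ)) := by linarith
      _ = _ := by ring
  have hTpow : T ^ (A3 + A2) ≤ C1 ^ (A3 + A2) * x ^ (μ / 2) := by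
    rw [hTdef, mul_pow]
    refine mul_le_mul_of_nonneg_left ?_ (by positivity)
    rw [← Real.rpow_natCast (x ^ e), ← Real.rpow_mul hx0.le]
    refine Bbt_L hx1 _ _ ?_
    have h4 : e * (2 * ((A3 : ℝ) + A2 + 1)) = μ := by
      rw [he]
      exact div_mul_cancel₀ _ hA.ne'
    push_cast
    linarith
  have hfin : Sm ^ 2 ≤ (Real.sqrt K * x ^ (1 - μ / 4)) ^ 2 := by
    have h4 : (Real.sqrt K * x ^ (1 - μ / 4)) ^ 2 = K * (x ^ 2 * (x ^ (μ / 2) * x ^ (-μ))) := by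
      rw [mul_pow, Real.sq_sqrt hK0.le, sq (x ^ (1 - μ / 4)),
        Bbt_E hx0 _ _ (2 - μ / 2) (by ring), Bbt_E hx0 _ _ (-(μ / 2)) (by ring),
        ← Real.rpow_natCast x 2, Bbt_E hx0 _ _ (2 - μ / 2) (by norm_num; ring)]
    rw [h4]
    calc Sm ^ 2 ≤ C3 * T ^ A3 * ((R : ℝ) * (M : ℝ) ^ 2 * N + (M : ℝ) ^ 2 * (N : ℝ) ^ 2 / x ^ κ0 +
          (R : ℝ) ^ 2 * (S : ℝ) ^ 4 * (N : ℝ) ^ 2 / H + (M : ℝ) * N * B) := main
      _ ≤ C3 * T ^ A3 * ((6 + 7 * C2) * T ^ A2 * (x ^ 2 * x ^ (-μ))) :=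
          mul_le_mul_of_nonneg_left hsum (by positivity)
      _ = C3 * (6 + 7 * C2) * (x ^ 2 * x ^ (-μ)) * T ^ (A3 + A2) := by
          rw [pow_add]
          ring
      _ ≤ C3 * (6 + 7 * C2) * (x ^ 2 * x ^ (-μ)) * (C1 ^ (A3 + A2) * x ^ (μ / 2)) :=
          mul_le_mul_of_nonneg_left hTpow (by positivity)
      _ = K * (x ^ 2 * (x ^ (μ / 2) * x ^ (-μ))) := by
          rw [hK]
          ring
  exact (abs_le_of_sq_le_sq' hfin (by positivity)).2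

end Pool.Agent.Lib.MJ
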