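import Pool.Agent.Lib.MJ.SpecG

/-! MP_00e23e_nt, Lib/MI, module Bfi: the bilinear theorem, assembly. -/

namespace Pool.Agent.Lib.MJ

open Finset Pool.Agent.Lib.EH3 Pool.Agent.Lib.TB Pool.Agent.Results.MP_00e23e_nt Pool.Agent.Lib.MI

/-- the bracket of the large sieve -/
private lemma Bfi_br {x ε κ0 μ : ℝ} {M N D : ℕ} (hx : 1 ≤ x) (hε : ε ≤ 1 / 100)
    (hκ0 : 0 < κ0) (hμ1 : μ ≤ κ0) (hμ2 : μ ≤ ε / 2) (hNM : N ≤ M) (hN : x ^ ((1 : ℝ) / 3 - ε) ≤ N)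
    (hMN : (M : ℝ) * N ≤ x) (hD : (D : ℝ) ≤ x ^ (1 / 2 - μ)) :
    Real.sqrt ((M : ℝ) * N) * (Real.sqrt ((M : ℝ) * N) / (⌊x ^ κ0⌋₊ : ℕ) + Real.sqrt M + Real.sqrt N + D) ≤
      5 * x ^ (1 - μ) := by
  have hx0 : 0 < x := by linarith
  have hNpos : (0 : ℝ) < N := lt_of_lt_of_le (Real.rpow_pos_of_pos hx0 _) hN
  have hM0 : (0 : ℝ) ≤ M := Nat.cast_nonneg M
  have hNM' : (N : ℝ) ≤ M := by exact_mod_cast hNM
  have h1 : Real.sqrt ((M : ℝ) * N) ≤ x ^ ((1 : ℝ) / 2) := by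
    rw [← Real.sqrt_eq_rpow]
    exact Real.sqrt_le_sqrt hMN
  have hxk : 1 ≤ x ^ κ0 := Real.one_le_rpow hx hκ0.le
  have hZ1 : 1 ≤ ⌊x ^ κ0⌋₊ := Nat.one_le_floor_iff _ |>.2 hxk
  have hZ1' : (1 : ℝ) ≤ (⌊x ^ κ0⌋₊ : ℕ) := by exact_mod_cast hZ1
  have hZ : x ^ κ0 ≤ 2 * (⌊x ^ κ0⌋₊ : ℕ) := by
    have := Nat.lt_floor_add_one (x ^ κ0)
    linarith
  have h2 : Real.sqrt ((M : ℝ) * N) / (⌊x ^ κ0⌋₊ : ℕ) ≤ 2 * x ^ (1 / 2 - μ) := by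
    rw [div_le_iff₀ (by linarith)]
    calc Real.sqrt ((M : ℝ) * N) ≤ x ^ ((1 : ℝ) / 2) := h1
      _ ≤ x ^ (1 / 2 - μ + κ0) := Real.rpow_le_rpow_of_exponent_le hx (by linarith)
      _ = x ^ (1 / 2 - μ) * x ^ κ0 := Real.rpow_add hx0 _ _
      _ ≤ x ^ (1 / 2 - μ) * (2 * (⌊x ^ κ0⌋₊ : ℕ)) :=
          mul_le_mul_of_nonneg_left hZ (Real.rpow_nonneg hx0.le _)
      _ = 2 * x ^ (1 / 2 - μ) * (⌊x ^ κ0⌋₊ : ℕ) := by ring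
  have h3 : Real.sqrt M ≤ x ^ (1 / 2 - μ) := by
    have hM : (M : ℝ) ≤ x ^ ((2 : ℝ) / 3 + ε) := by
      have e1 : x ^ ((2 : ℝ) / 3 + ε) * x ^ ((1 : ℝ) / 3 - ε) = x := by
        rw [← Real.rpow_add hx0]
        have : (2 : ℝ) / 3 + ε + (1 / 3 - ε) = 1 := by ring
        rw [this, Real.rpow_one]
      have e2 : (M : ℝ) * x ^ ((1 : ℝ) / 3 - ε) ≤ x ^ ((2 : ℝ) / 3 + ε) * x ^ ((1 : ℝ) / 3 - ε) := by
        rw [e1]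
        exact (mul_le_mul_of_nonneg_left hN hM0).trans hMN
      exact le_of_mul_le_mul_right e2 (Real.rpow_pos_of_pos hx0 _)
    have hM2 : (M : ℝ) ≤ (x ^ (1 / 2 - μ)) ^ 2 := by
      refine hM.trans ?_
      rw [← Real.rpow_natCast, ← Real.rpow_mul hx0.le]
      refine Real.rpow_le_rpow_of_exponent_le hx ?_
      push_cast
      linarith
    exact Real.sqrt_le_iff.2 ⟨Real.rpow_nonneg hx0.le _, hM2⟩
  have h4 : Real.sqrt N ≤ x ^ (1 / 2 - μ) := (Real.sqrt_le_sqrt hNM').trans h3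
  have hp : 0 ≤ x ^ (1 / 2 - μ) := Real.rpow_nonneg hx0.le _
  calc Real.sqrt ((M : ℝ) * N) * (Real.sqrt ((M : ℝ) * N) / (⌊x ^ κ0⌋₊ : ℕ) + Real.sqrt M + Real.sqrt N + D)
      ≤ x ^ ((1 : ℝ) / 2) * (2 * x ^ (1 / 2 - μ) + x ^ (1 / 2 - μ) + x ^ (1 / 2 - μ) + x ^ (1 / 2 - μ)) := by
        refine mul_le_mul h1 ?_ ?_ (Real.rpow_nonneg hx0.le _)
        · linarith
        · positivity
    _ = 5 * (x ^ ((1 : ℝ) / 2) * x ^ (1 / 2 - μ)) := by ring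
    _ = 5 * x ^ (1 - μ) := by
        rw [← Real.rpow_add hx0]
        congr 2
        ring

/-- small moduli -/
private lemma Bfi_small {C T : ℝ} {A : ℕ} (hL : ∀ (X T : ℝ) (Z D M N : ℕ) (a : ℕ × ℕ → ℤ) (W : Finset (ℕ × ℕ))
    (α β : ℕ → ℂ), Tau X T → 1 ≤ Z → 1 ≤ M → 1 ≤ N → (D : ℝ) ≤ X → (M : ℝ) ≤ X → (N : ℝ) ≤ X →
    (∀ w ∈ W, 1 ≤ w.1 ∧ 1 ≤ w.2 ∧ Squarefree (w.1 * w.2) ∧ w.1 * w.2 ≤ D ∧ Int.gcd (a w) ((w.1 * w.2 : ℕ) : ℤ) = 1 ∧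
      ∀ p : ℕ, p.Prime → p ∣ w.2 → Z < p) → (∀ m, ‖α m‖ ≤ 1) → (∀ n, ‖β n‖ ≤ 1) →
    ∑ w ∈ W, ‖∑ m ∈ Ioc M (2 * M), ∑ n ∈ Ioc N (2 * N), α m * β n * Ek (a w) w.1 (w.1 * w.2) (m * n)‖ ≤
      C * T ^ A * (Real.sqrt ((M : ℝ) * N) * (Real.sqrt ((M : ℝ) * N) / Z + Real.sqrt M + Real.sqrt N + D)))
    {X z : ℝ} (hT : Tau X T) {Z D M N : ℕ} {a : ℤ} {F : Finset ℕ} {t : ℕ → ℕ} {f g : ℕ → ℂ}
    (hZ : 1 ≤ Z) (hZz : (Z : ℝ) ≤ z) (hM : 1 ≤ M) (hN : 1 ≤ N) (hD : (D : ℝ) ≤ X) (hMX : (M : ℝ) ≤ X)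
    (hNX : (N : ℝ) ≤ X) (hf : ∀ m, ‖f m‖ ≤ 1) (hg : ∀ n, ‖g n‖ ≤ 1)
    (hF : ∀ q ∈ F, Squarefree q ∧ t q ∣ q ∧ q ≤ D ∧ Int.gcd a q = 1 ∧ ∀ p : ℕ, p.Prime → p ∣ q / t q → z < p) :
    ∑ q ∈ F, ‖∑ m ∈ Ioc M (2 * M), ∑ n ∈ Ioc N (2 * N), f m * g n * Ek a (t q) q (m * n)‖ ≤
      C * T ^ A * (Real.sqrt ((M : ℝ) * N) * (Real.sqrt ((M : ℝ) * N) / Z + Real.sqrt M + Real.sqrt N + D)) := by
  have hmul : ∀ q ∈ F, t q * (q / t q) = q := fun q hq => Nat.mul_div_cancel' (hF q hq).2.1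
  have key : ∑ w ∈ F.image (fun q => (t q, q / t q)),
      ‖∑ m ∈ Ioc M (2 * M), ∑ n ∈ Ioc N (2 * N), f m * g n * Ek a w.1 (w.1 * w.2) (m * n)‖ =
      ∑ q ∈ F, ‖∑ m ∈ Ioc M (2 * M), ∑ n ∈ Ioc N (2 * N), f m * g n * Ek a (t q) q (m * n)‖ := by
    rw [sum_image]
    · refine sum_congr rfl fun q hq => ?_
      simp only
      rw [hmul q hq]
    · intro q hq q' hq' h
      have h' := Prod.mk.inj h
      have h3 : t q * (q / t q) = t q' * (q' / t q') := by rw [h'.2, h'.1]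
      rwa [hmul q hq, hmul q' hq'] at h3
  rw [← key]
  refine hL X T Z D M N (fun _ => a) _ f g hT hZ hM hN hD hMX hNX ?_ hf hg
  intro w hw
  rw [mem_image] at hw
  obtain ⟨q, hq, rfl⟩ := hw
  obtain ⟨h1, h2, h3, h4, h5⟩ := hF q hq
  have hq0 : 0 < q := Nat.pos_of_ne_zero h1.ne_zero
  simp only
  rw [hmul q hq]
  refine ⟨Nat.pos_of_dvd_of_pos h2 hq0, Nat.div_pos (Nat.le_of_dvd hq0 h2) (Nat.pos_of_dvd_of_pos h2 hq0), h1, h3,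
    h4, fun p hp hpd => ?_⟩
  have := h5 p hp hpd
  exact_mod_cast (lt_of_le_of_lt hZz this)

/-- the decomposition of one modulus -/
private lemma Bfi_one (h2 : BidStmt) {a : ℤ} {t u s M N : ℕ} {f g : ℕ → ℂ} (ht : 1 ≤ t) (hu : 1 ≤ u) (hs : 1 ≤ s)
    (hsq : Squarefree (t * u * s)) (hf : ∀ m, ‖f m‖ ≤ 1) (hg : ∀ n, ‖g n‖ ≤ 1) :
    ‖∑ m ∈ Ioc M (2 * M), ∑ n ∈ Ioc N (2 * N), f m * g n * Ek a t (t * u * s) (m * n)‖ ≤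
      ‖∑ m ∈ Ioc M (2 * M), ∑ n ∈ Ioc N (2 * N), f m * g n * Dl a (t * u) s (m * n)‖ +
      (1 / (s : ℝ)) * ‖∑ m ∈ Ioc M (2 * M), ∑ n ∈ Ioc N (2 * N), f m * g n * Ek a t (t * u) (m * n)‖ +
      ∑ m ∈ Ioc M (2 * M), ∑ n ∈ Ioc N (2 * N),
        (if (t : ℤ) ∣ ((m * n : ℕ) : ℤ) - a then 1 else 0) * (1 / (u.totient : ℝ)) *
          ((1 / (s.totient : ℝ) - 1 / (s : ℝ)) + (if (m * n).Coprime s then 0 else 1 / (s : ℝ))) := by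
  have e1 : ∑ m ∈ Ioc M (2 * M), ∑ n ∈ Ioc N (2 * N), f m * g n * Ek a t (t * u * s) (m * n) =
      ∑ m ∈ Ioc M (2 * M), ∑ n ∈ Ioc N (2 * N), f m * g n * Dl a (t * u) s (m * n) +
      (1 / (s : ℂ)) * ∑ m ∈ Ioc M (2 * M), ∑ n ∈ Ioc N (2 * N), f m * g n * Ek a t (t * u) (m * n) +
      ∑ m ∈ Ioc M (2 * M), ∑ n ∈ Ioc N (2 * N), f m * g n *
        (Ek a t (t * u * s) (m * n) - Dl a (t * u) s (m * n) - (1 / (s : ℂ)) * Ek a t (t * u) (m * n)) := by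
    rw [mul_sum, ← sum_add_distrib, ← sum_add_distrib]
    refine sum_congr rfl fun m _ => ?_
    rw [mul_sum, ← sum_add_distrib, ← sum_add_distrib]
    refine sum_congr rfl fun n _ => ?_
    ring
  rw [e1]
  refine (norm_add_le _ _).trans (add_le_add ((norm_add_le _ _).trans (add_le_add le_rfl ?_)) ?_)
  · rw [norm_mul, norm_div, norm_one, Complex.norm_natCast]
  · refine (norm_sum_le _ _).trans (sum_le_sum fun m _ => (norm_sum_le _ _).trans (sum_le_sum fun n _ => ?_))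
    rw [norm_mul, norm_mul]
    have hb := h2 a t u s (m * n) ht hu hs hsq
    have hfg : ‖f m‖ * ‖g n‖ ≤ 1 := mul_le_one₀ (hf m) (norm_nonneg _) (hg n)
    calc ‖f m‖ * ‖g n‖ * ‖Ek a t (t * u * s) (m * n) - Dl a (t * u) s (m * n) - (1 / (s : ℂ)) * Ek a t (t * u) (m * n)‖
        ≤ 1 * ‖Ek a t (t * u * s) (m * n) - Dl a (t * u) s (m * n) - (1 / (s : ℂ)) * Ek a t (t * u) (m * n)‖ :=
          mul_le_mul_of_nonneg_right hfg (norm_nonneg _)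
      _ ≤ _ := by
          rw [one_mul]
          exact hb

/-- large moduli -/
private lemma Bfi_large (h2 : BidStmt) (h3 : BrmStmt) {Cb T : ℝ} {Ab : ℕ}
    (hB : ∀ (X T : ℝ) (a : ℤ) (Z D M N : ℕ) (G : Finset (ℕ × ℕ × ℕ))
    (f g : ℕ → ℂ), Tau X T → 1 ≤ X → 1 ≤ Z → 1 ≤ M → 1 ≤ N → (D : ℝ) ≤ X → (M : ℝ) ≤ X → (N : ℝ) ≤ X →
    (∀ w ∈ G, 1 ≤ w.1 ∧ 1 ≤ w.2.1 ∧ 1 ≤ w.2.2 ∧ (w.2.2 : ℝ) ≤ X ∧ Squarefree (w.1 * w.2.1) ∧ w.1 * w.2.1 ≤ D ∧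
      Int.gcd a ((w.1 * w.2.1 : ℕ) : ℤ) = 1 ∧ ∀ p : ℕ, p.Prime → p ∣ w.2.1 → Z < p) →
    (∀ m, ‖f m‖ ≤ 1) → (∀ n, ‖g n‖ ≤ 1) →
    ∑ w ∈ G, (1 / (w.2.2 : ℝ)) *
        ‖∑ m ∈ Ioc M (2 * M), ∑ n ∈ Ioc N (2 * N), f m * g n * Ek a w.1 (w.1 * w.2.1) (m * n)‖ ≤
      Cb * T ^ Ab * (Real.sqrt ((M : ℝ) * N) * (Real.sqrt ((M : ℝ) * N) / Z + Real.sqrt M + Real.sqrt N + D)))
    {X z : ℝ} (hT : Tau X T) {Z D D' M N : ℕ} {a : ℤ} {F : Finset ℕ} {t u s : ℕ → ℕ} {f g : ℕ → ℂ}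
    (hZ : 1 ≤ Z) (hZz : (Z : ℝ) ≤ z) (hM : 1 ≤ M) (hN : 1 ≤ N) (hD : (D : ℝ) ≤ X)
    (hD' : (D' : ℝ) ≤ X) (h5 : 5 * ((M : ℝ) * N) ≤ X) (hDMN : D' ≤ M * N)
    (hf : ∀ m, ‖f m‖ ≤ 1) (hg : ∀ n, ‖g n‖ ≤ 1)
    (hF : ∀ q ∈ F, Squarefree q ∧ t q ∣ q ∧ q ≤ D' ∧ Int.gcd a q = 1 ∧ (∀ p : ℕ, p.Prime → p ∣ q / t q → z < p) ∧
      q = t q * u q * s q ∧ t q * u q ≤ D) :
    ∑ q ∈ F, ‖∑ m ∈ Ioc M (2 * M), ∑ n ∈ Ioc N (2 * N), f m * g n * Ek a (t q) q (m * n)‖ ≤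
      ∑ q ∈ F, ‖∑ m ∈ Ioc M (2 * M), ∑ n ∈ Ioc N (2 * N), f m * g n * Dl a (t q * u q) (s q) (m * n)‖ +
      Cb * T ^ Ab * (Real.sqrt ((M : ℝ) * N) * (Real.sqrt ((M : ℝ) * N) / Z + Real.sqrt M + Real.sqrt N + D)) +
      15 * T ^ 8 * ((M : ℝ) * N / z) := by
  have hz1 : 1 ≤ z := le_trans (by exact_mod_cast hZ) hZz
  have hMR : (1 : ℝ) ≤ M := by exact_mod_cast hM
  have hNR : (1 : ℝ) ≤ N := by exact_mod_cast hN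
  have hMNR : (1 : ℝ) ≤ M * N := by nlinarith
  have h4X : 4 * (M : ℝ) * N ≤ X := by linarith
  have hX1 : 1 ≤ X := by linarith
  have hMX : (M : ℝ) ≤ X := by nlinarith
  have hNX : (N : ℝ) ≤ X := by nlinarith
  -- facts about one modulus
  have hfac : ∀ q ∈ F, 1 ≤ t q ∧ 1 ≤ u q ∧ 1 ≤ s q ∧ Squarefree (t q * u q * s q) ∧ t q ≤ D' ∧ u q ≤ D' ∧ s q ≤ D' ∧
      q / t q = u q * s q := by
    intro q hq
    obtain ⟨e1, e2, e3, e4, e5, e6, e7⟩ := hF q hq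
    have hq0 : 0 < q := Nat.pos_of_ne_zero e1.ne_zero
    have e8 : 0 < t q * u q * s q := by rw [← e6]; exact hq0
    have ht0 : 0 < t q := Nat.pos_of_ne_zero fun h => by rw [h] at e8; simp at e8
    have hu0 : 0 < u q := Nat.pos_of_ne_zero fun h => by rw [h] at e8; simp at e8
    have hs0 : 0 < s q := Nat.pos_of_ne_zero fun h => by rw [h] at e8; simp at e8
    refine ⟨ht0, hu0, hs0, by rw [← e6]; exact e1, ?_, ?_, ?_, ?_⟩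
    · exact (Nat.le_of_dvd hq0 e2).trans e3
    · exact (Nat.le_of_dvd hq0 ⟨t q * s q, e6.trans (by ring)⟩).trans e3
    · exact (Nat.le_of_dvd hq0 ⟨t q * u q, e6.trans (by ring)⟩).trans e3
    · refine Nat.div_eq_of_eq_mul_right ht0 ?_
      exact e6.trans (mul_assoc _ _ _)
  have hinj : Set.InjOn (fun q => (t q, (u q, s q))) (F : Set ℕ) := by
    intro q hq q' hq' h
    obtain ⟨e1, e2⟩ := Prod.mk.inj h
    obtain ⟨e3, e4⟩ := Prod.mk.inj e2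
    have h3 : t q * u q * s q = t q' * u q' * s q' := by rw [e1, e3, e4]
    rwa [← (hF q hq).2.2.2.2.2.1, ← (hF q' hq').2.2.2.2.2.1] at h3
  -- the large sieve
  have k1 := hB X T a Z D M N (F.image (fun q => (t q, (u q, s q)))) f g hT hX1 hZ hM hN hD hMX hNX (by
    intro w hw
    rw [mem_image] at hw
    obtain ⟨q, hq, rfl⟩ := hw
    obtain ⟨e1, e2, e3, e4, e5, e6, e7⟩ := hF q hq
    obtain ⟨f1, f2, f3, f4, f5, f6, f7, f8⟩ := hfac q hq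
    simp only
    refine ⟨f1, f2, f3, le_trans (by exact_mod_cast f7) hD', Squarefree.squarefree_of_dvd ⟨s q, rfl⟩ f4, e7, ?_,
      fun p hp hpd => ?_⟩
    · have hd : ((t q * u q : ℕ) : ℤ) ∣ (q : ℤ) := Int.natCast_dvd_natCast.2 ⟨s q, e6⟩
      exact Int.isCoprime_iff_gcd_eq_one.1 ((Int.isCoprime_iff_gcd_eq_one.2 e4).of_isCoprime_of_dvd_right hd)
    · have := e5 p hp (by rw [f8]; exact hpd.mul_right _)
      exact_mod_cast (lt_of_le_of_lt hZz this)) hf hg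
  rw [sum_image hinj] at k1
  -- the remainders
  have k2 := h3 X T z a D' M N (F.image (fun q => (t q, (u q, s q)))) hT hz1 hM hN hD' h4X hDMN (by
    intro w hw
    rw [mem_image] at hw
    obtain ⟨q, hq, rfl⟩ := hw
    obtain ⟨e1, e2, e3, e4, e5, e6, e7⟩ := hF q hq
    obtain ⟨f1, f2, f3, f4, f5, f6, f7, f8⟩ := hfac q hq
    simp only
    refine ⟨f1, f2, f3, f5, f6, f7, fun p hp hpd => ?_⟩
    exact e5 p hp (by rw [f8]; exact hpd.mul_left _))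
  rw [sum_image hinj] at k2
  simp only at k1 k2
  have k3 : ∑ q ∈ F, ‖∑ m ∈ Ioc M (2 * M), ∑ n ∈ Ioc N (2 * N), f m * g n * Ek a (t q) q (m * n)‖ ≤
      ∑ q ∈ F, (‖∑ m ∈ Ioc M (2 * M), ∑ n ∈ Ioc N (2 * N), f m * g n * Dl a (t q * u q) (s q) (m * n)‖ +
      (1 / (s q : ℝ)) *
        ‖∑ m ∈ Ioc M (2 * M), ∑ n ∈ Ioc N (2 * N), f m * g n * Ek a (t q) (t q * u q) (m * n)‖ +
      ∑ m ∈ Ioc M (2 * M), ∑ n ∈ Ioc N (2 * N),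
        (if (t q : ℤ) ∣ ((m * n : ℕ) : ℤ) - a then 1 else 0) * (1 / ((u q).totient : ℝ)) *
          ((1 / ((s q).totient : ℝ) - 1 / (s q : ℝ)) +
            (if (m * n).Coprime (s q) then 0 else 1 / (s q : ℝ)))) := by
    refine sum_le_sum fun q hq => ?_
    obtain ⟨e1, e2, e3, e4, e5, e6, e7⟩ := hF q hq
    obtain ⟨f1, f2, f3, f4, f5, f6, f7, f8⟩ := hfac q hq
    have h := Bfi_one h2 (a := a) (M := M) (N := N) f1 f2 f3 f4 hf hg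
    rw [← e6] at h
    exact h
  rw [sum_add_distrib, sum_add_distrib] at k3
  refine k3.trans (add_le_add (add_le_add le_rfl k1) k2)

/-- the case N ≤ M -/
private lemma Bfi_core (h1 : BdsStmt) (h2 : BidStmt) (h3 : BrmStmt) (h4 : BlgStmt) (h5 : LrgStmt) (h6 : BtaStmt)
    {δ τ κ ε κ0 : ℝ} (hP : Par δ τ κ ε) (hκ0 : 0 < κ0) (hκ : κ0 < κ) : ∃ η C x0 : ℝ, 0 < η ∧ ∀ (x : ℝ) (a : ℤ)
    (M N : ℕ) (f g : ℕ → ℂ) (F : Finset ℕ) (t : ℕ → ℕ), x0 ≤ x → N ≤ M → x ^ ((1 : ℝ) / 3 - ε) ≤ N → x ^ (1 - ε) ≤ (M : ℝ) * N →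
    (M : ℝ) * N ≤ x → (∀ m, ‖f m‖ ≤ 1) → (∀ n, ‖g n‖ ≤ 1) →
    (∀ q ∈ F, Md (1 / 2 + δ) τ κ κ0 x (t q) q ∧ Int.gcd a q = 1) →
    ∑ q ∈ F, ‖∑ m ∈ Ioc M (2 * M), ∑ n ∈ Ioc N (2 * N), f m * g n * Ek a (t q) q (m * n)‖ ≤ C * x ^ (1 - η) := by
  obtain ⟨ηd, Cd, xd, hηd, hds⟩ := h1 δ τ κ ε κ0 hP hκ0 hκ
  obtain ⟨Cb, hCb, Ab, hB⟩ := h4
  obtain ⟨Cl, hCl, Al, hL⟩ := h5
  obtain ⟨hδ, hτ, hκp, hε, hε1, hp1, hp2⟩ := hP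
  obtain ⟨μ, hμ⟩ : ∃ μ : ℝ, μ = min κ0 (ε / 2) := ⟨_, rfl⟩
  have hμ0 : 0 < μ := by rw [hμ]; exact lt_min hκ0 (by linarith)
  have hμ1 : μ ≤ κ0 := by rw [hμ]; exact min_le_left _ _
  have hμ2 : μ ≤ ε / 2 := by rw [hμ]; exact min_le_right _ _
  obtain ⟨A, hA⟩ : ∃ A : ℕ, A = Al + Ab + 8 := ⟨_, rfl⟩
  have hA0 : (0 : ℝ) < A := by
    have : 0 < A := by omega
    exact_mod_cast this
  obtain ⟨e, he⟩ : ∃ e : ℝ, e = μ / (2 * A) := ⟨_, rfl⟩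
  have he0 : 0 < e := by rw [he]; positivity
  have heA : e * A = μ / 2 := by
    rw [he]
    field_simp
  obtain ⟨Ce, hCe, hTa⟩ := h6 e 10 he0 (by norm_num)
  obtain ⟨η, hη⟩ : ∃ η : ℝ, η = min (μ / 2) ηd := ⟨_, rfl⟩
  have hη0 : 0 < η := by rw [hη]; exact lt_min (by linarith) hηd
  have hη1 : η ≤ μ / 2 := by rw [hη]; exact min_le_left _ _
  have hη2 : η ≤ ηd := by rw [hη]; exact min_le_right _ _
  refine ⟨η, (5 * Cl + 5 * Cb + 15) * Ce ^ A + |Cd|, max xd (4 ^ 15), hη0, ?_⟩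
  intro x a M N f g F t hx hNM hN hMN1 hMN2 hf hg hF
  have hxd : xd ≤ x := (le_max_left _ _).trans hx
  have hx4 : (4 : ℝ) ^ 15 ≤ x := (le_max_right _ _).trans hx
  have hx2 : 2 ≤ x := by
    refine le_trans ?_ hx4
    norm_num
  have hx1 : 1 ≤ x := by linarith
  have hx1' : 1 < x := by linarith
  have hx0 : 0 < x := by linarith
  obtain ⟨T, hTd⟩ : ∃ T : ℝ, T = Ce * x ^ e := ⟨_, rfl⟩
  have hT : Tau (x ^ (10 : ℝ)) T := by rw [hTd]; exact hTa x hx1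
  have hT1 : 1 ≤ T := hT.1
  have hTA : T ^ A ≤ Ce ^ A * x ^ (μ / 2) := by
    rw [hTd, mul_pow, ← Real.rpow_natCast (x ^ e), ← Real.rpow_mul hx0.le, heA]
  have hNpos : (0 : ℝ) < N := lt_of_lt_of_le (Real.rpow_pos_of_pos hx0 _) hN
  have hN1 : 1 ≤ N := by exact_mod_cast hNpos
  have hM1 : 1 ≤ M := hN1.trans hNM
  have hMR : (1 : ℝ) ≤ M := by exact_mod_cast hM1
  have hNR : (1 : ℝ) ≤ N := by exact_mod_cast hN1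
  have hNMR : (N : ℝ) ≤ M := by exact_mod_cast hNM
  have hx10 : x ≤ x ^ (10 : ℝ) := by
    calc x = x ^ (1 : ℝ) := (Real.rpow_one x).symm
      _ ≤ x ^ (10 : ℝ) := Real.rpow_le_rpow_of_exponent_le hx1 (by norm_num)
  have hMX : (M : ℝ) ≤ x ^ (10 : ℝ) := by nlinarith
  have hNX : (N : ℝ) ≤ x ^ (10 : ℝ) := hNMR.trans hMX
  have hN2 : (N : ℝ) ≤ x ^ ((1 : ℝ) / 2) := by
    rw [← Real.sqrt_eq_rpow]
    refine Real.le_sqrt_of_sq_le ?_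
    nlinarith
  have hxk1 : 1 ≤ x ^ κ0 := Real.one_le_rpow hx1 hκ0.le
  have hZ1 : 1 ≤ ⌊x ^ κ0⌋₊ := Nat.one_le_floor_iff _ |>.2 hxk1
  have hZz : ((⌊x ^ κ0⌋₊ : ℕ) : ℝ) ≤ x ^ κ0 := Nat.floor_le (by linarith)
  -- sizes of D
  have hD1 : ((⌊x ^ (1 / 2 - ε / 2)⌋₊ : ℕ) : ℝ) ≤ x ^ (1 / 2 - μ) := by
    refine (Nat.floor_le (Real.rpow_nonneg hx0.le _)).trans ?_
    exact Real.rpow_le_rpow_of_exponent_le hx1 (by linarith)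
  have hμX : x ^ (1 / 2 - μ) ≤ x ^ (10 : ℝ) := Real.rpow_le_rpow_of_exponent_le hx1 (by linarith)
  have hD2 : ((⌊(N : ℝ) * x ^ (-ε)⌋₊ : ℕ) : ℝ) ≤ x ^ (1 / 2 - μ) := by
    refine (Nat.floor_le (mul_nonneg hNpos.le (Real.rpow_nonneg hx0.le _))).trans ?_
    calc (N : ℝ) * x ^ (-ε) ≤ x ^ ((1 : ℝ) / 2) * x ^ (-ε) :=
          mul_le_mul_of_nonneg_right hN2 (Real.rpow_nonneg hx0.le _)
      _ = x ^ ((1 : ℝ) / 2 + -ε) := (Real.rpow_add hx0 _ _).symm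
      _ ≤ x ^ (1 / 2 - μ) := Real.rpow_le_rpow_of_exponent_le hx1 (by linarith)
  have hD3 : ((⌊x ^ (1 / 2 + δ)⌋₊ : ℕ) : ℝ) ≤ x ^ (10 : ℝ) := by
    refine (Nat.floor_le (Real.rpow_nonneg hx0.le _)).trans ?_
    exact Real.rpow_le_rpow_of_exponent_le hx1 (by linarith)
  have h5X : 5 * ((M : ℝ) * N) ≤ x ^ (10 : ℝ) := by
    have e2 : x ^ (10 : ℝ) = x * x ^ (9 : ℕ) := by
      have h10 : (10 : ℝ) = ((10 : ℕ) : ℝ) := by norm_num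
      rw [h10, Real.rpow_natCast]
      ring
    have e3 : (5 : ℝ) ≤ x ^ (9 : ℕ) := by
      calc (5 : ℝ) ≤ 2 ^ 9 := by norm_num
        _ ≤ x ^ 9 := pow_le_pow_left₀ (by norm_num) hx2 9
    rw [e2]
    calc 5 * ((M : ℝ) * N) ≤ 5 * x := by linarith
      _ ≤ x ^ (9 : ℕ) * x := mul_le_mul_of_nonneg_right e3 hx0.le
      _ = x * x ^ (9 : ℕ) := mul_comm _ _
  have hDMN : ⌊x ^ (1 / 2 + δ)⌋₊ ≤ M * N := by
    have e1 : ((⌊x ^ (1 / 2 + δ)⌋₊ : ℕ) : ℝ) ≤ (M : ℝ) * N := by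
      refine (Nat.floor_le (Real.rpow_nonneg hx0.le _)).trans (le_trans ?_ hMN1)
      exact Real.rpow_le_rpow_of_exponent_le hx1 (by linarith)
    exact_mod_cast e1
  -- the two parts of F
  obtain ⟨F1, hF1⟩ : ∃ F1 : Finset ℕ, F1 = F.filter (fun q : ℕ => (q : ℝ) ≤ x ^ (1 / 2 - ε / 2)) := ⟨_, rfl⟩
  obtain ⟨F2, hF2⟩ : ∃ F2 : Finset ℕ, F2 = F.filter (fun q : ℕ => ¬ (q : ℝ) ≤ x ^ (1 / 2 - ε / 2)) := ⟨_, rfl⟩
  have hsplit : ∑ q ∈ F, ‖∑ m ∈ Ioc M (2 * M), ∑ n ∈ Ioc N (2 * N), f m * g n * Ek a (t q) q (m * n)‖ =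
      ∑ q ∈ F1, ‖∑ m ∈ Ioc M (2 * M), ∑ n ∈ Ioc N (2 * N), f m * g n * Ek a (t q) q (m * n)‖ +
      ∑ q ∈ F2, ‖∑ m ∈ Ioc M (2 * M), ∑ n ∈ Ioc N (2 * N), f m * g n * Ek a (t q) q (m * n)‖ := by
    rw [hF1, hF2]
    exact (sum_filter_add_sum_filter_not F _ _).symm
  rw [hsplit]
  -- small moduli
  have p1 := Bfi_small hL hT (Z := ⌊x ^ κ0⌋₊) (D := ⌊x ^ (1 / 2 - ε / 2)⌋₊) (z := x ^ κ0) (a := a) (F := F1)
    (t := t) (f := f) (g := g) hZ1 hZz hM1 hN1 (hD1.trans hμX) hMX hNX hf hg (by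
      intro q hq
      rw [hF1, mem_filter] at hq
      obtain ⟨⟨e1, e2, e3, e4, e5⟩, e6⟩ := hF q hq.1
      exact ⟨e1, e2, Nat.le_floor hq.2, e6, fun p hp hpd => (e5 p hp hpd).1⟩)
  have b1 := Bfi_br (D := ⌊x ^ (1 / 2 - ε / 2)⌋₊) hx1 hε1.le hκ0 hμ1 hμ2 hNM hN hMN2 hD1
  -- large moduli
  obtain ⟨u, s, hus, hsum⟩ := hds x a M N f g F2 t hxd hNM hN hMN1 hMN2 hf hg (by
    intro q hq
    rw [hF2, mem_filter] at hq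
    exact ⟨(hF q hq.1).1, (hF q hq.1).2, not_le.1 hq.2⟩)
  have p2 := Bfi_large h2 h3 hB hT (Z := ⌊x ^ κ0⌋₊) (D := ⌊(N : ℝ) * x ^ (-ε)⌋₊) (D' := ⌊x ^ (1 / 2 + δ)⌋₊)
    (z := x ^ κ0) (a := a) (F := F2) (t := t) (u := u) (s := s) (f := f) (g := g) hZ1 hZz hM1 hN1
    (hD2.trans hμX) hD3 h5X hDMN hf hg (by
      intro q hq
      obtain ⟨i1, i2⟩ := hus q hq
      rw [hF2, mem_filter] at hq
      obtain ⟨⟨e1, e2, e3, e4, e5⟩, e6⟩ := hF q hq.1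
      exact ⟨e1, e2, Nat.le_floor e3, e6, fun p hp hpd => (e5 p hp hpd).1, i1, Nat.le_floor i2⟩)
  have b2 := Bfi_br (D := ⌊(N : ℝ) * x ^ (-ε)⌋₊) hx1 hε1.le hκ0 hμ1 hμ2 hNM hN hMN2 hD2
  have b3 : (M : ℝ) * N / x ^ κ0 ≤ x ^ (1 - μ) := by
    rw [div_le_iff₀ (by linarith), ← Real.rpow_add hx0]
    calc (M : ℝ) * N ≤ x := hMN2
      _ = x ^ (1 : ℝ) := (Real.rpow_one x).symm
      _ ≤ x ^ (1 - μ + κ0) := Real.rpow_le_rpow_of_exponent_le hx1 (by linarith)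
  -- powers of T
  have hxm : 0 ≤ x ^ (1 - μ) := Real.rpow_nonneg hx0.le _
  have hT0 : 0 ≤ T := by linarith
  have q1 : T ^ A * x ^ (1 - μ) ≤ Ce ^ A * x ^ (1 - η) := by
    calc T ^ A * x ^ (1 - μ) ≤ Ce ^ A * x ^ (μ / 2) * x ^ (1 - μ) := mul_le_mul_of_nonneg_right hTA hxm
      _ = Ce ^ A * x ^ (μ / 2 + (1 - μ)) := by rw [mul_assoc, ← Real.rpow_add hx0]
      _ ≤ Ce ^ A * x ^ (1 - η) := by
          refine mul_le_mul_of_nonneg_left ?_ (by positivity)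
          exact Real.rpow_le_rpow_of_exponent_le hx1 (by linarith)
  have q2 : T ^ Al ≤ T ^ A := pow_le_pow_right₀ hT1 (by omega)
  have q3 : T ^ Ab ≤ T ^ A := pow_le_pow_right₀ hT1 (by omega)
  have q4 : T ^ 8 ≤ T ^ A := pow_le_pow_right₀ hT1 (by omega)
  have r1 : Cl * T ^ Al * (Real.sqrt ((M : ℝ) * N) * (Real.sqrt ((M : ℝ) * N) / (⌊x ^ κ0⌋₊ : ℕ) + Real.sqrt M +
      Real.sqrt N + (⌊x ^ (1 / 2 - ε / 2)⌋₊ : ℕ))) ≤ 5 * Cl * (Ce ^ A * x ^ (1 - η)) := by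
    calc _ ≤ Cl * T ^ A * (5 * x ^ (1 - μ)) := by
          refine mul_le_mul ?_ b1 (by positivity) (by positivity)
          exact mul_le_mul_of_nonneg_left q2 hCl.le
      _ = 5 * Cl * (T ^ A * x ^ (1 - μ)) := by ring
      _ ≤ 5 * Cl * (Ce ^ A * x ^ (1 - η)) := mul_le_mul_of_nonneg_left q1 (by positivity)
  have r2 : Cb * T ^ Ab * (Real.sqrt ((M : ℝ) * N) * (Real.sqrt ((M : ℝ) * N) / (⌊x ^ κ0⌋₊ : ℕ) + Real.sqrt M +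
      Real.sqrt N + (⌊(N : ℝ) * x ^ (-ε)⌋₊ : ℕ))) ≤ 5 * Cb * (Ce ^ A * x ^ (1 - η)) := by
    calc _ ≤ Cb * T ^ A * (5 * x ^ (1 - μ)) := by
          refine mul_le_mul ?_ b2 (by positivity) (by positivity)
          exact mul_le_mul_of_nonneg_left q3 hCb.le
      _ = 5 * Cb * (T ^ A * x ^ (1 - μ)) := by ring
      _ ≤ 5 * Cb * (Ce ^ A * x ^ (1 - η)) := mul_le_mul_of_nonneg_left q1 (by positivity)
  have r3 : 15 * T ^ 8 * ((M : ℝ) * N / x ^ κ0) ≤ 15 * (Ce ^ A * x ^ (1 - η)) := by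
    calc 15 * T ^ 8 * ((M : ℝ) * N / x ^ κ0) ≤ 15 * T ^ A * x ^ (1 - μ) := by
          refine mul_le_mul ?_ b3 (by positivity) (by positivity)
          exact mul_le_mul_of_nonneg_left q4 (by norm_num)
      _ = 15 * (T ^ A * x ^ (1 - μ)) := by ring
      _ ≤ 15 * (Ce ^ A * x ^ (1 - η)) := mul_le_mul_of_nonneg_left q1 (by norm_num)
  have r4 : Cd * x ^ (1 - ηd) ≤ |Cd| * x ^ (1 - η) := by
    refine mul_le_mul (le_abs_self _) ?_ (Real.rpow_nonneg hx0.le _) (abs_nonneg _)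
    exact Real.rpow_le_rpow_of_exponent_le hx1 (by linarith)
  calc _ ≤ 5 * Cl * (Ce ^ A * x ^ (1 - η)) + (|Cd| * x ^ (1 - η) + 5 * Cb * (Ce ^ A * x ^ (1 - η)) +
        15 * (Ce ^ A * x ^ (1 - η))) :=
        add_le_add (p1.trans r1) (p2.trans (add_le_add (add_le_add (hsum.trans r4) r2) r3))
    _ = ((5 * Cl + 5 * Cb + 15) * Ce ^ A + |Cd|) * x ^ (1 - η) := by ring

/-- exchange of the two variables -/
private lemma Bfi_swap (a : ℤ) (t q M N : ℕ) (f g : ℕ → ℂ) :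
    ∑ m ∈ Ioc M (2 * M), ∑ n ∈ Ioc N (2 * N), f m * g n * Ek a t q (m * n) =
      ∑ n ∈ Ioc N (2 * N), ∑ m ∈ Ioc M (2 * M), g n * f m * Ek a t q (n * m) := by
  rw [sum_comm]
  refine sum_congr rfl fun n _ => sum_congr rfl fun m _ => ?_
  rw [mul_comm m n, mul_comm (f m) (g n)]

theorem tBfi (h1 : BdsStmt) (h2 : BidStmt) (h3 : BrmStmt) (h4 : BlgStmt) (h5 : LrgStmt) (h6 : BtaStmt) :
    BfiStmt := by
  intro δ τ κ hδ hτ hκ hp1 hp2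
  obtain ⟨ε, hε⟩ : ∃ ε : ℝ, ε = min (min (1 - 86 * δ - 60 * κ) (1 / 3 - 8 * δ - 6 * κ - τ)) 1 / 1000 := ⟨_, rfl⟩
  have e0 : 0 < min (min (1 - 86 * δ - 60 * κ) (1 / 3 - 8 * δ - 6 * κ - τ)) 1 :=
    lt_min (lt_min (by linarith) (by linarith)) one_pos
  have e1 : min (min (1 - 86 * δ - 60 * κ) (1 / 3 - 8 * δ - 6 * κ - τ)) 1 ≤ 1 - 86 * δ - 60 * κ :=
    (min_le_left _ _).trans (min_le_left _ _)
  have e2 : min (min (1 - 86 * δ - 60 * κ) (1 / 3 - 8 * δ - 6 * κ - τ)) 1 ≤ 1 / 3 - 8 * δ - 6 * κ - τ :=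
    (min_le_left _ _).trans (min_le_right _ _)
  have e3 : min (min (1 - 86 * δ - 60 * κ) (1 / 3 - 8 * δ - 6 * κ - τ)) 1 ≤ 1 := min_le_right _ _
  have hε0 : 0 < ε := by rw [hε]; linarith
  have hP : Par δ τ κ ε := by
    refine ⟨hδ, hτ, hκ, hε0, ?_, ?_, ?_⟩ <;> rw [hε] <;> linarith
  refine ⟨ε, hε0, hP.2.2.2.2.1, ?_⟩
  intro κ0 hκ0 hκ0κ
  obtain ⟨η, C, x0, hη, h⟩ := Bfi_core h1 h2 h3 h4 h5 h6 hP hκ0 hκ0κ
  refine ⟨η, C, x0, hη, ?_⟩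
  intro x a M N f g F t hx hN hM hMN1 hMN2 hf hg hF
  rcases le_total N M with hNM | hNM
  · exact h x a M N f g F t hx hNM hN hMN1 hMN2 hf hg hF
  · have := h x a N M g f F t hx hNM hM (by rw [mul_comm]; exact hMN1) (by rw [mul_comm]; exact hMN2)
      hg hf hF
    refine le_trans (le_of_eq ?_) this
    refine sum_congr rfl fun q _ => ?_
    rw [Bfi_swap]

end Pool.Agent.Lib.MJ
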