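import Pool.Agent.Lib.MJ.SpecE
import Pool.Agent.Lib.BV.Tot

/-! MP_00e23e_nt, Lib/MJ, module Brm: the sum of the remainders. -/

namespace Pool.Agent.Lib.MJ

open Finset Pool.Agent.Lib.EH3 Pool.Agent.Lib.TB Pool.Agent.Results.MP_00e23e_nt Pool.Agent.Lib.MI

/-- the harmonic sum -/
private lemma Brm_harm {X T : ℝ} (hT : Tau X T) (D : ℕ) (hD : (D : ℝ) ≤ X) :
    ∑ s ∈ Icc 1 D, 1 / (s : ℝ) ≤ T := by
  rcases Nat.eq_zero_or_pos D with h0 | h0
  · subst h0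
    have h1 : Icc 1 0 = (∅ : Finset ℕ) := by decide
    rw [h1, Finset.sum_empty]
    linarith [hT.1]
  · have h2 := harmonic_le_one_add_log D
    rw [harmonic_eq_sum_Icc] at h2
    push_cast at h2
    have hD0 : (0 : ℝ) < D := by exact_mod_cast h0
    have h3 : Real.log D ≤ Real.log X := Real.log_le_log hD0 hD
    have h4 : ∑ s ∈ Icc 1 D, 1 / (s : ℝ) = ∑ s ∈ Icc 1 D, (s : ℝ)⁻¹ :=
      Finset.sum_congr rfl fun s _ => one_div _
    rw [h4]
    linarith [hT.2.1]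

/-- the sum over the multiples of p -/
private lemma Brm_mul {X T z : ℝ} (hT : Tau X T) (hz : 1 ≤ z) (D : ℕ) (hD : (D : ℝ) ≤ X) (p : ℕ)
    (hp : z < p) : ∑ s ∈ (Icc 1 D).filter (fun s => p ∣ s), 1 / (s : ℝ) ≤ T / z := by
  have hp0 : 0 < p := by
    have : (0 : ℝ) < p := by linarith
    exact_mod_cast this
  have hpR : (0 : ℝ) < p := by exact_mod_cast hp0
  have h1 : ∑ s ∈ (Icc 1 D).filter (fun s => p ∣ s), 1 / (s : ℝ) =
      ∑ s ∈ Icc 1 (D / p), (1 / (p : ℝ)) * (1 / (s : ℝ)) := by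
    refine Finset.sum_nbij' (fun s => s / p) (fun s => p * s) ?_ ?_ ?_ ?_ ?_
    · intro s hs
      rw [mem_filter, mem_Icc] at hs
      obtain ⟨⟨h1, h2⟩, k, rfl⟩ := hs
      rw [Nat.mul_div_cancel_left k hp0, mem_Icc]
      refine ⟨?_, ?_⟩
      · rcases Nat.eq_zero_or_pos k with hk | hk
        · subst hk
          omega
        · exact hk
      · rw [Nat.le_div_iff_mul_le hp0, mul_comm]
        exact h2
    · intro s hs
      rw [mem_Icc, Nat.le_div_iff_mul_le hp0] at hs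
      rw [mem_filter, mem_Icc]
      refine ⟨⟨Nat.mul_pos hp0 hs.1, ?_⟩, dvd_mul_right p s⟩
      rw [mul_comm]
      exact hs.2
    · intro s hs
      rw [mem_filter] at hs
      exact Nat.mul_div_cancel' hs.2
    · intro s _
      exact Nat.mul_div_cancel_left s hp0
    · intro s hs
      rw [mem_filter] at hs
      obtain ⟨-, k, rfl⟩ := hs
      rw [Nat.mul_div_cancel_left k hp0]
      push_cast
      rw [one_div_mul_one_div]
  rw [h1, ← Finset.mul_sum]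
  have h2 := Brm_harm hT (D / p) (le_trans (by exact_mod_cast Nat.div_le_self D p) hD)
  have h3 : 1 / (p : ℝ) ≤ 1 / z := one_div_le_one_div_of_le (by linarith) hp.le
  have h4 : 0 ≤ ∑ s ∈ Icc 1 (D / p), 1 / (s : ℝ) := Finset.sum_nonneg fun s _ => by positivity
  calc (1 / (p : ℝ)) * ∑ s ∈ Icc 1 (D / p), 1 / (s : ℝ)
      ≤ (1 / z) * T := mul_le_mul h3 h2 h4 (by positivity)
    _ = T / z := by ring

/-- the primes above z of k -/
private noncomputable def Brm_Q (z : ℝ) (k : ℕ) : Finset ℕ :=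
  open Classical in k.primeFactors.filter (fun p => z < p)

/-- the bound for the terms -/
private noncomputable def Brm_g (T z : ℝ) (k s : ℕ) : ℝ :=
  2 * T ^ 2 / z * (1 / (s : ℝ)) + ∑ p ∈ Brm_Q z k, if p ∣ s then 1 / (s : ℝ) else 0

private lemma Brm_g_nonneg {T z : ℝ} (hz : 1 ≤ z) (k s : ℕ) : 0 ≤ Brm_g T z k s := by
  unfold Brm_g
  have h1 : 0 ≤ ∑ p ∈ Brm_Q z k, if p ∣ s then 1 / (s : ℝ) else 0 := by
    refine Finset.sum_nonneg fun p _ => ?_
    split_ifs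
    · positivity
    · exact le_rfl
  have h2 : 0 ≤ 2 * T ^ 2 / z * (1 / (s : ℝ)) := by positivity
  linarith

private lemma Brm_g_sum {X T z : ℝ} (hT : Tau X T) (hz : 1 ≤ z) (D : ℕ) (hD : (D : ℝ) ≤ X) (k : ℕ)
    (hk1 : 1 ≤ k) (hk : (k : ℝ) ≤ X) :
    ∑ s ∈ Icc 1 D, Brm_g T z k s ≤ 3 * T ^ 3 / z := by
  unfold Brm_g
  rw [Finset.sum_add_distrib, ← Finset.mul_sum, Finset.sum_comm]
  have hT1 := hT.1
  have hz0 : 0 < z := by linarith
  have h1 : 2 * T ^ 2 / z * ∑ s ∈ Icc 1 D, 1 / (s : ℝ) ≤ 2 * T ^ 2 / z * T :=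
    mul_le_mul_of_nonneg_left (Brm_harm hT D hD) (by positivity)
  have h2 : ∑ p ∈ Brm_Q z k, ∑ s ∈ Icc 1 D, (if p ∣ s then 1 / (s : ℝ) else 0) ≤
      ∑ _p ∈ Brm_Q z k, T / z := by
    refine Finset.sum_le_sum fun p hp => ?_
    rw [← Finset.sum_filter]
    unfold Brm_Q at hp
    rw [mem_filter] at hp
    exact Brm_mul hT hz D hD p hp.2
  have h3 : ((Brm_Q z k).card : ℝ) ≤ T := by
    have h4 : (Brm_Q z k).card ≤ k.divisors.card := by
      refine card_le_card fun p hp => ?_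
      unfold Brm_Q at hp
      rw [mem_filter] at hp
      exact Nat.mem_divisors.2 ⟨Nat.dvd_of_mem_primeFactors hp.1, by omega⟩
    exact le_trans (by exact_mod_cast h4) (hT.2.2 k hk1 hk)
  rw [Finset.sum_const, nsmul_eq_mul] at h2
  have h5 : ((Brm_Q z k).card : ℝ) * (T / z) ≤ T * (T / z) :=
    mul_le_mul_of_nonneg_right h3 (by positivity)
  have h6 : T * (T / z) ≤ T ^ 3 / z := by
    rw [mul_div_assoc', div_le_div_iff_of_pos_right hz0]
    nlinarith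
  have h7 : 2 * T ^ 2 / z * T + T ^ 3 / z = 3 * T ^ 3 / z := by ring
  linarith

private lemma Brm_phi {X T : ℝ} (hT : Tau X T) (D : ℕ) (hD : (D : ℝ) ≤ X) :
    ∑ u ∈ Icc 1 D, 1 / (u.totient : ℝ) ≤ T ^ 2 := by
  have hT1 := hT.1
  rcases Nat.eq_zero_or_pos D with h0 | h0
  · subst h0
    have h1 : Icc 1 0 = (∅ : Finset ℕ) := by decide
    rw [h1, Finset.sum_empty]
    positivity
  · have hD1 : (1 : ℝ) ≤ D := by exact_mod_cast h0
    have h3 : Real.log D ≤ Real.log X := Real.log_le_log (by linarith) hD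
    have h4 : 0 ≤ Real.log D := Real.log_nonneg hD1
    have h5 := BV.tTot.1 D h0
    have h6 : (1 + Real.log D) ^ 2 ≤ T ^ 2 :=
      pow_le_pow_left₀ (by linarith) (by linarith [hT.2.1]) 2
    exact h5.trans h6

/-- the number of elements of a residue class in an interval -/
private lemma Brm_count (m K1 K2 : ℕ) (a : ℤ) (hm : 1 ≤ m) (hK : K1 ≤ K2) :
    (((Ioc K1 K2).filter (fun k : ℕ => (m : ℤ) ∣ (k : ℤ) - a)).card : ℝ) ≤
      ((K2 : ℝ) - K1) / m + 1 := by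
  have hm' : (0 : ℤ) < (m : ℤ) := by exact_mod_cast hm
  have h1 : ((Ioc K1 K2).filter (fun k : ℕ => (m : ℤ) ∣ (k : ℤ) - a)).card ≤
      ((Ioc (K1 : ℤ) (K2 : ℤ)).filter (fun k : ℤ => k ≡ a [ZMOD (m : ℤ)])).card := by
    refine Finset.card_le_card_of_injOn (fun k : ℕ => (k : ℤ)) ?_ ?_
    · intro k hk
      have hk1 := Finset.mem_filter.1 (Finset.mem_coe.1 hk)
      have hk2 := Finset.mem_Ioc.1 hk1.1
      refine Finset.mem_coe.2 (Finset.mem_filter.2 ⟨Finset.mem_Ioc.2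
        ⟨Int.ofNat_lt.2 hk2.1, Int.ofNat_le.2 hk2.2⟩, ?_⟩)
      exact (Int.modEq_iff_dvd.2 (by
        have := (dvd_neg (a := (m : ℤ))).2 hk1.2
        rwa [neg_sub] at this))
    · intro k _ k' _ h
      exact Int.ofNat.inj h
  have h2 := Int.Ioc_filter_modEq_card (K1 : ℤ) (K2 : ℤ) hm' a
  have h3 : ((((Ioc (K1 : ℤ) (K2 : ℤ)).filter (fun k : ℤ => k ≡ a [ZMOD (m : ℤ)])).card : ℤ) : ℚ) ≤
      ((K2 : ℚ) - K1) / m + 1 := by
    rw [h2]
    push_cast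
    refine max_le ?_ ?_
    · have e1 := Int.floor_le (((K2 : ℚ) - (a : ℚ)) / (m : ℚ))
      have e2 := (Int.lt_floor_add_one (((K1 : ℚ) - (a : ℚ)) / (m : ℚ))).le
      have e3 : ((K2 : ℚ) - K1) / m = ((K2 : ℚ) - (a : ℚ)) / (m : ℚ) - ((K1 : ℚ) - (a : ℚ)) / (m : ℚ) := by
        ring
      rw [e3]
      linarith
    · have e4 : (0 : ℚ) ≤ (K2 : ℚ) - K1 := sub_nonneg.2 (by exact_mod_cast hK)
      positivity
  have h4 : (((((Ioc (K1 : ℤ) (K2 : ℤ)).filter (fun k : ℤ => k ≡ a [ZMOD (m : ℤ)])).card : ℤ) : ℚ) : ℝ) ≤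
      (((((K2 : ℚ) - K1) / m + 1 : ℚ)) : ℝ) := by exact_mod_cast h3
  push_cast at h4
  have h5 : (((Ioc K1 K2).filter (fun k : ℕ => (m : ℤ) ∣ (k : ℤ) - a)).card : ℝ) ≤
      (((Ioc (K1 : ℤ) (K2 : ℤ)).filter (fun k : ℤ => k ≡ a [ZMOD (m : ℤ)])).card : ℝ) := by
    exact_mod_cast h1
  exact h5.trans h4


/-- the number of pairs with product in a class -/
private lemma Brm_pairs {X T : ℝ} (hT : Tau X T) (a : ℤ) (M N t : ℕ) (ht : 1 ≤ t)
    (hX : 4 * (M : ℝ) * N ≤ X) :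
    (((Ioc M (2 * M) ×ˢ Ioc N (2 * N)).filter
      (fun w => (t : ℤ) ∣ ((w.1 * w.2 : ℕ) : ℤ) - a)).card : ℝ) ≤
      T * (4 * ((M : ℝ) * N) / t + 1) := by
  set W := (Ioc M (2 * M) ×ˢ Ioc N (2 * N)).filter
    (fun w => (t : ℤ) ∣ ((w.1 * w.2 : ℕ) : ℤ) - a) with hW
  set K := (Ioc 0 (4 * M * N)).filter (fun k : ℕ => (t : ℤ) ∣ (k : ℤ) - a) with hK
  have hT0 : 0 ≤ T := zero_le_one.trans hT.1
  have hmem : ∀ w ∈ W, 1 ≤ w.1 ∧ 1 ≤ w.2 ∧ w.1 * w.2 ∈ K := by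
    intro w hw
    rw [hW, Finset.mem_filter, Finset.mem_product, Finset.mem_Ioc, Finset.mem_Ioc] at hw
    obtain ⟨⟨⟨h1, h2⟩, h3, h4⟩, h5⟩ := hw
    have h6 : 1 ≤ w.1 := by omega
    have h7 : 1 ≤ w.2 := by omega
    refine ⟨h6, h7, ?_⟩
    rw [hK, Finset.mem_filter, Finset.mem_Ioc]
    refine ⟨⟨Nat.mul_pos h6 h7, ?_⟩, h5⟩
    calc w.1 * w.2 ≤ (2 * M) * (2 * N) := Nat.mul_le_mul h2 h4
      _ = 4 * M * N := by ring
  have hmaps : Set.MapsTo (fun w : ℕ × ℕ => w.1 * w.2) (W : Set (ℕ × ℕ)) (K : Set ℕ) :=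
    fun w hw => Finset.mem_coe.2 (hmem w (Finset.mem_coe.1 hw)).2.2
  have hcard := Finset.card_eq_sum_card_fiberwise hmaps
  have hfib : ∀ k ∈ K, ((W.filter (fun w => w.1 * w.2 = k)).card : ℝ) ≤ T := by
    intro k hk
    rw [hK, Finset.mem_filter, Finset.mem_Ioc] at hk
    obtain ⟨⟨hk1, hk2⟩, -⟩ := hk
    have h1 : (W.filter (fun w => w.1 * w.2 = k)).card ≤ k.divisors.card := by
      refine Finset.card_le_card_of_injOn (fun w : ℕ × ℕ => w.1) ?_ ?_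
      · intro w hw
        rw [Finset.mem_coe, Finset.mem_filter] at hw
        exact Finset.mem_coe.2 (Nat.mem_divisors.2 ⟨⟨w.2, hw.2.symm⟩, by omega⟩)
      · intro w hw w' hw' he
        rw [Finset.mem_coe, Finset.mem_filter] at hw hw'
        have he' : w.1 = w'.1 := he
        refine Prod.ext he' ?_
        have h2 := (hmem w hw.1).1
        have h3 : w.1 * w.2 = w.1 * w'.2 := by rw [hw.2, he', hw'.2]
        exact Nat.eq_of_mul_eq_mul_left h2 h3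
    have h2 : (k : ℝ) ≤ X := by
      refine le_trans ?_ hX
      have : (k : ℝ) ≤ ((4 * M * N : ℕ) : ℝ) := by exact_mod_cast hk2
      push_cast at this
      linarith
    exact le_trans (by exact_mod_cast h1) (hT.2.2 k hk1 h2)
  have h1 : (W.card : ℝ) ≤ (K.card : ℝ) * T := by
    rw [hcard, Nat.cast_sum]
    refine (Finset.sum_le_sum hfib).trans (le_of_eq ?_)
    rw [Finset.sum_const, nsmul_eq_mul]
  have h2 := Brm_count t 0 (4 * M * N) a ht (Nat.zero_le _)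
  refine h1.trans ?_
  rw [mul_comm]
  refine mul_le_mul_of_nonneg_left (h2.trans (le_of_eq ?_)) hT0
  push_cast
  ring

theorem tBrm (h1 : MI.BphStmt) : BrmStmt := by
  classical
  intro X T z a D M N G hT hz hM hN hD hX hDMN hG
  have hT1 := hT.1
  have hz0 : 0 < z := by linarith
  have hMR : (1 : ℝ) ≤ M := by exact_mod_cast hM
  have hNR : (1 : ℝ) ≤ N := by exact_mod_cast hN
  have hMN : (0 : ℝ) < (M : ℝ) * N := by positivity
  -- the bound for fixed m, n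
  have key : ∀ m ∈ Ioc M (2 * M), ∀ n ∈ Ioc N (2 * N), ∑ w ∈ G,
      ((if (w.1 : ℤ) ∣ ((m * n : ℕ) : ℤ) - a then (1 : ℝ) else 0) * (1 / (w.2.1.totient : ℝ)) *
        ((1 / (w.2.2.totient : ℝ) - 1 / (w.2.2 : ℝ)) +
          (if (m * n).Coprime w.2.2 then 0 else 1 / (w.2.2 : ℝ)))) ≤
        ∑ t ∈ Icc 1 D, if (t : ℤ) ∣ ((m * n : ℕ) : ℤ) - a then 3 * T ^ 5 / z else 0 := by
    intro m hm n hn
    rw [mem_Ioc] at hm hn
    have hmM : (M : ℝ) ≤ m := by exact_mod_cast hm.1.le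
    have hm2 : (m : ℝ) ≤ 2 * M := by exact_mod_cast hm.2
    have hnN : (N : ℝ) ≤ n := by exact_mod_cast hn.1.le
    have hn2 : (n : ℝ) ≤ 2 * N := by exact_mod_cast hn.2
    have hmn2 : (m : ℝ) * n ≤ 4 * ((M : ℝ) * N) := by
      have := mul_le_mul hm2 hn2 (by positivity) (by positivity)
      linarith
    have hk1 : 1 ≤ m * n := Nat.mul_pos (by omega) (by omega)
    have hkX : ((m * n : ℕ) : ℝ) ≤ X := by
      push_cast
      linarith
    set Y : Finset ℕ := (Icc 1 D).filter (fun t : ℕ => (t : ℤ) ∣ ((m * n : ℕ) : ℤ) - a) with hY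
    set P : Finset (ℕ × ℕ × ℕ) := Y ×ˢ (Icc 1 D ×ˢ Icc 1 D) with hP
    set F : ℕ × ℕ × ℕ → ℝ := fun w => (1 / (w.2.1.totient : ℝ)) * Brm_g T z (m * n) w.2.2 with hF
    have hF0 : ∀ w, 0 ≤ F w := fun w => mul_nonneg (by positivity) (Brm_g_nonneg hz _ _)
    have hterm : ∀ w ∈ G, ((if (w.1 : ℤ) ∣ ((m * n : ℕ) : ℤ) - a then (1 : ℝ) else 0) *
        (1 / (w.2.1.totient : ℝ)) * ((1 / (w.2.2.totient : ℝ) - 1 / (w.2.2 : ℝ)) +
          (if (m * n).Coprime w.2.2 then 0 else 1 / (w.2.2 : ℝ)))) ≤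
        if (w.1 : ℤ) ∣ ((m * n : ℕ) : ℤ) - a then F w else 0 := by
      intro w hw
      obtain ⟨-, -, hs1, -, -, hsD, hsp⟩ := hG w hw
      split_ifs with hd hco
      · rw [one_mul, add_zero, hF]
        simp only
        refine mul_le_mul_of_nonneg_left ?_ (by positivity)
        have h8 := h1 X T z w.2.2 hT hz hs1 (le_trans (by exact_mod_cast hsD) hD) hsp
        have h9 : 2 * T ^ 2 / (z * (w.2.2 : ℝ)) = 2 * T ^ 2 / z * (1 / (w.2.2 : ℝ)) := by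
          rw [div_mul_div_comm, mul_one]
        unfold Brm_g
        have h10 : 0 ≤ ∑ p ∈ Brm_Q z (m * n), if p ∣ w.2.2 then 1 / (w.2.2 : ℝ) else 0 := by
          refine Finset.sum_nonneg fun p _ => ?_
          split_ifs
          · positivity
          · exact le_rfl
        linarith
      · rw [one_mul, hF]
        simp only
        refine mul_le_mul_of_nonneg_left ?_ (by positivity)
        have h8 := h1 X T z w.2.2 hT hz hs1 (le_trans (by exact_mod_cast hsD) hD) hsp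
        have h9 : 2 * T ^ 2 / (z * (w.2.2 : ℝ)) = 2 * T ^ 2 / z * (1 / (w.2.2 : ℝ)) := by
          rw [div_mul_div_comm, mul_one]
        obtain ⟨p, hp, hp1, hp2⟩ := Nat.Prime.not_coprime_iff_dvd.1 hco
        have hpQ : p ∈ Brm_Q z (m * n) := by
          unfold Brm_Q
          rw [mem_filter]
          exact ⟨Nat.mem_primeFactors.2 ⟨hp, hp1, by omega⟩, hsp p hp hp2⟩
        unfold Brm_g
        have h10 : 1 / (w.2.2 : ℝ) ≤
            ∑ p ∈ Brm_Q z (m * n), if p ∣ w.2.2 then 1 / (w.2.2 : ℝ) else 0 := by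
          refine le_trans (le_of_eq ?_) (Finset.single_le_sum
            (f := fun p => if p ∣ w.2.2 then 1 / (w.2.2 : ℝ) else 0) ?_ hpQ)
          · rw [if_pos hp2]
          · intro p _
            split_ifs
            · positivity
            · exact le_rfl
        linarith
      · rw [zero_mul, zero_mul]
      · rw [zero_mul, zero_mul]
    refine (Finset.sum_le_sum hterm).trans ?_
    rw [← Finset.sum_filter]
    have hsub : G.filter (fun w => (w.1 : ℤ) ∣ ((m * n : ℕ) : ℤ) - a) ⊆ P := by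
      intro w hw
      rw [mem_filter] at hw
      obtain ⟨ht1, hu1, hs1, htD, huD, hsD, hsp⟩ := hG w hw.1
      rw [hP, mem_product, mem_product, mem_Icc, mem_Icc, hY, mem_filter, mem_Icc]
      exact ⟨⟨⟨ht1, htD⟩, hw.2⟩, ⟨hu1, huD⟩, hs1, hsD⟩
    refine (Finset.sum_le_sum_of_subset_of_nonneg hsub fun w _ _ => hF0 w).trans ?_
    have hsum : ∑ w ∈ P, F w = (Y.card : ℝ) *
        ((∑ u ∈ Icc 1 D, 1 / (u.totient : ℝ)) * ∑ s ∈ Icc 1 D, Brm_g T z (m * n) s) := by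
      rw [hP, Finset.sum_product, Finset.sum_mul_sum]
      have h13 : ∀ t ∈ Y, ∑ x ∈ Icc 1 D ×ˢ Icc 1 D, F (t, x) =
          ∑ u ∈ Icc 1 D, ∑ s ∈ Icc 1 D, 1 / (u.totient : ℝ) * Brm_g T z (m * n) s := by
        intro t _
        rw [Finset.sum_product]
      rw [Finset.sum_congr rfl h13, Finset.sum_const, nsmul_eq_mul]
    rw [hsum]
    have h15 := Brm_phi hT D hD
    have h16 := Brm_g_sum hT hz D hD (m * n) hk1 hkX
    have h17 : 0 ≤ ∑ s ∈ Icc 1 D, Brm_g T z (m * n) s :=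
      Finset.sum_nonneg fun s _ => Brm_g_nonneg hz _ _
    rw [← Finset.sum_filter, ← hY, Finset.sum_const, nsmul_eq_mul]
    refine mul_le_mul_of_nonneg_left ?_ (Nat.cast_nonneg _)
    calc (∑ u ∈ Icc 1 D, 1 / (u.totient : ℝ)) * ∑ s ∈ Icc 1 D, Brm_g T z (m * n) s
        ≤ T ^ 2 * (3 * T ^ 3 / z) := mul_le_mul h15 h16 h17 (by positivity)
      _ = 3 * T ^ 5 / z := by ring
  -- the number of triples
  have hcnt : ∑ t ∈ Icc 1 D, ((((Ioc M (2 * M) ×ˢ Ioc N (2 * N)).filter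
      (fun w => (t : ℤ) ∣ ((w.1 * w.2 : ℕ) : ℤ) - a)).card : ℕ) : ℝ) ≤ 5 * T ^ 2 * ((M : ℝ) * N) := by
    have h2 : ∑ t ∈ Icc 1 D, ((((Ioc M (2 * M) ×ˢ Ioc N (2 * N)).filter
        (fun w => (t : ℤ) ∣ ((w.1 * w.2 : ℕ) : ℤ) - a)).card : ℕ) : ℝ) ≤
        ∑ t ∈ Icc 1 D, (T * (4 * ((M : ℝ) * N)) * (1 / (t : ℝ)) + T) := by
      refine Finset.sum_le_sum fun t ht => ?_
      refine (Brm_pairs hT a M N t (mem_Icc.1 ht).1 hX).trans (le_of_eq ?_)
      ring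
    refine h2.trans ?_
    rw [Finset.sum_add_distrib, ← Finset.mul_sum, Finset.sum_const, Nat.card_Icc, nsmul_eq_mul]
    have h3 := Brm_harm hT D hD
    have h4 : T * (4 * ((M : ℝ) * N)) * ∑ s ∈ Icc 1 D, 1 / (s : ℝ) ≤
        T * (4 * ((M : ℝ) * N)) * T := mul_le_mul_of_nonneg_left h3 (by positivity)
    have h5 : ((D + 1 - 1 : ℕ) : ℝ) = D := by rw [Nat.add_sub_cancel]
    rw [h5]
    have h6 : (D : ℝ) ≤ (M : ℝ) * N := by exact_mod_cast hDMN
    have h7 : (D : ℝ) * T ≤ (M : ℝ) * N * T ^ 2 := by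
      have h8 : (D : ℝ) * T ≤ (M : ℝ) * N * T := mul_le_mul_of_nonneg_right h6 (by linarith)
      have h9 : (M : ℝ) * N * T ≤ (M : ℝ) * N * T ^ 2 :=
        mul_le_mul_of_nonneg_left (by nlinarith) hMN.le
      linarith
    nlinarith
  have hswap : ∑ w ∈ G, ∑ m ∈ Ioc M (2 * M), ∑ n ∈ Ioc N (2 * N),
      ((if (w.1 : ℤ) ∣ ((m * n : ℕ) : ℤ) - a then (1 : ℝ) else 0) * (1 / (w.2.1.totient : ℝ)) *
        ((1 / (w.2.2.totient : ℝ) - 1 / (w.2.2 : ℝ)) +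
          (if (m * n).Coprime w.2.2 then 0 else 1 / (w.2.2 : ℝ)))) =
      ∑ m ∈ Ioc M (2 * M), ∑ n ∈ Ioc N (2 * N), ∑ w ∈ G,
      ((if (w.1 : ℤ) ∣ ((m * n : ℕ) : ℤ) - a then (1 : ℝ) else 0) * (1 / (w.2.1.totient : ℝ)) *
        ((1 / (w.2.2.totient : ℝ) - 1 / (w.2.2 : ℝ)) +
          (if (m * n).Coprime w.2.2 then 0 else 1 / (w.2.2 : ℝ)))) := by
    rw [Finset.sum_comm]
    exact Finset.sum_congr rfl fun m _ => Finset.sum_comm
  have hfin : ∑ m ∈ Ioc M (2 * M), ∑ n ∈ Ioc N (2 * N), ∑ t ∈ Icc 1 D,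
      (if (t : ℤ) ∣ ((m * n : ℕ) : ℤ) - a then 3 * T ^ 5 / z else 0) =
      (∑ t ∈ Icc 1 D, ((((Ioc M (2 * M) ×ˢ Ioc N (2 * N)).filter
        (fun w => (t : ℤ) ∣ ((w.1 * w.2 : ℕ) : ℤ) - a)).card : ℕ) : ℝ)) * (3 * T ^ 5 / z) := by
    rw [← Finset.sum_product', Finset.sum_comm, Finset.sum_mul]
    refine Finset.sum_congr rfl fun t _ => ?_
    rw [← Finset.sum_filter, Finset.sum_const, nsmul_eq_mul]
  have hle := Finset.sum_le_sum fun m hm => Finset.sum_le_sum fun n hn => key m hm n hn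
  refine (le_of_eq hswap).trans (hle.trans ?_)
  rw [hfin]
  have h20 : 0 ≤ 3 * T ^ 5 / z := by positivity
  refine (mul_le_mul_of_nonneg_right hcnt h20).trans ?_
  have h21 : 5 * T ^ 2 * ((M : ℝ) * N) * (3 * T ^ 5 / z) = 15 * T ^ 7 * ((M : ℝ) * N / z) := by ring
  rw [h21]
  have h22 : T ^ 7 ≤ T ^ 8 := pow_le_pow_right₀ hT1 (by norm_num)
  have h23 : 0 ≤ (M : ℝ) * N / z := by positivity
  refine mul_le_mul_of_nonneg_right ?_ h23
  linarith

end Pool.Agent.Lib.MJ
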