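import Pool.Agent.Lib.MJ.SpecE

/-!
MP_00e23e_nt, MJ/Eba: the bad terms (after helper37, MI/Dba).
-/

namespace Pool.Agent.Lib.MJ

open Finset Pool.Agent.Lib.EH3 Pool.Agent.Lib.TB Pool.Agent.Results.MP_00e23e_nt Pool.Agent.Lib.MI

/-- the sum over the tuples -/
private noncomputable def Eba_S (R S N : ℕ) (F : ℕ → ℕ → ℕ → ℕ → ℕ → ℝ) : ℝ :=
  ∑ r ∈ Ioc R (2 * R), ∑ s1 ∈ Ioc S (2 * S), ∑ s2 ∈ Ioc S (2 * S),
    ∑ n1 ∈ Ioc N (2 * N), ∑ n2 ∈ Ioc N (2 * N), F r s1 s2 n1 n2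

private theorem Eba_le (R S N : ℕ) {F G : ℕ → ℕ → ℕ → ℕ → ℕ → ℝ}
    (h : ∀ r s1 s2 n1 n2, F r s1 s2 n1 n2 ≤ G r s1 s2 n1 n2) : Eba_S R S N F ≤ Eba_S R S N G :=
  Finset.sum_le_sum fun _ _ => Finset.sum_le_sum fun _ _ => Finset.sum_le_sum fun _ _ =>
    Finset.sum_le_sum fun _ _ => Finset.sum_le_sum fun _ _ => h _ _ _ _ _

private theorem Eba_add (R S N : ℕ) (F G : ℕ → ℕ → ℕ → ℕ → ℕ → ℝ) :
    Eba_S R S N (fun r s1 s2 n1 n2 => F r s1 s2 n1 n2 + G r s1 s2 n1 n2) =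
      Eba_S R S N F + Eba_S R S N G := by
  simp only [Eba_S, Finset.sum_add_distrib]

private theorem Eba_mul (R S N : ℕ) (c : ℝ) (F : ℕ → ℕ → ℕ → ℕ → ℕ → ℝ) :
    Eba_S R S N (fun r s1 s2 n1 n2 => c * F r s1 s2 n1 n2) = c * Eba_S R S N F := by
  simp only [Eba_S, Finset.mul_sum]

private theorem Eba_sum (R S N : ℕ) (A : Finset ℕ) (F : ℕ → ℕ → ℕ → ℕ → ℕ → ℕ → ℝ) :
    Eba_S R S N (fun r s1 s2 n1 n2 => ∑ m ∈ A, F m r s1 s2 n1 n2) =
      ∑ m ∈ A, Eba_S R S N (F m) := by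
  unfold Eba_S
  rw [Finset.sum_comm (s := A)]
  refine Finset.sum_congr rfl fun r _ => ?_
  rw [Finset.sum_comm (s := A)]
  refine Finset.sum_congr rfl fun s1 _ => ?_
  rw [Finset.sum_comm (s := A)]
  refine Finset.sum_congr rfl fun s2 _ => ?_
  rw [Finset.sum_comm (s := A)]
  refine Finset.sum_congr rfl fun n1 _ => ?_
  rw [Finset.sum_comm (s := A)]

private theorem Eba_swap (R S N : ℕ) (F : ℕ → ℕ → ℕ → ℕ → ℕ → ℝ) :
    Eba_S R S N F = Eba_S R S N (fun r s1 s2 n1 n2 => F r s2 s1 n2 n1) := by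
  unfold Eba_S
  refine Finset.sum_congr rfl fun r _ => ?_
  rw [Finset.sum_comm]
  refine Finset.sum_congr rfl fun s1 _ => Finset.sum_congr rfl fun s2 _ => ?_
  rw [Finset.sum_comm]

private theorem Eba_dl (a : ℤ) (q t : ℕ) :
    ‖dl a q t‖ = if (q : ℤ) ∣ (t : ℤ) - a then 1 else 0 := by
  unfold dl
  split_ifs <;> simp

private theorem Eba_Dl (a : ℤ) (r s t : ℕ) : ‖Dl a r s t‖ ≤ D1 a r s t + D2 a r s t := by
  unfold Dl D1 D2
  refine (norm_sub_le _ _).trans ?_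
  rw [norm_mul, Eba_dl, Eba_dl]
  have h : ‖(1 / (s : ℂ))‖ = 1 / (s : ℝ) := by
    rw [norm_div, norm_one, Complex.norm_natCast]
  rw [h]

private theorem Eba_Ten (M : ℕ) (F : ℕ → ℂ) (G : ℕ → ℝ) (h : ∀ m, ‖F m‖ ≤ G m) :
    ‖Ten M F‖ ≤ TR M G := by
  unfold Ten TR
  rw [norm_mul]
  have h1 : ‖(4 / (M : ℂ))‖ = 4 / (M : ℝ) := by
    rw [norm_div, Complex.norm_natCast]
    norm_num
  rw [h1]
  refine mul_le_mul_of_nonneg_left ?_ (by positivity)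
  refine (norm_sum_le _ _).trans (Finset.sum_le_sum fun i _ => ?_)
  exact (norm_sum_le _ _).trans (Finset.sum_le_sum fun j _ => h _)

private theorem Eba_D1 (a : ℤ) (r s t : ℕ) : 0 ≤ D1 a r s t := by
  unfold D1
  split_ifs <;> norm_num

private theorem Eba_D2 (a : ℤ) (r s t : ℕ) : 0 ≤ D2 a r s t := by
  unfold D2
  split_ifs <;> simp

private theorem Eba_sym {a : ℤ} {P : Finset (ℕ × ℕ)} {r s1 s2 n1 n2 : ℕ}
    (h : GdC a r s1 s2 n1 n2) : GdC a r s2 s1 n2 n1 := by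
  obtain ⟨⟨h1, h2, h3, h4, h5, h6, h7⟩, h8⟩ := h
  exact ⟨⟨h2, h1, h3.symm, h5, h4, h7, h6⟩, (dvd_sub_comm).1 h8⟩

private theorem Eba_symB {a : ℤ} {P : Finset (ℕ × ℕ)} {r s1 s2 n1 n2 : ℕ} :
    Bd a P r s1 s2 n1 n2 ↔ Bd a P r s2 s1 n2 n1 := by
  constructor
  · rintro ⟨h1, h2, h3⟩
    exact ⟨h2, h1, fun h => h3 (Eba_sym (P := P) h)⟩
  · rintro ⟨h1, h2, h3⟩
    exact ⟨h2, h1, fun h => h3 (Eba_sym (P := P) h)⟩

open Classical in
theorem tEba (hDtr : DtrStmt) (hEea : EeaStmt) (hEeb : EebStmt) (hEec : EecStmt) : EbaStmt := by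
  intro X T z a R S M N P hSz hPr
  have hA := hEea X T z a R S M N P hSz hPr
  have hB := hEeb X T z a R S M N P hSz hPr
  have hC := hEec X T z a R S M N P hSz hPr
  obtain ⟨hT, hz, hR, -, -, hM, -, -, -⟩ := hSz
  have hT1 : 1 ≤ T := hT.1
  set Q : ℝ := (M : ℝ) * N * (1 + N / ((R : ℝ) * z)) with hQ
  have hQ0 : 0 ≤ Q := by
    rw [hQ]
    have : (0 : ℝ) < (R : ℝ) * z := mul_pos (by exact_mod_cast hR) (by linarith)
    positivity
  have hsw : ∑ m ∈ Icc (M / 2) (3 * M), Eba_S R S N (fun r s1 s2 n1 n2 =>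
      if Bd a P r s1 s2 n1 n2 then D2 a r s1 (m * n1) * D1 a r s2 (m * n2) else 0) ≤
      14 * T ^ 2 * Q := by
    refine le_trans (le_of_eq ?_) hB
    refine Finset.sum_congr rfl fun m _ => ?_
    rw [Eba_swap]
    unfold Eba_S
    refine Finset.sum_congr rfl fun r _ => Finset.sum_congr rfl fun s1 _ =>
      Finset.sum_congr rfl fun s2 _ => Finset.sum_congr rfl fun n1 _ =>
      Finset.sum_congr rfl fun n2 _ => ?_
    show (if Bd a P r s2 s1 n2 n1 then D2 a r s2 (m * n2) * D1 a r s1 (m * n1) else 0) = _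
    by_cases h : Bd a P r s1 s2 n1 n2
    · rw [if_pos h, if_pos (Eba_symB.1 h), mul_comm]
    · rw [if_neg h, if_neg fun h' => h (Eba_symB.1 h')]
  have h1 : ∀ r s1 s2 n1 n2 : ℕ, ‖Ph a M r s1 s2 n1 n2‖ ≤
      4 * ∑ m ∈ Icc (M / 2) (3 * M), (D1 a r s1 (m * n1) + D2 a r s1 (m * n1)) *
        (D1 a r s2 (m * n2) + D2 a r s2 (m * n2)) := by
    intro r s1 s2 n1 n2
    refine (Eba_Ten M _ (fun m => (D1 a r s1 (m * n1) + D2 a r s1 (m * n1)) *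
        (D1 a r s2 (m * n2) + D2 a r s2 (m * n2))) fun m => ?_).trans (hDtr M _ hM fun m => ?_).2
    · rw [norm_mul]
      exact mul_le_mul (Eba_Dl _ _ _ _) (Eba_Dl _ _ _ _) (norm_nonneg _)
        (add_nonneg (Eba_D1 _ _ _ _) (Eba_D2 _ _ _ _))
    · exact mul_nonneg (add_nonneg (Eba_D1 _ _ _ _) (Eba_D2 _ _ _ _))
        (add_nonneg (Eba_D1 _ _ _ _) (Eba_D2 _ _ _ _))
  have h2 : Eba_S R S N (fun r s1 s2 n1 n2 =>
      if Bd a P r s1 s2 n1 n2 then ‖Ph a M r s1 s2 n1 n2‖ else 0) ≤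
      Eba_S R S N (fun r s1 s2 n1 n2 => 4 * ∑ m ∈ Icc (M / 2) (3 * M),
        (((if Bd a P r s1 s2 n1 n2 then D1 a r s1 (m * n1) * D1 a r s2 (m * n2) else 0) +
          (if Bd a P r s1 s2 n1 n2 then D1 a r s1 (m * n1) * D2 a r s2 (m * n2) else 0)) +
        ((if Bd a P r s1 s2 n1 n2 then D2 a r s1 (m * n1) * D1 a r s2 (m * n2) else 0) +
          (if Bd a P r s1 s2 n1 n2 then D2 a r s1 (m * n1) * D2 a r s2 (m * n2) else 0)))) := by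
    refine Eba_le R S N fun r s1 s2 n1 n2 => ?_
    by_cases h : Bd a P r s1 s2 n1 n2
    · simp only [if_pos h]
      refine (h1 r s1 s2 n1 n2).trans (le_of_eq ?_)
      congr 1
      refine Finset.sum_congr rfl fun m _ => ?_
      ring
    · simp only [if_neg h]
      simp
  have h3 : Eba_S R S N (fun r s1 s2 n1 n2 => 4 * ∑ m ∈ Icc (M / 2) (3 * M),
        (((if Bd a P r s1 s2 n1 n2 then D1 a r s1 (m * n1) * D1 a r s2 (m * n2) else 0) +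
          (if Bd a P r s1 s2 n1 n2 then D1 a r s1 (m * n1) * D2 a r s2 (m * n2) else 0)) +
        ((if Bd a P r s1 s2 n1 n2 then D2 a r s1 (m * n1) * D1 a r s2 (m * n2) else 0) +
          (if Bd a P r s1 s2 n1 n2 then D2 a r s1 (m * n1) * D2 a r s2 (m * n2) else 0)))) =
      4 * ((∑ m ∈ Icc (M / 2) (3 * M), Eba_S R S N (fun r s1 s2 n1 n2 =>
          if Bd a P r s1 s2 n1 n2 then D1 a r s1 (m * n1) * D1 a r s2 (m * n2) else 0)) +
        (∑ m ∈ Icc (M / 2) (3 * M), Eba_S R S N (fun r s1 s2 n1 n2 =>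
          if Bd a P r s1 s2 n1 n2 then D1 a r s1 (m * n1) * D2 a r s2 (m * n2) else 0)) +
        ((∑ m ∈ Icc (M / 2) (3 * M), Eba_S R S N (fun r s1 s2 n1 n2 =>
          if Bd a P r s1 s2 n1 n2 then D2 a r s1 (m * n1) * D1 a r s2 (m * n2) else 0)) +
        (∑ m ∈ Icc (M / 2) (3 * M), Eba_S R S N (fun r s1 s2 n1 n2 =>
          if Bd a P r s1 s2 n1 n2 then D2 a r s1 (m * n1) * D2 a r s2 (m * n2) else 0)))) := by
    rw [Eba_mul, Eba_sum]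
    simp only [Eba_add, Finset.sum_add_distrib]
  have hA' : (∑ m ∈ Icc (M / 2) (3 * M), Eba_S R S N (fun r s1 s2 n1 n2 =>
      if Bd a P r s1 s2 n1 n2 then D1 a r s1 (m * n1) * D1 a r s2 (m * n2) else 0)) ≤
      60 * T ^ 5 * Q := hA
  have hB' : (∑ m ∈ Icc (M / 2) (3 * M), Eba_S R S N (fun r s1 s2 n1 n2 =>
      if Bd a P r s1 s2 n1 n2 then D1 a r s1 (m * n1) * D2 a r s2 (m * n2) else 0)) ≤
      14 * T ^ 2 * Q := hB
  have hC' : (∑ m ∈ Icc (M / 2) (3 * M), Eba_S R S N (fun r s1 s2 n1 n2 =>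
      if Bd a P r s1 s2 n1 n2 then D2 a r s1 (m * n1) * D2 a r s2 (m * n2) else 0)) ≤
      42 * T ^ 2 * Q := hC
  have h25 : T ^ 2 * Q ≤ T ^ 5 * Q :=
    mul_le_mul_of_nonneg_right (pow_le_pow_right₀ hT1 (by norm_num)) hQ0
  have h55 : 0 ≤ T ^ 5 * Q := mul_nonneg (by positivity) hQ0
  show Eba_S R S N (fun r s1 s2 n1 n2 =>
      if Bd a P r s1 s2 n1 n2 then ‖Ph a M r s1 s2 n1 n2‖ else 0) ≤ 520 * T ^ 5 * Q
  refine h2.trans ?_
  rw [h3]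
  nlinarith

end Pool.Agent.Lib.MJ
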