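import Pool.Agent.Lib.MJ.SpecE

namespace Pool.Agent.Lib.MJ

open Finset Pool.Agent.Lib.EH3 Pool.Agent.Lib.TB Pool.Agent.Results.MP_00e23e_nt Pool.Agent.Lib.MI

/-- the number of elements of a residue class in an interval -/
private lemma Ecn_count (m K1 K2 : ℕ) (a : ℤ) (hm : 1 ≤ m) (hK : K1 ≤ K2) :
    (((Ioc K1 K2).filter (fun k : ℕ => (m : ℤ) ∣ (k : ℤ) - a)).card : ℝ) ≤
      ((K2 : ℝ) - K1) / m + 1 := by
  have hm' : (0 : ℤ) < (m : ℤ) := by exact_mod_cast hm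
  have h1 : ((Ioc K1 K2).filter (fun k : ℕ => (m : ℤ) ∣ (k : ℤ) - a)).card ≤
      ((Ioc (K1 : ℤ) (K2 : ℤ)).filter (fun k : ℤ => k ≡ a [ZMOD (m : ℤ)])).card := by
    refine Finset.card_le_card_of_injOn (fun k : ℕ => (k : ℤ)) ?_ ?_
    · intro k hk
      have hk1 := Finset.mem_filter.1 (Finset.mem_coe.1 hk)
      have hk2 := Finset.mem_Ioc.1 hk1.1
      refine Finset.mem_coe.2 (Finset.mem_filter.2 ⟨Finset.mem_Ioc.2
        ⟨Int.ofNat_lt.2 hk2.1, Int.ofNat_le.2 hk2.2⟩, ?_⟩)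
      exact (Int.modEq_iff_dvd.2 (by
        have := (dvd_neg (a := (m : ℤ))).2 hk1.2
        rwa [neg_sub] at this))
    · intro k _ k' _ h
      exact Int.ofNat.inj h
  have h2 := Int.Ioc_filter_modEq_card (K1 : ℤ) (K2 : ℤ) hm' a
  have h3 : ((((Ioc (K1 : ℤ) (K2 : ℤ)).filter (fun k : ℤ => k ≡ a [ZMOD (m : ℤ)])).card : ℤ) : ℚ) ≤
      ((K2 : ℚ) - K1) / m + 1 := by
    rw [h2]
    push_cast
    refine max_le ?_ ?_
    · have e1 := Int.floor_le (((K2 : ℚ) - (a : ℚ)) / (m : ℚ))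
      have e2 := (Int.lt_floor_add_one (((K1 : ℚ) - (a : ℚ)) / (m : ℚ))).le
      have e3 : ((K2 : ℚ) - K1) / m = ((K2 : ℚ) - (a : ℚ)) / (m : ℚ) - ((K1 : ℚ) - (a : ℚ)) / (m : ℚ) := by
        ring
      rw [e3]
      linarith
    · have e4 : (0 : ℚ) ≤ (K2 : ℚ) - K1 := sub_nonneg.2 (by exact_mod_cast hK)
      positivity
  have h4 : (((((Ioc (K1 : ℤ) (K2 : ℤ)).filter (fun k : ℤ => k ≡ a [ZMOD (m : ℤ)])).card : ℤ) : ℚ) : ℝ) ≤
      (((((K2 : ℚ) - K1) / m + 1 : ℚ)) : ℝ) := by exact_mod_cast h3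
  push_cast at h4
  have h5 : (((Ioc K1 K2).filter (fun k : ℕ => (m : ℤ) ∣ (k : ℤ) - a)).card : ℝ) ≤
      (((Ioc (K1 : ℤ) (K2 : ℤ)).filter (fun k : ℤ => k ≡ a [ZMOD (m : ℤ)])).card : ℝ) := by
    exact_mod_cast h1
  exact h5.trans h4

theorem tEcn : EcnStmt := by
  intro X T M N q a hT hq hM hN hX
  set W := (Icc (M / 2) (3 * M) ×ˢ Ioc N (2 * N)).filter
    (fun w => (q : ℤ) ∣ ((w.1 * w.2 : ℕ) : ℤ) - a) with hW
  set K := (Ioc 0 (6 * M * N)).filter (fun k : ℕ => (q : ℤ) ∣ (k : ℤ) - a) with hK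
  have hT0 : 0 ≤ T := zero_le_one.trans hT.1
  have hm4 : 4 ≤ M / 2 := by omega
  have hmem : ∀ w ∈ W, 1 ≤ w.1 ∧ 1 ≤ w.2 ∧ w.1 * w.2 ∈ K := by
    intro w hw
    rw [hW, Finset.mem_filter, Finset.mem_product, Finset.mem_Icc, Finset.mem_Ioc] at hw
    obtain ⟨⟨⟨h1, h2⟩, h3, h4⟩, h5⟩ := hw
    have h6 : 1 ≤ w.1 := by omega
    have h7 : 1 ≤ w.2 := by omega
    refine ⟨h6, h7, ?_⟩
    rw [hK, Finset.mem_filter, Finset.mem_Ioc]
    refine ⟨⟨Nat.mul_pos h6 h7, ?_⟩, h5⟩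
    calc w.1 * w.2 ≤ (3 * M) * (2 * N) := Nat.mul_le_mul h2 h4
      _ = 6 * M * N := by ring
  have hmaps : Set.MapsTo (fun w : ℕ × ℕ => w.1 * w.2) (W : Set (ℕ × ℕ)) (K : Set ℕ) :=
    fun w hw => Finset.mem_coe.2 (hmem w (Finset.mem_coe.1 hw)).2.2
  have hcard := Finset.card_eq_sum_card_fiberwise hmaps
  have hfib : ∀ k ∈ K, ((W.filter (fun w => w.1 * w.2 = k)).card : ℝ) ≤ T := by
    intro k hk
    rw [hK, Finset.mem_filter, Finset.mem_Ioc] at hk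
    obtain ⟨⟨hk1, hk2⟩, -⟩ := hk
    have h1 : (W.filter (fun w => w.1 * w.2 = k)).card ≤ k.divisors.card := by
      refine Finset.card_le_card_of_injOn (fun w : ℕ × ℕ => w.1) ?_ ?_
      · intro w hw
        rw [Finset.mem_coe, Finset.mem_filter] at hw
        exact Finset.mem_coe.2 (Nat.mem_divisors.2 ⟨⟨w.2, hw.2.symm⟩, by omega⟩)
      · intro w hw w' hw' he
        rw [Finset.mem_coe, Finset.mem_filter] at hw hw'
        have he' : w.1 = w'.1 := he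
        refine Prod.ext he' ?_
        have h2 := (hmem w hw.1).1
        have h3 : w.1 * w.2 = w.1 * w'.2 := by rw [hw.2, he', hw'.2]
        exact Nat.eq_of_mul_eq_mul_left h2 h3
    have h2 : (k : ℝ) ≤ X := by
      refine le_trans ?_ hX
      have : (k : ℝ) ≤ ((6 * M * N : ℕ) : ℝ) := by exact_mod_cast hk2
      push_cast at this
      linarith
    exact le_trans (by exact_mod_cast h1) (hT.2.2 k hk1 h2)
  have h1 : (W.card : ℝ) ≤ (K.card : ℝ) * T := by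
    rw [hcard, Nat.cast_sum]
    refine (Finset.sum_le_sum hfib).trans (le_of_eq ?_)
    rw [Finset.sum_const, nsmul_eq_mul]
  have h2 := Ecn_count q 0 (6 * M * N) a hq (Nat.zero_le _)
  refine h1.trans ?_
  rw [mul_comm]
  refine mul_le_mul_of_nonneg_left (h2.trans (le_of_eq ?_)) hT0
  push_cast
  ring

end Pool.Agent.Lib.MJ
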