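import Pool.Agent.Lib.MJ.SpecE

/-!
MP_00e23e_nt, directory Lib/MJ, module Eea: the bad terms, both full.
-/

namespace Pool.Agent.Lib.MJ

open Finset Pool.Agent.Lib.EH3 Pool.Agent.Lib.TB Pool.Agent.Results.MP_00e23e_nt Pool.Agent.Lib.MI

private lemma Eea_cnt (q N n1 : ℕ) (hq : 1 ≤ q) :
    (((Ioc N (2 * N)).filter (fun n2 : ℕ => (q : ℤ) ∣ (n2 : ℤ) - n1)).card : ℝ) ≤ (N : ℝ) / q + 1 := by
  have h1 : (Ioc N (2 * N)).filter (fun n2 : ℕ => (q : ℤ) ∣ (n2 : ℤ) - n1) =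
      (Ioc N (2 * N)).filter (fun n2 : ℕ => n2 ≡ n1 [MOD q]) := by
    refine Finset.filter_congr fun x _ => ?_
    rw [Nat.modEq_iff_dvd, ← dvd_neg]
    rw [neg_sub]
  have hr0 : 0 < q := by omega
  have h2 := Nat.Ioc_filter_modEq_card N (2 * N) hr0 n1
  rw [h1]
  have h3 : ((((Ioc N (2 * N)).filter (fun n2 : ℕ => n2 ≡ n1 [MOD q])).card : ℤ) : ℚ) ≤
      (N : ℚ) / q + 1 := by
    rw [h2]
    have h4 : (0 : ℚ) ≤ (N : ℚ) / q + 1 := by positivity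
    have h5 := Int.floor_le ((((2 * N : ℕ) : ℚ) - n1) / (q : ℚ))
    have h6 := Int.lt_floor_add_one (((N : ℚ) - n1) / (q : ℚ))
    have h7 : (((2 * N : ℕ) : ℚ) - n1) / (q : ℚ) - ((N : ℚ) - n1) / (q : ℚ) = (N : ℚ) / q := by
      push_cast
      ring
    rw [Int.cast_max]
    refine max_le ?_ (by simpa using h4)
    push_cast at h5 h6 h7 ⊢
    linarith
  have h9 : ((((Ioc N (2 * N)).filter (fun n2 : ℕ => n2 ≡ n1 [MOD q])).card : ℚ) : ℝ) ≤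
      (((N : ℚ) / q + 1 : ℚ) : ℝ) := by
    exact_mod_cast h3
  push_cast at h9
  exact h9

/-- the arithmetic of a nonzero term -/
private lemma Eea_ar {a : ℤ} {R S : ℕ} {z : ℝ} {P : Finset (ℕ × ℕ)} (hP : Pr a R S z P)
    {r s1 s2 n1 n2 m : ℕ} (hB : Bd a P r s1 s2 n1 n2) (h1 : ((r * s1 : ℕ) : ℤ) ∣ ((m * n1 : ℕ) : ℤ) - a)
    (h2 : ((r * s2 : ℕ) : ℤ) ∣ ((m * n2 : ℕ) : ℤ) - a) :
    ∃ p : ℕ, p.Prime ∧ z < (p : ℝ) ∧ p ∣ s1 ∧ p ∣ s2 ∧ ((r * p : ℕ) : ℤ) ∣ (n2 : ℤ) - n1 := by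
  obtain ⟨hB1, hB2, hB3⟩ := hB
  obtain ⟨_, _, hs1, _, sq1, g1, pr1⟩ := hP _ hB1
  obtain ⟨_, _, _, _, sq2, g2, _⟩ := hP _ hB2
  simp only at sq1 sq2 g1 g2 pr1 hs1
  have key : ∀ (q t : ℕ), Int.gcd a (q : ℤ) = 1 → (q : ℤ) ∣ (t : ℤ) - a → t.Coprime q := by
    intro q t hq ht
    have h3 : (Nat.gcd t q : ℤ) ∣ a := by
      have h4 : (Nat.gcd t q : ℤ) ∣ (t : ℤ) := Int.natCast_dvd_natCast.2 (Nat.gcd_dvd_left _ _)
      have h5 : (Nat.gcd t q : ℤ) ∣ (t : ℤ) - a :=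
        (Int.natCast_dvd_natCast.2 (Nat.gcd_dvd_right _ _)).trans ht
      have h6 := dvd_sub h4 h5
      rwa [sub_sub_cancel] at h6
    have h7 : Nat.gcd t q ∣ Int.gcd a (q : ℤ) :=
      Int.dvd_gcd h3 (Int.natCast_dvd_natCast.2 (Nat.gcd_dvd_right _ _))
    rw [hq] at h7
    exact Nat.dvd_one.1 h7
  have c1 := key _ _ g1 h1
  have c2 := key _ _ g2 h2
  have cm : m.Coprime (r * s1) := Nat.Coprime.coprime_dvd_left (dvd_mul_right _ _) c1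
  have cn1 : n1.Coprime (r * s1) := Nat.Coprime.coprime_dvd_left (dvd_mul_left _ _) c1
  have cn2 : n2.Coprime (r * s2) := Nat.Coprime.coprime_dvd_left (dvd_mul_left _ _) c2
  have hdv : ∀ q : ℕ, q ∣ r * s1 → q ∣ r * s2 → (q : ℤ) ∣ (n2 : ℤ) - n1 := by
    intro q hq1 hq2
    have e1 : (q : ℤ) ∣ ((m * n1 : ℕ) : ℤ) - a := (Int.natCast_dvd_natCast.2 hq1).trans h1
    have e2 : (q : ℤ) ∣ ((m * n2 : ℕ) : ℤ) - a := (Int.natCast_dvd_natCast.2 hq2).trans h2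
    have h3 := dvd_sub e2 e1
    have h4 : ((m * n2 : ℕ) : ℤ) - a - (((m * n1 : ℕ) : ℤ) - a) = (m : ℤ) * ((n2 : ℤ) - n1) := by
      push_cast
      ring
    rw [h4] at h3
    have h5 : IsCoprime (q : ℤ) (m : ℤ) :=
      (Nat.isCoprime_iff_coprime.2 (Nat.Coprime.coprime_dvd_right hq1 cm)).symm
    exact h5.dvd_of_dvd_mul_left h3
  have hnc : ¬ s1.Coprime s2 := fun hc =>
    hB3 ⟨⟨sq1, sq2, hc, cn1, cn2, g1, g2⟩, hdv r (dvd_mul_right _ _) (dvd_mul_right _ _)⟩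
  obtain ⟨p, hp, hp1, hp2⟩ := Nat.Prime.not_coprime_iff_dvd.1 hnc
  exact ⟨p, hp, pr1 p hp hp1, hp1, hp2,
    hdv (r * p) (Nat.mul_dvd_mul_left _ hp1) (Nat.mul_dvd_mul_left _ hp2)⟩

/-- symmetric double sum -/
private lemma Eea_sym (A : Finset ℕ) (Q : ℕ → ℕ → Prop) [∀ x y, Decidable (Q x y)]
    (hQ : ∀ x y, Q x y → Q y x) (u : ℕ → ℝ) (K : ℝ)
    (hK : ∀ x ∈ A, ((A.filter (fun y => Q x y)).card : ℝ) ≤ K) :
    ∑ x ∈ A, ∑ y ∈ A, (if Q x y then u x * u y else 0) ≤ K * ∑ x ∈ A, u x ^ 2 := by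
  have h1 : ∀ x ∈ A, ∀ y ∈ A, (if Q x y then u x * u y else 0) ≤
      (if Q x y then u x ^ 2 / 2 else 0) + (if Q x y then u y ^ 2 / 2 else 0) := by
    intro x _ y _
    split_ifs
    · nlinarith [sq_nonneg (u x - u y)]
    · simp
  have h2 : ∑ x ∈ A, ∑ y ∈ A, (if Q x y then u x * u y else 0) ≤
      ∑ x ∈ A, ∑ y ∈ A, (if Q x y then u x ^ 2 / 2 else 0) +
      ∑ x ∈ A, ∑ y ∈ A, (if Q x y then u y ^ 2 / 2 else 0) := by
    rw [← Finset.sum_add_distrib]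
    refine Finset.sum_le_sum fun x hx => ?_
    rw [← Finset.sum_add_distrib]
    exact Finset.sum_le_sum fun y hy => h1 x hx y hy
  have h3 : ∑ x ∈ A, ∑ y ∈ A, (if Q x y then u y ^ 2 / 2 else 0) =
      ∑ x ∈ A, ∑ y ∈ A, (if Q x y then u x ^ 2 / 2 else 0) := by
    rw [Finset.sum_comm]
    refine Finset.sum_congr rfl fun x _ => Finset.sum_congr rfl fun y _ => ?_
    by_cases h : Q x y
    · rw [if_pos h, if_pos (hQ _ _ h)]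
    · rw [if_neg h, if_neg (fun h' => h (hQ _ _ h'))]
  have h4 : ∑ x ∈ A, ∑ y ∈ A, (if Q x y then u x ^ 2 / 2 else 0) ≤ ∑ x ∈ A, K * (u x ^ 2 / 2) := by
    refine Finset.sum_le_sum fun x hx => ?_
    rw [← Finset.sum_filter, Finset.sum_const, nsmul_eq_mul]
    exact mul_le_mul_of_nonneg_right (hK x hx) (by positivity)
  rw [h3] at h2
  refine h2.trans ?_
  have h5 : ∑ x ∈ A, K * (u x ^ 2 / 2) = K * (∑ x ∈ A, u x ^ 2) / 2 := by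
    rw [← Finset.mul_sum, ← Finset.sum_div]
    ring
  linarith

private lemma Eea_isq (z : ℝ) (hz : 1 ≤ z) (L : ℕ) :
    ∑ p ∈ (Icc 1 L).filter (fun p : ℕ => p.Prime ∧ z < (p : ℝ)), 1 / (p : ℝ) ^ 2 ≤ 2 / z := by
  have h1 : (Icc 1 L).filter (fun p : ℕ => p.Prime ∧ z < (p : ℝ)) ⊆ Ioo ⌊z⌋₊ (L + 1) := by
    intro p hp
    rw [mem_filter, mem_Icc] at hp
    rw [mem_Ioo]
    refine ⟨(Nat.floor_lt (by linarith)).2 hp.2.2, by omega⟩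
  have h2 := sum_Ioo_inv_sq_le (α := ℝ) ⌊z⌋₊ (L + 1)
  calc ∑ p ∈ (Icc 1 L).filter (fun p : ℕ => p.Prime ∧ z < (p : ℝ)), 1 / (p : ℝ) ^ 2
      ≤ ∑ p ∈ Ioo ⌊z⌋₊ (L + 1), 1 / (p : ℝ) ^ 2 :=
        Finset.sum_le_sum_of_subset_of_nonneg h1 fun _ _ _ => by positivity
    _ = ∑ p ∈ Ioo ⌊z⌋₊ (L + 1), ((p : ℝ) ^ 2)⁻¹ := by simp only [one_div]
    _ ≤ 2 / ((⌊z⌋₊ : ℝ) + 1) := h2
    _ ≤ 2 / z := div_le_div_of_nonneg_left (by norm_num) (by linarith) (Nat.lt_floor_add_one z).le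

private lemma Eea_inv (z : ℝ) (L : ℕ) :
    ∑ p ∈ (Icc 1 L).filter (fun p : ℕ => p.Prime ∧ z < (p : ℝ)), 1 / (p : ℝ) ≤ 1 + Real.log L := by
  have h2 := harmonic_le_one_add_log L
  rw [harmonic_eq_sum_Icc] at h2
  push_cast at h2
  calc ∑ p ∈ (Icc 1 L).filter (fun p : ℕ => p.Prime ∧ z < (p : ℝ)), 1 / (p : ℝ)
      ≤ ∑ p ∈ Icc 1 L, 1 / (p : ℝ) :=
        Finset.sum_le_sum_of_subset_of_nonneg (filter_subset _ _) fun _ _ _ => by positivity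
    _ = ∑ p ∈ Icc 1 L, ((p : ℝ))⁻¹ := by simp only [one_div]
    _ ≤ 1 + Real.log L := h2

open Classical in
theorem tEea (h1 : EuuStmt) : EeaStmt := by
  intro X T z a R S M N P hSz hP
  obtain ⟨hT, hz, hR, hS, hN, hM, hRN, hX, hRS⟩ := id hSz
  have hT1 : 1 ≤ T := hT.1
  have hR' : (1 : ℝ) ≤ R := by exact_mod_cast hR
  have hS' : (1 : ℝ) ≤ S := by exact_mod_cast hS
  have hN' : (1 : ℝ) ≤ N := by exact_mod_cast hN
  have hM' : (8 : ℝ) ≤ M := by exact_mod_cast hM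
  have hz0 : 0 < z := by linarith
  have hR0 : (0 : ℝ) < R := by linarith
  have hX2 : 2 * (S : ℝ) ≤ X := by
    refine le_trans ?_ hX
    have e1 : (S : ℝ) ≤ (S : ℝ) ^ 4 := le_self_pow₀ hS' (by norm_num)
    have e2 : (1 : ℝ) ≤ (N : ℝ) ^ 2 := one_le_pow₀ hN'
    have e3 : (1 : ℝ) ≤ (M : ℝ) ^ 2 := one_le_pow₀ (by linarith)
    have e4 : (1 : ℝ) ≤ (R : ℝ) ^ 2 := one_le_pow₀ hR'
    calc 2 * (S : ℝ) ≤ 100 * 1 * 1 * 1 * S := by linarith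
      _ ≤ 100 * (M : ℝ) ^ 2 * (N : ℝ) ^ 2 * (R : ℝ) ^ 2 * (S : ℝ) ^ 4 := by gcongr
  set Q : Finset ℕ := (Icc 1 (2 * S)).filter (fun p : ℕ => p.Prime ∧ z < (p : ℝ)) with hQ
  -- the count u
  set u : ℕ → ℕ → ℕ → ℕ → ℝ := fun m r p n =>
    (((Ioc S (2 * S)).filter (fun s => (r, s) ∈ P ∧ p ∣ s ∧
      ((r * s : ℕ) : ℤ) ∣ ((m * n : ℕ) : ℤ) - a)).card : ℝ) with hu
  have hu0 : ∀ m r p n, 0 ≤ u m r p n := fun m r p n => Nat.cast_nonneg _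
  -- termwise
  have hterm : ∀ m r n1 n2 : ℕ,
      ∑ s1 ∈ Ioc S (2 * S), ∑ s2 ∈ Ioc S (2 * S),
      (if Bd a P r s1 s2 n1 n2 then D1 a r s1 (m * n1) * D1 a r s2 (m * n2) else 0) ≤
      ∑ p ∈ Q, (if ((r * p : ℕ) : ℤ) ∣ (n2 : ℤ) - n1 then u m r p n1 * u m r p n2 else 0) := by
    intro m r n1 n2
    have e1 : ∀ s1 ∈ Ioc S (2 * S), ∀ s2 ∈ Ioc S (2 * S),
        (if Bd a P r s1 s2 n1 n2 then D1 a r s1 (m * n1) * D1 a r s2 (m * n2) else 0) ≤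
        ∑ p ∈ Q, (if ((r * p : ℕ) : ℤ) ∣ (n2 : ℤ) - n1 then
          (if ((r, s1) ∈ P ∧ p ∣ s1 ∧ ((r * s1 : ℕ) : ℤ) ∣ ((m * n1 : ℕ) : ℤ) - a) then (1 : ℝ) else 0) *
          (if ((r, s2) ∈ P ∧ p ∣ s2 ∧ ((r * s2 : ℕ) : ℤ) ∣ ((m * n2 : ℕ) : ℤ) - a) then (1 : ℝ) else 0)
          else 0) := by
      intro s1 hs1 s2 hs2
      have hnn : ∀ p ∈ Q, (0 : ℝ) ≤ (if ((r * p : ℕ) : ℤ) ∣ (n2 : ℤ) - n1 then
          (if ((r, s1) ∈ P ∧ p ∣ s1 ∧ ((r * s1 : ℕ) : ℤ) ∣ ((m * n1 : ℕ) : ℤ) - a) then (1 : ℝ) else 0) *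
          (if ((r, s2) ∈ P ∧ p ∣ s2 ∧ ((r * s2 : ℕ) : ℤ) ∣ ((m * n2 : ℕ) : ℤ) - a) then (1 : ℝ) else 0)
          else 0) := by
        intro p _
        split_ifs <;> simp
      by_cases hB : Bd a P r s1 s2 n1 n2
      · rw [if_pos hB]
        unfold D1
        by_cases ha : ((r * s1 : ℕ) : ℤ) ∣ ((m * n1 : ℕ) : ℤ) - a
        · by_cases hb' : ((r * s2 : ℕ) : ℤ) ∣ ((m * n2 : ℕ) : ℤ) - a
          · obtain ⟨p, hp, hzp, hp1, hp2, hd⟩ := Eea_ar hP hB ha hb'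
            rw [mem_Ioc] at hs1
            have hpQ : p ∈ Q := by
              rw [hQ, mem_filter, mem_Icc]
              exact ⟨⟨hp.one_lt.le, (Nat.le_of_dvd (by omega) hp1).trans hs1.2⟩, hp, hzp⟩
            refine le_trans ?_ (Finset.single_le_sum hnn hpQ)
            rw [if_pos ha, if_pos hb', if_pos hd, if_pos ⟨hB.1, hp1, ha⟩, if_pos ⟨hB.2.1, hp2, hb'⟩]
          · rw [if_neg hb', mul_zero]
            exact Finset.sum_nonneg hnn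
        · rw [if_neg ha, zero_mul]
          exact Finset.sum_nonneg hnn
      · rw [if_neg hB]
        exact Finset.sum_nonneg hnn
    refine (Finset.sum_le_sum fun s1 hs1 => Finset.sum_le_sum fun s2 hs2 => e1 s1 hs1 s2 hs2).trans ?_
    have e2 : ∀ s1 ∈ Ioc S (2 * S), ∑ s2 ∈ Ioc S (2 * S), ∑ p ∈ Q,
        (if ((r * p : ℕ) : ℤ) ∣ (n2 : ℤ) - n1 then
          (if ((r, s1) ∈ P ∧ p ∣ s1 ∧ ((r * s1 : ℕ) : ℤ) ∣ ((m * n1 : ℕ) : ℤ) - a) then (1 : ℝ) else 0) *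
          (if ((r, s2) ∈ P ∧ p ∣ s2 ∧ ((r * s2 : ℕ) : ℤ) ∣ ((m * n2 : ℕ) : ℤ) - a) then (1 : ℝ) else 0)
          else 0) = ∑ p ∈ Q, ∑ s2 ∈ Ioc S (2 * S),
        (if ((r * p : ℕ) : ℤ) ∣ (n2 : ℤ) - n1 then
          (if ((r, s1) ∈ P ∧ p ∣ s1 ∧ ((r * s1 : ℕ) : ℤ) ∣ ((m * n1 : ℕ) : ℤ) - a) then (1 : ℝ) else 0) *
          (if ((r, s2) ∈ P ∧ p ∣ s2 ∧ ((r * s2 : ℕ) : ℤ) ∣ ((m * n2 : ℕ) : ℤ) - a) then (1 : ℝ) else 0)
          else 0) := fun s1 _ => Finset.sum_comm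
    rw [Finset.sum_congr rfl e2, Finset.sum_comm]
    refine Finset.sum_le_sum fun p hp => ?_
    by_cases hd : ((r * p : ℕ) : ℤ) ∣ (n2 : ℤ) - n1
    · rw [if_pos hd]
      simp only [if_pos hd]
      rw [hu]
      simp only
      rw [Finset.card_filter, Finset.card_filter]
      push_cast
      rw [Finset.sum_mul_sum]
    · rw [if_neg hd]
      simp only [if_neg hd, Finset.sum_const_zero, le_refl]
  -- sum over n1, n2 for fixed m, r, p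
  have hsym : ∀ m r p : ℕ, R < r → 1 ≤ p →
      ∑ n1 ∈ Ioc N (2 * N), ∑ n2 ∈ Ioc N (2 * N),
        (if ((r * p : ℕ) : ℤ) ∣ (n2 : ℤ) - n1 then u m r p n1 * u m r p n2 else 0) ≤
      ((N : ℝ) / (R * p) + 1) * ∑ n ∈ Ioc N (2 * N), u m r p n ^ 2 := by
    intro m r p hr hp
    refine Eea_sym (Ioc N (2 * N)) (fun n1 n2 => ((r * p : ℕ) : ℤ) ∣ (n2 : ℤ) - n1) ?_ (u m r p) _ ?_
    · intro x y h
      have := dvd_neg.2 h
      rwa [neg_sub] at this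
    · intro n1 _
      have f1 : 1 ≤ r * p := Nat.one_le_iff_ne_zero.2 (Nat.mul_ne_zero (by omega) (by omega))
      refine (Eea_cnt (r * p) N n1 f1).trans ?_
      have hp' : (1 : ℝ) ≤ p := by exact_mod_cast hp
      have f2 : (R : ℝ) * p ≤ ((r * p : ℕ) : ℝ) := by
        push_cast
        have f3 : (R : ℝ) ≤ r := by exact_mod_cast hr.le
        exact mul_le_mul_of_nonneg_right f3 (by linarith)
      have f4 : (N : ℝ) / ((r * p : ℕ) : ℝ) ≤ (N : ℝ) / ((R : ℝ) * p) :=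
        div_le_div_of_nonneg_left (Nat.cast_nonneg _) (by positivity) f2
      linarith
  -- the whole sum
  have hbig : ∑ m ∈ Icc (M / 2) (3 * M), ∑ r ∈ Ioc R (2 * R), ∑ s1 ∈ Ioc S (2 * S), ∑ s2 ∈ Ioc S (2 * S),
      ∑ n1 ∈ Ioc N (2 * N), ∑ n2 ∈ Ioc N (2 * N),
      (if Bd a P r s1 s2 n1 n2 then D1 a r s1 (m * n1) * D1 a r s2 (m * n2) else 0) ≤
      ∑ p ∈ Q, ((N : ℝ) / (R * p) + 1) * (28 * T ^ 2 * ((M : ℝ) * N) / p) := by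
    have e1 : ∀ m ∈ Icc (M / 2) (3 * M), ∀ r ∈ Ioc R (2 * R),
        ∑ s1 ∈ Ioc S (2 * S), ∑ s2 ∈ Ioc S (2 * S), ∑ n1 ∈ Ioc N (2 * N), ∑ n2 ∈ Ioc N (2 * N),
        (if Bd a P r s1 s2 n1 n2 then D1 a r s1 (m * n1) * D1 a r s2 (m * n2) else 0) ≤
        ∑ p ∈ Q, ((N : ℝ) / (R * p) + 1) * ∑ n ∈ Ioc N (2 * N), u m r p n ^ 2 := by
      intro m _ r hr
      rw [mem_Ioc] at hr
      have e2 : ∑ s1 ∈ Ioc S (2 * S), ∑ s2 ∈ Ioc S (2 * S), ∑ n1 ∈ Ioc N (2 * N), ∑ n2 ∈ Ioc N (2 * N),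
          (if Bd a P r s1 s2 n1 n2 then D1 a r s1 (m * n1) * D1 a r s2 (m * n2) else 0) =
          ∑ n1 ∈ Ioc N (2 * N), ∑ n2 ∈ Ioc N (2 * N), ∑ s1 ∈ Ioc S (2 * S), ∑ s2 ∈ Ioc S (2 * S),
          (if Bd a P r s1 s2 n1 n2 then D1 a r s1 (m * n1) * D1 a r s2 (m * n2) else 0) := by
        rw [← Finset.sum_product', ← Finset.sum_product', ← Finset.sum_product']
        rw [← Finset.sum_product', ← Finset.sum_product', ← Finset.sum_product']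
        refine Finset.sum_bij' (fun w _ => (((w.1.2, w.2), w.1.1.1), w.1.1.2))
          (fun w _ => (((w.1.2, w.2), w.1.1.1), w.1.1.2)) ?_ ?_ ?_ ?_ ?_
        · rintro ⟨⟨⟨x, y⟩, c⟩, d⟩ h
          simp only [mem_product] at h ⊢
          tauto
        · rintro ⟨⟨⟨x, y⟩, c⟩, d⟩ h
          simp only [mem_product] at h ⊢
          tauto
        · rintro ⟨⟨⟨x, y⟩, c⟩, d⟩ _
          rfl
        · rintro ⟨⟨⟨x, y⟩, c⟩, d⟩ _
          rfl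
        · rintro ⟨⟨⟨x, y⟩, c⟩, d⟩ _
          rfl
      rw [e2]
      refine (Finset.sum_le_sum fun n1 _ => Finset.sum_le_sum fun n2 _ => hterm m r n1 n2).trans ?_
      have e3 : ∑ n1 ∈ Ioc N (2 * N), ∑ n2 ∈ Ioc N (2 * N), ∑ p ∈ Q,
          (if ((r * p : ℕ) : ℤ) ∣ (n2 : ℤ) - n1 then u m r p n1 * u m r p n2 else 0) =
          ∑ p ∈ Q, ∑ n1 ∈ Ioc N (2 * N), ∑ n2 ∈ Ioc N (2 * N),
          (if ((r * p : ℕ) : ℤ) ∣ (n2 : ℤ) - n1 then u m r p n1 * u m r p n2 else 0) := by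
        symm
        rw [Finset.sum_comm]
        refine Finset.sum_congr rfl fun n1 _ => ?_
        rw [Finset.sum_comm]
      rw [e3]
      refine Finset.sum_le_sum fun p hp => ?_
      rw [hQ, mem_filter, mem_Icc] at hp
      exact hsym m r p hr.1 hp.1.1
    refine (Finset.sum_le_sum fun m hm => Finset.sum_le_sum fun r hr => e1 m hm r hr).trans ?_
    have e4 : ∑ m ∈ Icc (M / 2) (3 * M), ∑ r ∈ Ioc R (2 * R),
        ∑ p ∈ Q, ((N : ℝ) / (R * p) + 1) * ∑ n ∈ Ioc N (2 * N), u m r p n ^ 2 =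
        ∑ p ∈ Q, ((N : ℝ) / (R * p) + 1) * ∑ r ∈ Ioc R (2 * R), ∑ m ∈ Icc (M / 2) (3 * M),
          ∑ n ∈ Ioc N (2 * N), u m r p n ^ 2 := by
      rw [Finset.sum_comm]
      have e5 : ∀ r ∈ Ioc R (2 * R), ∑ m ∈ Icc (M / 2) (3 * M),
          ∑ p ∈ Q, ((N : ℝ) / (R * p) + 1) * ∑ n ∈ Ioc N (2 * N), u m r p n ^ 2 =
          ∑ p ∈ Q, ∑ m ∈ Icc (M / 2) (3 * M),
            ((N : ℝ) / (R * p) + 1) * ∑ n ∈ Ioc N (2 * N), u m r p n ^ 2 :=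
        fun r _ => Finset.sum_comm
      rw [Finset.sum_congr rfl e5, Finset.sum_comm]
      refine Finset.sum_congr rfl fun p _ => ?_
      rw [Finset.mul_sum]
      refine Finset.sum_congr rfl fun r _ => ?_
      rw [Finset.mul_sum]
    rw [e4]
    refine Finset.sum_le_sum fun p hp => ?_
    rw [hQ, mem_filter, mem_Icc] at hp
    have hp1 : (1 : ℝ) ≤ p := by exact_mod_cast hp.1.1
    have hp0 : (0 : ℝ) < p := by linarith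
    refine mul_le_mul_of_nonneg_left ?_ (by positivity)
    have e6 : ∀ r ∈ Ioc R (2 * R), ∑ m ∈ Icc (M / 2) (3 * M), ∑ n ∈ Ioc N (2 * N), u m r p n ^ 2 ≤
        T * (24 * T * ((M : ℝ) * N) / ((R : ℝ) * p) + 4 * (S : ℝ) ^ 2 / (p : ℝ) ^ 2) := by
      intro r hr
      rw [mem_Ioc] at hr
      exact h1 X T z a R S M N r p P hSz hP hr.1 hr.2 hp.1.1
    refine (Finset.sum_le_sum e6).trans ?_
    rw [Finset.sum_const, nsmul_eq_mul, Nat.card_Ioc]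
    have e7 : ((2 * R - R : ℕ) : ℝ) = R := by
      have : 2 * R - R = R := by omega
      rw [this]
    rw [e7]
    have hRS' : (R : ℝ) * (S : ℝ) ^ 2 ≤ (M : ℝ) * N := by exact_mod_cast hRS
    have e8 : (R : ℝ) * (T * (24 * T * ((M : ℝ) * N) / ((R : ℝ) * p) + 4 * (S : ℝ) ^ 2 / (p : ℝ) ^ 2)) =
        24 * T ^ 2 * ((M : ℝ) * N) / p + T * (4 * ((R : ℝ) * (S : ℝ) ^ 2) / (p : ℝ) ^ 2) := by
      field_simp
    rw [e8]
    have e9 : T * (4 * ((R : ℝ) * (S : ℝ) ^ 2) / (p : ℝ) ^ 2) ≤ T ^ 2 * (4 * ((M : ℝ) * N) / p) := by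
      have g1 : T ≤ T ^ 2 := le_self_pow₀ hT1 (by norm_num)
      have g2 : 4 * ((R : ℝ) * (S : ℝ) ^ 2) / (p : ℝ) ^ 2 ≤ 4 * ((M : ℝ) * N) / p := by
        have g3 : (p : ℝ) ≤ (p : ℝ) ^ 2 := le_self_pow₀ hp1 (by norm_num)
        exact div_le_div₀ (by positivity) (by linarith) hp0 g3
      exact mul_le_mul g1 g2 (by positivity) (by positivity)
    have e10 : 28 * T ^ 2 * ((M : ℝ) * N) / p = 24 * T ^ 2 * ((M : ℝ) * N) / p +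
        T ^ 2 * (4 * ((M : ℝ) * N) / p) := by ring
    rw [e10]
    linarith
  refine hbig.trans ?_
  have hA := Eea_isq z hz (2 * S)
  have hB := Eea_inv z (2 * S)
  have hlog : 1 + Real.log ((2 * S : ℕ) : ℝ) ≤ T := by
    refine le_trans ?_ hT.2.1
    have : Real.log ((2 * S : ℕ) : ℝ) ≤ Real.log X := by
      refine Real.log_le_log (by push_cast; linarith) ?_
      push_cast
      exact hX2
    linarith
  have e11 : ∑ p ∈ Q, ((N : ℝ) / (R * p) + 1) * (28 * T ^ 2 * ((M : ℝ) * N) / p) =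
      28 * T ^ 2 * ((M : ℝ) * N) * ((N : ℝ) / R * (∑ p ∈ Q, 1 / (p : ℝ) ^ 2) + ∑ p ∈ Q, 1 / (p : ℝ)) := by
    rw [Finset.mul_sum, ← Finset.sum_add_distrib, Finset.mul_sum]
    refine Finset.sum_congr rfl fun p hp => ?_
    rw [hQ, mem_filter, mem_Icc] at hp
    have hp1 : (1 : ℝ) ≤ p := by exact_mod_cast hp.1.1
    have hp0 : (p : ℝ) ≠ 0 := by linarith
    field_simp
  rw [e11]
  have e12 : (N : ℝ) / R * (∑ p ∈ Q, 1 / (p : ℝ) ^ 2) + ∑ p ∈ Q, 1 / (p : ℝ) ≤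
      (N : ℝ) / R * (2 / z) + T := by
    have := mul_le_mul_of_nonneg_left hA (show (0 : ℝ) ≤ (N : ℝ) / R by positivity)
    linarith
  refine (mul_le_mul_of_nonneg_left e12 (by positivity)).trans ?_
  set V : ℝ := (N : ℝ) / ((R : ℝ) * z) with hV
  have hV0 : 0 ≤ V := by positivity
  have e13 : (N : ℝ) / R * (2 / z) = 2 * V := by
    rw [hV]
    field_simp
  rw [e13]
  have hMN : 0 ≤ (M : ℝ) * N := by positivity
  have g2 : T ^ 2 ≤ T ^ 5 := pow_le_pow_right₀ hT1 (by norm_num)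
  have g3 : T ^ 3 ≤ T ^ 5 := pow_le_pow_right₀ hT1 (by norm_num)
  calc 28 * T ^ 2 * ((M : ℝ) * N) * (2 * V + T) = ((M : ℝ) * N) * (56 * (T ^ 2 * V) + 28 * T ^ 3) := by ring
    _ ≤ ((M : ℝ) * N) * (60 * (T ^ 5 * V) + 60 * T ^ 5) := by
        refine mul_le_mul_of_nonneg_left ?_ hMN
        have g4 : T ^ 2 * V ≤ T ^ 5 * V := mul_le_mul_of_nonneg_right g2 hV0
        have g5 : 0 ≤ T ^ 5 * V := by positivity
        have g6 : 0 ≤ T ^ 5 := by positivity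
        linarith
    _ = 60 * T ^ 5 * ((M : ℝ) * N * (1 + V)) := by ring

end Pool.Agent.Lib.MJ
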