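import Pool.Agent.Lib.MJ.SpecE
import Pool.Agent.Lib.MI.T1Gsa

/-! MP_00e23e_nt, Lib/MJ, module Egc: sums of 1/lcm. -/

namespace Pool.Agent.Lib.MJ

open Finset Pool.Agent.Lib.EH3 Pool.Agent.Lib.TB Pool.Agent.Results.MP_00e23e_nt Pool.Agent.Lib.MI

private theorem Egc_re (S p : ℕ) (hp : 1 ≤ p) (g : ℕ → ℝ) (hg : ∀ u, 0 ≤ g u) :
    ∑ s ∈ (Ioc S (2 * S)).filter (fun s => p ∣ s), g (s / p) ≤ ∑ u ∈ Icc 1 (2 * S / p), g u := by
  have hinj : Set.InjOn (fun s : ℕ => s / p) ((Ioc S (2 * S)).filter (fun s => p ∣ s) : Set ℕ) := by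
    intro s hs s' hs' h
    have h1 := (Finset.mem_filter.1 hs).2
    have h2 := (Finset.mem_filter.1 hs').2
    have h3 : s / p = s' / p := h
    rw [← Nat.div_mul_cancel h1, ← Nat.div_mul_cancel h2, h3]
  rw [← Finset.sum_image (g := fun s : ℕ => s / p) (f := g) hinj]
  refine Finset.sum_le_sum_of_subset_of_nonneg ?_ fun u _ _ => hg u
  intro u hu
  obtain ⟨s, hs, rfl⟩ := Finset.mem_image.1 hu
  obtain ⟨hs1, hs2⟩ := Finset.mem_filter.1 hs
  rw [Finset.mem_Ioc] at hs1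
  rw [Finset.mem_Icc]
  refine ⟨?_, Nat.div_le_div_right hs1.2⟩
  exact Nat.div_pos (Nat.le_of_dvd (by omega) hs2) (by omega)

private theorem Egc_lcm (S p s s' : ℕ) (hp : 1 ≤ p) (hS : 1 ≤ S) (h1 : p ∣ s) (h2 : p ∣ s')
    (hs : S < s) (hs' : S < s') :
    1 / ((Nat.lcm s s' : ℕ) : ℝ) ≤ (p : ℝ) / (S : ℝ) ^ 2 * (Nat.gcd (s / p) (s' / p) : ℝ) := by
  have hS0 : (0 : ℝ) < S := by exact_mod_cast hS
  have hl : 0 < Nat.lcm s s' := Nat.lcm_pos (by omega) (by omega)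
  have hl0 : (0 : ℝ) < (Nat.lcm s s' : ℕ) := by exact_mod_cast hl
  have e1 : Nat.gcd s s' = p * Nat.gcd (s / p) (s' / p) := by
    obtain ⟨a, rfl⟩ := h1
    obtain ⟨b, rfl⟩ := h2
    rw [Nat.mul_div_cancel_left a (by omega), Nat.mul_div_cancel_left b (by omega),
      Nat.gcd_mul_left]
  have e2 : (Nat.gcd s s' : ℝ) * (Nat.lcm s s' : ℕ) = (s : ℝ) * s' := by
    exact_mod_cast Nat.gcd_mul_lcm s s'
  have e3 : (Nat.gcd s s' : ℝ) = (p : ℝ) * (Nat.gcd (s / p) (s' / p) : ℝ) := by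
    rw [e1]
    push_cast
    rfl
  have h3 : (S : ℝ) ^ 2 ≤ (s : ℝ) * s' := by
    have a1 : (S : ℝ) ≤ s := by exact_mod_cast hs.le
    have a2 : (S : ℝ) ≤ s' := by exact_mod_cast hs'.le
    rw [sq]
    exact mul_le_mul a1 a2 hS0.le (hS0.le.trans a1)
  rw [div_le_iff₀ hl0, div_mul_eq_mul_div, div_mul_eq_mul_div, le_div_iff₀ (by positivity), one_mul,
    ← e3, e2]
  exact h3

theorem tEgc : EgcStmt := by
  intro X T S p hT hp hX
  obtain ⟨hT1, -, hT3⟩ := hT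
  have hp0 : (0 : ℝ) < p := by exact_mod_cast hp
  rcases Nat.eq_zero_or_pos S with hS | hS
  · subst hS
    simp only [Nat.mul_zero, Finset.Ioc_self, Finset.filter_empty, Finset.sum_empty]
    positivity
  have hS0 : (0 : ℝ) < S := by exact_mod_cast hS
  set U : ℕ := 2 * S / p with hU
  have hUr : (U : ℝ) ≤ 2 * S / p := by
    have := Nat.cast_div_le (m := 2 * S) (n := p) (α := ℝ)
    push_cast at this
    exact this
  have h1 : ∀ s ∈ (Ioc S (2 * S)).filter (fun s => p ∣ s),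
      ∑ s' ∈ (Ioc S (2 * S)).filter (fun s => p ∣ s), 1 / ((Nat.lcm s s' : ℕ) : ℝ) ≤
        (p : ℝ) / (S : ℝ) ^ 2 * (U * T) := by
    intro s hs
    obtain ⟨hs1, hs2⟩ := Finset.mem_filter.1 hs
    rw [Finset.mem_Ioc] at hs1
    have hsp : 1 ≤ s / p := Nat.div_pos (Nat.le_of_dvd (by omega) hs2) (by omega)
    have h2 : ∀ s' ∈ (Ioc S (2 * S)).filter (fun s => p ∣ s), 1 / ((Nat.lcm s s' : ℕ) : ℝ) ≤
        (p : ℝ) / (S : ℝ) ^ 2 * (Nat.gcd (s / p) (s' / p) : ℝ) := by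
      intro s' hs'
      obtain ⟨hs1', hs2'⟩ := Finset.mem_filter.1 hs'
      rw [Finset.mem_Ioc] at hs1'
      exact Egc_lcm S p s s' hp hS hs2 hs2' hs1.1 hs1'.1
    refine (Finset.sum_le_sum h2).trans ?_
    rw [← Finset.mul_sum]
    refine mul_le_mul_of_nonneg_left ?_ (by positivity)
    have h3 := Egc_re S p hp (fun u => (Nat.gcd (s / p) u : ℝ)) (fun u => Nat.cast_nonneg _)
    refine h3.trans ?_
    have h4 := (tT1Gsa ((s / p : ℕ) : ℤ) (by exact_mod_cast (by omega : s / p ≠ 0))).2 U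
    simp only [Int.natAbs_natCast, Int.gcd_natCast_natCast] at h4
    refine h4.trans ?_
    refine mul_le_mul_of_nonneg_left ?_ (Nat.cast_nonneg _)
    refine hT3 (s / p) hsp (le_trans ?_ hX)
    have h5 : s / p ≤ 2 * S := (Nat.div_le_self s p).trans hs1.2
    exact_mod_cast h5
  refine (Finset.sum_le_sum h1).trans ?_
  have h6 := Egc_re S p hp (fun _ => (p : ℝ) / (S : ℝ) ^ 2 * (U * T)) (fun u => by positivity)
  refine h6.trans ?_
  rw [Finset.sum_const, Nat.card_Icc, Nat.add_sub_cancel, nsmul_eq_mul]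
  calc (U : ℝ) * ((p : ℝ) / (S : ℝ) ^ 2 * (U * T)) = (U : ℝ) ^ 2 * ((p : ℝ) / (S : ℝ) ^ 2 * T) := by
        ring
    _ ≤ (2 * S / p) ^ 2 * ((p : ℝ) / (S : ℝ) ^ 2 * T) :=
        mul_le_mul_of_nonneg_right (pow_le_pow_left₀ (Nat.cast_nonneg _) hUr 2) (by positivity)
    _ = 4 * T / p := by
        field_simp
        ring

end Pool.Agent.Lib.MJ
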