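import Pool.Agent.Lib.MJ.SpecG

/-! MP_00e23e_nt, Lib/MI, chapter F, module Fps: the first assertion for large x. -/

namespace Pool.Agent.Lib.MJ

open Finset Pool.Agent.Lib.EH3 Pool.Agent.Lib.TB Pool.Agent.Results.MP_00e23e_nt Pool.Agent.Lib.MI

private lemma Fps_class (α τ κ κ0 η1 C1 x1 : ℝ)
    (hF : ∀ (x : ℝ) (a : ℤ) (Y : ℕ) (F : Finset ℕ) (t : ℕ → ℕ), x1 ≤ x → (Y : ℝ) ≤ x →
      (∀ q ∈ F, Md α τ κ κ0 x (t q) q ∧ Int.gcd a q = 1) → ∑ q ∈ F, |df Y q (t q) a| ≤ C1 * x ^ (1 - η1))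
    (x : ℝ) (s : ℕ → ℤ) (t : ℕ → ℕ) (M : Finset ℕ) (Y : ℕ) (hx : x1 ≤ x) (hY : (Y : ℝ) ≤ x)
    (hM : ∀ d ∈ M, Md α τ κ κ0 x (t d) d ∧ Int.gcd (s d) d = 1) :
    ∑ d ∈ M, |df Y d (t d) (s d)| ≤ ((M.image s).card : ℝ) * (C1 * x ^ (1 - η1)) := by
  classical
  rw [← Finset.sum_fiberwise_of_maps_to (s := M) (t := M.image s)
    (g := s) (fun d hd => Finset.mem_image_of_mem _ hd)]
  have key : ∀ w ∈ M.image s,
      ∑ d ∈ M.filter (fun d => s d = w), |df Y d (t d) (s d)| ≤ C1 * x ^ (1 - η1) := by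
    intro w _
    have h3 := hF x w Y (M.filter (fun d => s d = w)) t hx hY (by
      intro q hq
      obtain ⟨hq1, hq2⟩ := Finset.mem_filter.1 hq
      rw [← hq2]
      exact hM q hq1)
    refine le_trans (le_of_eq ?_) h3
    apply Finset.sum_congr rfl
    intro q hq
    rw [(Finset.mem_filter.1 hq).2]
  refine (Finset.sum_le_sum key).trans ?_
  rw [Finset.sum_const, nsmul_eq_mul]

private lemma Fps_harm (x : ℝ) (hx : 3 ≤ x) (Z : ℝ) (hZ1 : 0 ≤ Z) (hZ : Z ≤ x) :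
    ∑ n ∈ Icc 1 ⌊Z⌋₊, 1 / (n : ℝ) ≤ 1 + Real.log x := by
  have h1 : ∑ n ∈ Icc 1 ⌊Z⌋₊, 1 / (n : ℝ) = ((harmonic ⌊Z⌋₊ : ℚ) : ℝ) := by
    rw [harmonic_eq_sum_Icc]
    push_cast
    apply Finset.sum_congr rfl
    intro n _
    rw [one_div]
  rw [h1]
  have h2 := harmonic_le_one_add_log ⌊Z⌋₊
  refine h2.trans ?_
  rcases Nat.eq_zero_or_pos ⌊Z⌋₊ with h0 | h0
  · rw [h0]
    simp only [Nat.cast_zero, Real.log_zero, add_zero]
    have := Real.log_nonneg (show (1 : ℝ) ≤ x by linarith)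
    linarith
  · have h3 : ((⌊Z⌋₊ : ℕ) : ℝ) ≤ x := (Nat.floor_le hZ1).trans hZ
    have h4 := Real.log_le_log (by exact_mod_cast h0) h3
    linarith

private lemma Fps_second (h4 : FtnStmt) (η : ℝ) (hη : 0 < η) (hη' : η ≤ 1 / 10) (x : ℝ) (hx : 3 ≤ x) (G : ℕ)
    (hG : x ^ (2 * η) ≤ (G : ℝ)) (t : ℕ → ℕ) (M : Finset ℕ)
    (hM : ∀ d ∈ M, 1 ≤ d ∧ t d ∣ d ∧ (d : ℝ) ≤ x ∧ (t d : ℝ) ≤ x ^ ((1 : ℝ) / 3)) :
    ∑ d ∈ M, (x / ((G : ℝ) * (t d : ℝ)) + 2) / ((d / t d).totient : ℝ) ≤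
      (12 * (3 / η) ^ 3 + 12 * (3 / η) ^ 2) * x ^ (1 - η) := by
  have hx0 : 0 < x := by linarith
  have hx1 : 1 ≤ x := by linarith
  have hGpos : 0 < (G : ℝ) := lt_of_lt_of_le (Real.rpow_pos_of_pos hx0 _) hG
  have h5 := h4.2 x (x ^ ((1 : ℝ) / 3)) M t (fun n => x / ((G : ℝ) * (n : ℝ)) + 2) hx
    (fun n => by positivity) hM
  refine h5.trans ?_
  have hZ1 : (0 : ℝ) ≤ x ^ ((1 : ℝ) / 3) := (Real.rpow_pos_of_pos hx0 _).le
  have hZx : x ^ ((1 : ℝ) / 3) ≤ x := by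
    calc x ^ ((1 : ℝ) / 3) ≤ x ^ (1 : ℝ) := Real.rpow_le_rpow_of_exponent_le hx1 (by norm_num)
      _ = x := Real.rpow_one x
  have hsum : ∑ n ∈ Icc 1 ⌊x ^ ((1 : ℝ) / 3)⌋₊, (x / ((G : ℝ) * (n : ℝ)) + 2) ≤
      x ^ (1 - 2 * η) * (1 + Real.log x) + 2 * x ^ ((1 : ℝ) / 3) := by
    rw [Finset.sum_add_distrib, Finset.sum_const, nsmul_eq_mul, Nat.card_Icc]
    have e1 : ∑ n ∈ Icc 1 ⌊x ^ ((1 : ℝ) / 3)⌋₊, x / ((G : ℝ) * (n : ℝ)) =
        (x / G) * ∑ n ∈ Icc 1 ⌊x ^ ((1 : ℝ) / 3)⌋₊, 1 / (n : ℝ) := by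
      rw [Finset.mul_sum]
      apply Finset.sum_congr rfl
      intro n _
      rw [div_mul_div_comm, mul_one]
    have e2 : x / G ≤ x ^ (1 - 2 * η) := by
      rw [div_le_iff₀ hGpos]
      calc x = x ^ (1 - 2 * η) * x ^ (2 * η) := by
            rw [← Real.rpow_add hx0]
            norm_num
        _ ≤ x ^ (1 - 2 * η) * G := mul_le_mul_of_nonneg_left hG (Real.rpow_pos_of_pos hx0 _).le
    have e3 := Fps_harm x hx _ hZ1 hZx
    have e4 : (((⌊x ^ ((1 : ℝ) / 3)⌋₊ + 1 - 1 : ℕ) : ℝ)) ≤ x ^ ((1 : ℝ) / 3) := by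
      simpa using Nat.floor_le hZ1
    have e5 : (0 : ℝ) ≤ ∑ n ∈ Icc 1 ⌊x ^ ((1 : ℝ) / 3)⌋₊, 1 / (n : ℝ) :=
      Finset.sum_nonneg (fun n _ => by positivity)
    rw [e1]
    have e6 : (x / G) * ∑ n ∈ Icc 1 ⌊x ^ ((1 : ℝ) / 3)⌋₊, 1 / (n : ℝ) ≤ x ^ (1 - 2 * η) * (1 + Real.log x) :=
      mul_le_mul e2 e3 e5 (Real.rpow_pos_of_pos hx0 _).le
    linarith
  have hL1 : 1 ≤ Real.log x := by
    have h6 : Real.exp 1 ≤ x := by
      have := Real.exp_one_lt_d9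
      linarith
    have := Real.log_le_log (Real.exp_pos 1) h6
    rwa [Real.log_exp] at this
  have hL : Real.log x ≤ (3 / η) * x ^ (η / 3) := by
    have h7 := Real.log_le_rpow_div hx0.le (show 0 < η / 3 by positivity)
    calc Real.log x ≤ x ^ (η / 3) / (η / 3) := h7
      _ = (3 / η) * x ^ (η / 3) := by field_simp
  have hp : 0 < x ^ (η / 3) := Real.rpow_pos_of_pos hx0 _
  have hL2 : Real.log x ^ 2 ≤ (3 / η) ^ 2 * x ^ (2 * η / 3) := by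
    have e1 : Real.log x ^ 2 ≤ ((3 / η) * x ^ (η / 3)) ^ 2 := pow_le_pow_left₀ (by linarith) hL 2
    have e2 : x ^ (2 * η / 3) = (x ^ (η / 3)) ^ 2 := by
      rw [← Real.rpow_natCast, ← Real.rpow_mul hx0.le]
      congr 1
      push_cast
      ring
    rw [e2, ← mul_pow]
    exact e1
  have hL3 : Real.log x ^ 3 ≤ (3 / η) ^ 3 * x ^ η := by
    have e1 : Real.log x ^ 3 ≤ ((3 / η) * x ^ (η / 3)) ^ 3 := pow_le_pow_left₀ (by linarith) hL 3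
    have e2 : x ^ η = (x ^ (η / 3)) ^ 3 := by
      rw [← Real.rpow_natCast, ← Real.rpow_mul hx0.le]
      congr 1
      push_cast
      ring
    rw [e2, ← mul_pow]
    exact e1
  have hA : Real.log x ^ 2 * (x ^ (1 - 2 * η) * (1 + Real.log x)) ≤ 2 * (3 / η) ^ 3 * x ^ (1 - η) := by
    have hpp : 0 < x ^ (1 - 2 * η) := Real.rpow_pos_of_pos hx0 _
    calc Real.log x ^ 2 * (x ^ (1 - 2 * η) * (1 + Real.log x))
        ≤ Real.log x ^ 2 * (x ^ (1 - 2 * η) * (2 * Real.log x)) := by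
          apply mul_le_mul_of_nonneg_left _ (by positivity)
          apply mul_le_mul_of_nonneg_left _ hpp.le
          linarith
      _ = 2 * (x ^ (1 - 2 * η) * Real.log x ^ 3) := by ring
      _ ≤ 2 * (x ^ (1 - 2 * η) * ((3 / η) ^ 3 * x ^ η)) := by
          apply mul_le_mul_of_nonneg_left _ (by norm_num)
          exact mul_le_mul_of_nonneg_left hL3 hpp.le
      _ = 2 * (3 / η) ^ 3 * (x ^ (1 - 2 * η) * x ^ η) := by ring
      _ = 2 * (3 / η) ^ 3 * x ^ (1 - η) := by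
          rw [← Real.rpow_add hx0]
          congr 2
          ring
  have hB : Real.log x ^ 2 * (2 * x ^ ((1 : ℝ) / 3)) ≤ 2 * (3 / η) ^ 2 * x ^ (1 - η) := by
    have hpp : 0 < x ^ ((1 : ℝ) / 3) := Real.rpow_pos_of_pos hx0 _
    calc Real.log x ^ 2 * (2 * x ^ ((1 : ℝ) / 3))
        ≤ ((3 / η) ^ 2 * x ^ (2 * η / 3)) * (2 * x ^ ((1 : ℝ) / 3)) :=
          mul_le_mul_of_nonneg_right hL2 (by positivity)
      _ = 2 * (3 / η) ^ 2 * (x ^ (2 * η / 3) * x ^ ((1 : ℝ) / 3)) := by ring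
      _ = 2 * (3 / η) ^ 2 * x ^ (2 * η / 3 + 1 / 3) := by rw [← Real.rpow_add hx0]
      _ ≤ 2 * (3 / η) ^ 2 * x ^ (1 - η) := by
          apply mul_le_mul_of_nonneg_left _ (by positivity)
          exact Real.rpow_le_rpow_of_exponent_le hx1 (by linarith)
  calc 6 * Real.log x ^ 2 * ∑ n ∈ Icc 1 ⌊x ^ ((1 : ℝ) / 3)⌋₊, (x / ((G : ℝ) * (n : ℝ)) + 2)
      ≤ 6 * Real.log x ^ 2 * (x ^ (1 - 2 * η) * (1 + Real.log x) + 2 * x ^ ((1 : ℝ) / 3)) :=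
        mul_le_mul_of_nonneg_left hsum (by positivity)
    _ = 6 * (Real.log x ^ 2 * (x ^ (1 - 2 * η) * (1 + Real.log x)) +
          Real.log x ^ 2 * (2 * x ^ ((1 : ℝ) / 3))) := by ring
    _ ≤ 6 * (2 * (3 / η) ^ 3 * x ^ (1 - η) + 2 * (3 / η) ^ 2 * x ^ (1 - η)) := by
        apply mul_le_mul_of_nonneg_left _ (by norm_num)
        exact add_le_add hA hB
    _ = (12 * (3 / η) ^ 3 + 12 * (3 / η) ^ 2) * x ^ (1 - η) := by ring

theorem tFps (h1 : FpiStmt) (h3 : FgrStmt) (h4 : FtnStmt) : FpsStmt := by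
  intro α τ κ κ0 hα hτ0 hτ hcore hκ0 hκ
  obtain ⟨η1, C1, x1, hη1, hC1, hx1, hF⟩ := h1 α τ κ κ0 hα hτ0 hτ hcore hκ0 hκ
  set η : ℝ := min (η1 / 4) (1 / 10) with hηdef
  have hη : 0 < η := lt_min (by positivity) (by norm_num)
  have hη' : η ≤ 1 / 10 := min_le_right _ _
  have hη4 : 4 * η ≤ η1 := by
    have := min_le_left (η1 / 4) (1 / 10 : ℝ)
    rw [← hηdef] at this
    linarith
  refine ⟨η, 3 * C1 + (12 * (3 / η) ^ 3 + 12 * (3 / η) ^ 2), x1, hη, hη', by positivity, hx1, ?_⟩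
  intro x s t y M hx hcard hy hM
  have hx3 : 3 ≤ x := hx1.trans hx
  have hx0 : 0 < x := by linarith
  have hx1' : 1 ≤ x := by linarith
  set G : ℕ := ⌈x ^ (2 * η)⌉₊ with hGdef
  have hGle : x ^ (2 * η) ≤ (G : ℝ) := Nat.le_ceil _
  have hp1 : 1 ≤ x ^ (2 * η) := Real.one_le_rpow hx1' (by positivity)
  have hG1 : 1 ≤ G := by
    have : (1 : ℝ) ≤ (G : ℝ) := hp1.trans hGle
    exact_mod_cast this
  have hGup : (G : ℝ) + 1 ≤ 3 * x ^ (2 * η) := by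
    have := Nat.ceil_lt_add_one (show (0 : ℝ) ≤ x ^ (2 * η) by positivity)
    rw [← hGdef] at this
    linarith
  have hGpos : 0 < (G : ℝ) := by exact_mod_cast hG1
  have hMb : ∀ d ∈ M, 1 ≤ d ∧ t d ∣ d ∧ (d : ℝ) ≤ x ∧ (t d : ℝ) ≤ x ^ ((1 : ℝ) / 3) := by
    intro d hd
    have hd' := (hM d hd).1
    refine ⟨Nat.pos_of_ne_zero hd'.1.ne_zero, hd'.2.1, ?_, ?_⟩
    · refine hd'.2.2.1.trans ?_
      calc x ^ α ≤ x ^ (1 : ℝ) := Real.rpow_le_rpow_of_exponent_le hx1' (by linarith)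
        _ = x := Real.rpow_one x
    · exact hd'.2.2.2.1.trans (Real.rpow_le_rpow_of_exponent_le hx1' hτ)
  have hsum : ∑ d ∈ M, |df (y d) d (t d) (s d)| ≤
      ∑ d ∈ M, (∑ j ∈ range (G + 1), |df (⌊(j : ℝ) * x / G⌋₊ : ℝ) d (t d) (s d)| +
        (x / ((G : ℝ) * (t d : ℝ)) + 2) / ((d / t d).totient : ℝ)) := by
    apply Finset.sum_le_sum
    intro d hd
    exact h3 x (y d) G d (t d) (s d) (hy d).1 (hy d).2 hG1 (hMb d hd).1 (hMb d hd).2.1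
  refine hsum.trans ?_
  rw [Finset.sum_add_distrib, Finset.sum_comm]
  have hfirst : ∑ j ∈ range (G + 1), ∑ d ∈ M, |df (⌊(j : ℝ) * x / G⌋₊ : ℝ) d (t d) (s d)| ≤
      3 * C1 * x ^ (1 - η) := by
    have hj : ∀ j ∈ range (G + 1), ∑ d ∈ M, |df (⌊(j : ℝ) * x / G⌋₊ : ℝ) d (t d) (s d)| ≤
        x ^ η * (C1 * x ^ (1 - η1)) := by
      intro j hj
      have hj' : (j : ℝ) ≤ G := by
        have := Finset.mem_range.1 hj
        exact_mod_cast Nat.lt_succ_iff.1 this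
      have hjx : (⌊(j : ℝ) * x / G⌋₊ : ℝ) ≤ x := by
        have e1 : (⌊(j : ℝ) * x / G⌋₊ : ℝ) ≤ (j : ℝ) * x / G := Nat.floor_le (by positivity)
        refine e1.trans ?_
        rw [div_le_iff₀ hGpos, mul_comm]
        exact mul_le_mul_of_nonneg_left hj' hx0.le
      have e2 := Fps_class α τ κ κ0 η1 C1 x1 hF x s t M ⌊(j : ℝ) * x / G⌋₊ hx hjx hM
      exact e2.trans (mul_le_mul_of_nonneg_right hcard (by positivity))
    refine (Finset.sum_le_sum hj).trans ?_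
    rw [Finset.sum_const, nsmul_eq_mul, Finset.card_range]
    push_cast
    have hxe : 0 < x ^ η := Real.rpow_pos_of_pos hx0 _
    have hxe1 : 0 < x ^ (1 - η1) := Real.rpow_pos_of_pos hx0 _
    calc ((G : ℝ) + 1) * (x ^ η * (C1 * x ^ (1 - η1)))
        ≤ (3 * x ^ (2 * η)) * (x ^ η * (C1 * x ^ (1 - η1))) :=
          mul_le_mul_of_nonneg_right hGup (by positivity)
      _ = 3 * C1 * (x ^ (2 * η) * x ^ η * x ^ (1 - η1)) := by ring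
      _ = 3 * C1 * x ^ (2 * η + η + (1 - η1)) := by
          rw [← Real.rpow_add hx0, ← Real.rpow_add hx0]
      _ ≤ 3 * C1 * x ^ (1 - η) := by
          apply mul_le_mul_of_nonneg_left _ (by positivity)
          exact Real.rpow_le_rpow_of_exponent_le hx1' (by linarith)
  have hsecond := Fps_second h4 η hη hη' x hx3 G hGle t M hMb
  calc ∑ j ∈ range (G + 1), ∑ d ∈ M, |df (⌊(j : ℝ) * x / G⌋₊ : ℝ) d (t d) (s d)| +
        ∑ d ∈ M, (x / ((G : ℝ) * (t d : ℝ)) + 2) / ((d / t d).totient : ℝ)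
      ≤ 3 * C1 * x ^ (1 - η) + (12 * (3 / η) ^ 3 + 12 * (3 / η) ^ 2) * x ^ (1 - η) := add_le_add hfirst hsecond
    _ = (3 * C1 + (12 * (3 / η) ^ 3 + 12 * (3 / η) ^ 2)) * x ^ (1 - η) := by ring

end Pool.Agent.Lib.MJ
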