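import Pool.Agent.Lib.MJ.Stm

/-!
MP_00e23e_nt, directory Lib/MJ (THEOREM MI, version 4, architect helper34): the new modules. RULES. Module X: file
Pool/Agent/Lib/MJ/X.lean, first line `import Pool.Agent.Lib.MJ.SpecE`, then `namespace Pool.Agent.Lib.MJ` and
`open Finset Pool.Agent.Lib.EH3 Pool.Agent.Lib.TB Pool.Agent.Results.MP_00e23e_nt Pool.Agent.Lib.MI`
(MJ.Pr, MJ.Sz, MJ.DspStmt, ... win over MI.Pr, ...), private lemmas with names starting with X_, final theorem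
`theorem tX (h1 : AStmt) ... : XStmt`; the statements listed under Uses are hypotheses, in this order. The docstring contains
a complete proof. Tau, Dl, dl, GdC, Bd, D1, D2, Ph: Lib/MI/Defs.lean, Lib/MI/SpecD.lean. Never use congr!. Below 60 s.
-/

namespace Pool.Agent.Lib.MJ

open Finset Pool.Agent.Lib.EH3 Pool.Agent.Lib.TB Pool.Agent.Results.MP_00e23e_nt Pool.Agent.Lib.MI

/-- Module Ecn (theorem tEcn; number of pairs with product in a class). Uses: nothing.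
Proof. 8 ≤ M gives m ≥ 4 ≥ 1, n ≥ 1, k = m n with 1 ≤ k ≤ 6 M N. The pairs with the same k are at most τ(k) ≤ T (m ∣ k determines n, m ≥ 1). The number of k ∈ Icc 1 (6 M N)
with q ∣ k - a is ≤ 6 M N/q + 1 (as in the module Anm of Lib/MI). -/
def EcnStmt : Prop := ∀ (X T : ℝ) (M N q : ℕ) (a : ℤ), Tau X T → 1 ≤ q → 8 ≤ M → 1 ≤ N → 6 * (M : ℝ) * N ≤ X →
  (((Icc (M / 2) (3 * M) ×ˢ Ioc N (2 * N)).filter (fun w => (q : ℤ) ∣ ((w.1 * w.2 : ℕ) : ℤ) - a)).card : ℝ) ≤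
    T * (6 * ((M : ℝ) * N) / q + 1)

open Classical in
/-- Module Ena (theorem tEna; averages over m, n). Uses: EcnStmt.
Proof. Exchange the sums: the first is ∑_{w ∈ P} (number of (m,n) with w.1 w.2 ∣ m n - a) ≤ ∑_{w ∈ P} T (6 M N/(w.1 w.2) + 1) ≤ card P · T (6 M N/(R S) + 1), card P ≤ R S (P is contained in
Ioc R 2R × Ioc S 2S), R S ≤ R S^2 ≤ M N: ≤ 7 T M N. The second: at most R values r, r > R: R T (6 M N/R + 1) ≤ 7 T M N. -/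
def EnaStmt : Prop := ∀ (X T z : ℝ) (a : ℤ) (R S M N : ℕ) (P : Finset (ℕ × ℕ)), Sz X T z R S M N → Pr a R S z P →
  ∑ m ∈ Icc (M / 2) (3 * M), ∑ n ∈ Ioc N (2 * N),
    ((P.filter (fun w => ((w.1 * w.2 : ℕ) : ℤ) ∣ ((m * n : ℕ) : ℤ) - a)).card : ℝ) ≤ 7 * T * ((M : ℝ) * N) ∧
  ∑ m ∈ Icc (M / 2) (3 * M), ∑ n ∈ Ioc N (2 * N),
    (((P.image Prod.fst).filter (fun r : ℕ => (r : ℤ) ∣ ((m * n : ℕ) : ℤ) - a)).card : ℝ) ≤ 7 * T * ((M : ℝ) * N)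

/-- Module Egc (theorem tEgc; sums of 1/lcm). Uses: nothing. (MI.tT1Gsa : MI.T1GsaStmt in Lib/MI/T1Gsa.lean: ∑_{u ≤ U} gcd(Z,u) ≤ U τ(|Z|).)
Proof. s = p σ, s' = p σ', σ, σ' ≤ 2S/p (natural division), 1/lcm(s,s') = gcd(s,s')/(s s') ≤ p gcd(σ,σ')/S^2 (s, s' > S). ∑_{σ' ≤ U} gcd(σ,σ') ≤ U τ(σ) ≤ U T with U = 2S/p (T1Gsa), so the sum is
≤ (p/S^2) U^2 T ≤ (p/S^2) (2S/p)^2 T = 4T/p (S = 0: empty sum). -/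
def EgcStmt : Prop := ∀ (X T : ℝ) (S p : ℕ), Tau X T → 1 ≤ p → 2 * (S : ℝ) ≤ X →
  ∑ s ∈ (Ioc S (2 * S)).filter (fun s => p ∣ s), ∑ s' ∈ (Ioc S (2 * S)).filter (fun s => p ∣ s),
    1 / ((Nat.lcm s s' : ℕ) : ℝ) ≤ 4 * T / p

open Classical in
/-- Module Euu (theorem tEuu; the second moment for fixed r and p). Uses: EcnStmt, EgcStmt.
Proof. Expand the square: the sum over s, s' ∈ Ioc S 2S, p ∣ s, p ∣ s', (r,s), (r,s') ∈ P, of the number of (m,n) with r s ∣ m n - a and r s' ∣ m n - a; then r lcm(s,s') = lcm(r s, r s') divides m n - a. By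
Ecn: ≤ T (6 M N/(r lcm(s,s')) + 1), r > R. Egc: ∑ 1/lcm ≤ 4T/p. The number of the s ∈ Ioc S 2S with p ∣ s is ≤ 2S/p. Total ≤ T (24 T M N/(R p) + 4 S^2/p^2). -/
def EuuStmt : Prop := ∀ (X T z : ℝ) (a : ℤ) (R S M N r p : ℕ) (P : Finset (ℕ × ℕ)), Sz X T z R S M N →
  Pr a R S z P → R < r → r ≤ 2 * R → 1 ≤ p →
  ∑ m ∈ Icc (M / 2) (3 * M), ∑ n ∈ Ioc N (2 * N),
    (((Ioc S (2 * S)).filter (fun s => (r, s) ∈ P ∧ p ∣ s ∧ ((r * s : ℕ) : ℤ) ∣ ((m * n : ℕ) : ℤ) - a)).card : ℝ) ^ 2 ≤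
    T * (24 * T * ((M : ℝ) * N) / ((R : ℝ) * p) + 4 * (S : ℝ) ^ 2 / (p : ℝ) ^ 2)

open Classical in
/-- Module Eea (theorem tEea; both full). Uses: EuuStmt.
Proof. A nonzero term has r s1 ∣ m n1 - a, r s2 ∣ m n2 - a, (r,s1), (r,s2) ∈ P. gcd(a, r s_i) = 1, so m, n1 are coprime to r s1, m, n2 coprime to r s2, r ∣ m (n2 - n1), so r ∣ n2 - n1; by Pr everything in GdC holds except that
s1, s2 are coprime. So a prime p divides s1 and s2; z < p ≤ 2S; r p ∣ m (n2 - n1) (r p ∣ r s1, r p ∣ r s2), m coprime to r s1, so r p ∣ n2 - n1. Hence the sum is ≤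
∑_{p prime, z < p ≤ 2S} ∑_r ∑_m ∑_{n1,n2, r p ∣ n2 - n1} u(m n1) u(m n2), u(k) = #{s ∈ Ioc S 2S : (r,s) ∈ P, p ∣ s, r s ∣ k - a}. u u' ≤ (u^2 + u'^2)/2; by symmetry (n1, n2), and for every n1 the number of n2 ∈ Ioc N 2N with
r p ∣ n2 - n1 is ≤ N/(r p) + 1 ≤ N/(R p) + 1, it is ≤ ∑_p ∑_r (N/(R p) + 1) ∑_{m,n} u(m n)^2 ≤ ∑_p (N/(R p) + 1) T (24 T M N/p + 4 R S^2/p^2) (Euu, R values of r) ≤ ∑_p (N/(R p) + 1) 28 T^2 M N/p (R S^2 ≤ M N, p ≥ 1).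
∑_{p > z} 1/p^2 ≤ 2/z, ∑_{p ≤ 2S} 1/p ≤ 1 + log(2S) ≤ T (2S ≤ X). Total ≤ 28 T^2 M N (2N/(R z) + T) ≤ 60 T^5 M N (1 + N/(R z)). -/
def EeaStmt : Prop := ∀ (X T z : ℝ) (a : ℤ) (R S M N : ℕ) (P : Finset (ℕ × ℕ)), Sz X T z R S M N →
  Pr a R S z P →
  ∑ m ∈ Icc (M / 2) (3 * M), ∑ r ∈ Ioc R (2 * R), ∑ s1 ∈ Ioc S (2 * S), ∑ s2 ∈ Ioc S (2 * S),
    ∑ n1 ∈ Ioc N (2 * N), ∑ n2 ∈ Ioc N (2 * N),
      (if Bd a P r s1 s2 n1 n2 then D1 a r s1 (m * n1) * D1 a r s2 (m * n2) else 0) ≤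
    60 * T ^ 5 * ((M : ℝ) * N * (1 + N / ((R : ℝ) * z)))

open Classical in
/-- Module Eeb (theorem tEeb; first full, second averaged). Uses: EnaStmt, MI.DprStmt. (MODEL: Lib/MI/Deb.lean.)
Proof. As DebStmt of Lib/MI/SpecD.lean, with the number of (m, n1, (r, s1)), r s1 ∣ m n1 - a, bounded by 7 T M N (Ena). Total ≤ 7 T M N (N/R + 1) 2T/z ≤ 14 T^2 M N (1 + N/(R z)). -/
def EebStmt : Prop := ∀ (X T z : ℝ) (a : ℤ) (R S M N : ℕ) (P : Finset (ℕ × ℕ)), Sz X T z R S M N →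
  Pr a R S z P →
  ∑ m ∈ Icc (M / 2) (3 * M), ∑ r ∈ Ioc R (2 * R), ∑ s1 ∈ Ioc S (2 * S), ∑ s2 ∈ Ioc S (2 * S),
    ∑ n1 ∈ Ioc N (2 * N), ∑ n2 ∈ Ioc N (2 * N),
      (if Bd a P r s1 s2 n1 n2 then D1 a r s1 (m * n1) * D2 a r s2 (m * n2) else 0) ≤
    14 * T ^ 2 * ((M : ℝ) * N * (1 + N / ((R : ℝ) * z)))

open Classical in
/-- Module Eec (theorem tEec; both averaged). Uses: EnaStmt, MI.DprStmt. (MODEL: Lib/MI/Dec.lean.)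
Proof. As DecStmt of Lib/MI/SpecD.lean, with the number of (m, n1, r), r ∣ m n1 - a, r ∈ P.image fst, bounded by 7 T M N (Ena). Total ≤ 7 T M N (N/R + 1) 6T/z ≤ 42 T^2 M N (1 + N/(R z)). -/
def EecStmt : Prop := ∀ (X T z : ℝ) (a : ℤ) (R S M N : ℕ) (P : Finset (ℕ × ℕ)), Sz X T z R S M N →
  Pr a R S z P →
  ∑ m ∈ Icc (M / 2) (3 * M), ∑ r ∈ Ioc R (2 * R), ∑ s1 ∈ Ioc S (2 * S), ∑ s2 ∈ Ioc S (2 * S),
    ∑ n1 ∈ Ioc N (2 * N), ∑ n2 ∈ Ioc N (2 * N),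
      (if Bd a P r s1 s2 n1 n2 then D2 a r s1 (m * n1) * D2 a r s2 (m * n2) else 0) ≤
    42 * T ^ 2 * ((M : ℝ) * N * (1 + N / ((R : ℝ) * z)))

open Classical in
/-- Module Eba (theorem tEba; the bad terms). Uses: MI.DtrStmt, EeaStmt, EebStmt, EecStmt. (MODEL: Lib/MI/Dba.lean.)
Proof. As DbaStmt of Lib/MI/SpecD.lean: 4 (60 + 14 + 14 + 42) = 520. -/
def EbaStmt : Prop := ∀ (X T z : ℝ) (a : ℤ) (R S M N : ℕ) (P : Finset (ℕ × ℕ)), Sz X T z R S M N →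
  Pr a R S z P →
  ∑ r ∈ Ioc R (2 * R), ∑ s1 ∈ Ioc S (2 * S), ∑ s2 ∈ Ioc S (2 * S), ∑ n1 ∈ Ioc N (2 * N), ∑ n2 ∈ Ioc N (2 * N),
      (if Bd a P r s1 s2 n1 n2 then ‖Ph a M r s1 s2 n1 n2‖ else 0) ≤
    520 * T ^ 5 * ((M : ℝ) * N * (1 + N / ((R : ℝ) * z)))

/-- Module Efi (theorem tEfi). STATEMENT DspStmt (MJ/Stm.lean). Uses: MI.DcaStmt, MI.DexStmt, EbaStmt, MI.DgoStmt. (MODEL: Lib/MI/Dfi.lean.) C = 520, A = 5. -/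
def EfiStmt : Prop := DspStmt

open Classical in
/-- Module Brm (theorem tBrm; the sum of the remainders). Uses: MI.BphStmt. (MODEL: Lib/MI/Brm.lean; BV/Tot.lean: tTot : BV.TotStmt, ∑_{u ≤ D} 1/φ(u) ≤ (1 + log D)^2.)
Proof. For every t ≤ D the number of (m, n) ∈ Ioc M 2M × Ioc N 2N with t ∣ m n - a is ≤ T (4 M N/t + 1) (k = m n ≤ 4 M N, τ(k) ≤ T, the number of k ≤ 4 M N with t ∣ k - a is ≤ 4 M N/t + 1); sum over t ≤ D: ≤ T (4 M N T + D) ≤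
5 T^2 M N. For fixed t, m, n the sum over u ≤ D of 1/φ(u) is ≤ T^2, and the sum over s ≤ D with all primes > z of 2T^2/(z s) (Bph) + [m n, s not coprime]/s is ≤ (2T^3 + T^2)/z ≤ 3T^3/z (as in MI/Brm.lean: m n ≥ 1, m n ≤ X).
Total ≤ 15 T^7 M N/z ≤ 15 T^8 M N/z. -/
def BrmStmt : Prop := ∀ (X T z : ℝ) (a : ℤ) (D M N : ℕ) (G : Finset (ℕ × ℕ × ℕ)), Tau X T → 1 ≤ z →
  1 ≤ M → 1 ≤ N → (D : ℝ) ≤ X → 4 * (M : ℝ) * N ≤ X → D ≤ M * N →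
  (∀ w ∈ G, 1 ≤ w.1 ∧ 1 ≤ w.2.1 ∧ 1 ≤ w.2.2 ∧ w.1 ≤ D ∧ w.2.1 ≤ D ∧ w.2.2 ≤ D ∧
    ∀ p : ℕ, p.Prime → p ∣ w.2.2 → z < p) →
  ∑ w ∈ G, ∑ m ∈ Ioc M (2 * M), ∑ n ∈ Ioc N (2 * N),
    (if (w.1 : ℤ) ∣ ((m * n : ℕ) : ℤ) - a then 1 else 0) * (1 / (w.2.1.totient : ℝ)) *
      ((1 / (w.2.2.totient : ℝ) - 1 / (w.2.2 : ℝ)) + (if (m * n).Coprime w.2.2 then 0 else 1 / (w.2.2 : ℝ))) ≤
    15 * T ^ 8 * ((M : ℝ) * N / z)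

/-- Module Fpw (theorem tFpw; prime powers in a class on average over q). Uses: nothing.
Proof. Let c q = ∑_{n ∈ E, q ∣ n - a} g n. Cauchy: (∑_{q ∈ F} c q)^2 ≤ card F ∑_q (c q)^2 ≤ D ∑_{n,n' ∈ E} g n g n' #{q ∈ F : q ∣ n - a, q ∣ n' - a}; for n = n' the number is ≤ D, for n ≠ n' the q divide |n - n'| ≤ Y ≤ X, at most T of
them. So it is ≤ D (D ∑ g(n)^2 + T (∑ g)^2) ≤ D (D T W + T W^2) (g ≤ T). -/
def FpwStmt : Prop := ∀ (X T W : ℝ) (a : ℤ) (D Y : ℕ) (F E : Finset ℕ) (g : ℕ → ℝ), Tau X T → (Y : ℝ) ≤ X →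
  (∀ q ∈ F, 1 ≤ q ∧ q ≤ D) → E ⊆ Icc 1 Y → (∀ n, 0 ≤ g n) → (∀ n ∈ E, g n ≤ T) → ∑ n ∈ E, g n ≤ W →
  (∑ q ∈ F, ∑ n ∈ E, (if (q : ℤ) ∣ (n : ℤ) - a then g n else 0)) ^ 2 ≤
    (D : ℝ) * ((D : ℝ) * T * W + T * W ^ 2)

/-- Module Fth (theorem tFth; from Λ to the primes with weights log p). Uses: MI.FtpStmt, MI.FtnStmt, MI.AtuStmt, FpwStmt. (MODEL: Lib/MI/Fth.lean.)
Proof. As FthStmt of Lib/MI/SpecF.lean. First part: E = the non-primes of Icc 1 Y, g = Λ ≤ log Y ≤ T (Y ≤ x), W = C √x (log x)^2 (Ftp), D = ⌊x^(3/5)⌋, T = C x^(1/100) (Atu, e = 1/100, A = 1): Fpw gives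
∑_q ∑_{n ∈ E, q ∣ n - a} Λ(n) ≤ (D^2 T W + D T W^2)^(1/2) ≤ C x^(17/20 + 1/50) ≤ C x^(9/10) (6/5 + 1/2 = 17/10; 3/5 + 1 = 8/5). Second part as there. η = min(η1, 1/10). -/
def FthStmt : Prop := ∀ α τ κ κ0 : ℝ, α ≤ 3 / 5 → 0 ≤ τ → τ ≤ 1 / 3 → CoreStmt α τ κ → 0 < κ0 → κ0 < κ →
  ∃ η C x0 : ℝ, 0 < η ∧ 0 ≤ C ∧ 3 ≤ x0 ∧ ∀ (x : ℝ) (a : ℤ) (Y : ℕ) (F : Finset ℕ) (t : ℕ → ℕ), x0 ≤ x →
  (Y : ℝ) ≤ x → (∀ q ∈ F, Md α τ κ κ0 x (t q) q ∧ Int.gcd a q = 1) →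
  ∑ q ∈ F, ‖∑ p ∈ (Icc 1 Y).filter Nat.Prime, ((Real.log p : ℝ) : ℂ) * Ek a (t q) q p‖ ≤ C * x ^ (1 - η)

end Pool.Agent.Lib.MJ
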