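import Pool.Agent.Lib.MJ.SpecE

/-!
MP_00e23e_nt, directory Lib/MJ (THEOREM MI, version 4, architect helper34): the statements of the chapters B, A, F for
an arbitrary integer a; the proofs are those of Lib/MI (SpecB, SpecA, SpecF) without b and c.
-/

namespace Pool.Agent.Lib.MJ

open Finset Pool.Agent.Lib.EH3 Pool.Agent.Lib.TB Pool.Agent.Results.MP_00e23e_nt Pool.Agent.Lib.MI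

/-- Module Bbo. Uses: DspStmt, MI.Bt1Stmt, MI.BtaStmt. -/
def BboStmt : Prop := ∀ δ τ κ ε κ0 : ℝ, Par δ τ κ ε → 0 < κ0 → κ0 < κ → ∃ η C x0 : ℝ, 0 < η ∧
  ∀ (x : ℝ) (a : ℤ) (M N R S V : ℕ) (P : Finset (ℕ × ℕ)) (f g : ℕ → ℂ), x0 ≤ x → Blk δ κ ε x M N R S →
  (N : ℝ) ≤ x ^ (1 / 2 - sg δ κ ε) → x ^ (yy δ κ ε + 4 * ε) ≤ 2 * V → (V : ℝ) ≤ x ^ (yy δ κ ε + κ + 4 * ε) →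
  Pr a R S (x ^ κ0) P → (∀ w ∈ P, (∃ v : ℕ, v ∣ w.2 ∧ V < v ∧ v ≤ 2 * V) ∧
    ∃ r0 : ℕ, r0 ∣ w.1 ∧ x ^ (4 * yy δ κ ε + 8 * ε) < r0 ∧ (r0 : ℝ) ≤ x ^ (4 * yy δ κ ε + 8 * ε + κ)) →
  (∀ m, ‖f m‖ ≤ 1) → (∀ n, ‖g n‖ ≤ 1) →
  ∑ w ∈ P, ‖∑ m ∈ Ioc M (2 * M), ∑ n ∈ Ioc N (2 * N), f m * g n * Dl a w.1 w.2 (m * n)‖ ≤ C * x ^ (1 - η)

/-- Module Bbt. Uses: DspStmt, MI.Bt2Stmt, MI.BtaStmt. -/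
def BbtStmt : Prop := ∀ δ τ κ ε κ0 : ℝ, Par δ τ κ ε → 0 < κ0 → κ0 < κ → ∃ η C x0 : ℝ, 0 < η ∧
  ∀ (x : ℝ) (a : ℤ) (M N R S : ℕ) (P : Finset (ℕ × ℕ)) (f g : ℕ → ℂ), x0 ≤ x → Blk δ κ ε x M N R S →
  x ^ (1 / 2 - sg δ κ ε) ≤ (N : ℝ) → Pr a R S (x ^ κ0) P →
  (∀ m, ‖f m‖ ≤ 1) → (∀ n, ‖g n‖ ≤ 1) →
  ∑ w ∈ P, ‖∑ m ∈ Ioc M (2 * M), ∑ n ∈ Ioc N (2 * N), f m * g n * Dl a w.1 w.2 (m * n)‖ ≤ C * x ^ (1 - η)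

/-- Module Bds. Uses: BboStmt, BbtStmt, MI.BgrStmt. -/
def BdsStmt : Prop := ∀ δ τ κ ε κ0 : ℝ, Par δ τ κ ε → 0 < κ0 → κ0 < κ → ∃ η C x0 : ℝ, 0 < η ∧
  ∀ (x : ℝ) (a : ℤ) (M N : ℕ) (f g : ℕ → ℂ) (F : Finset ℕ) (t : ℕ → ℕ), x0 ≤ x → N ≤ M →
  x ^ ((1 : ℝ) / 3 - ε) ≤ N →
  x ^ (1 - ε) ≤ (M : ℝ) * N → (M : ℝ) * N ≤ x → (∀ m, ‖f m‖ ≤ 1) → (∀ n, ‖g n‖ ≤ 1) →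
  (∀ q ∈ F, Md (1 / 2 + δ) τ κ κ0 x (t q) q ∧ Int.gcd a q = 1 ∧ x ^ (1 / 2 - ε / 2) < (q : ℝ)) →
  ∃ u s : ℕ → ℕ, (∀ q ∈ F, q = t q * u q * s q ∧ ((t q * u q : ℕ) : ℝ) ≤ N * x ^ (-ε)) ∧
    ∑ q ∈ F, ‖∑ m ∈ Ioc M (2 * M), ∑ n ∈ Ioc N (2 * N), f m * g n * Dl a (t q * u q) (s q) (m * n)‖ ≤ C * x ^ (1 - η)

/-- Module Bfi. Uses: BdsStmt, MI.BidStmt, BrmStmt, MI.BlgStmt, MI.LrgStmt, MI.BtaStmt. -/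
def BfiStmt : Prop := BAllStmt

/-- Module Acb (BlStmt α τ κ ε is a hypothesis inside). -/
def AcbStmt : Prop := ∀ α τ κ ε κ0 : ℝ, 0 < ε → ε < 1 / 100 → BlStmt α τ κ ε → 0 < κ0 → κ0 < κ →
  ∃ η C x0 : ℝ, 0 < η ∧ 0 ≤ C ∧ 3 ≤ x0 ∧ ∀ (x : ℝ) (a : ℤ) (Y K i j : ℕ) (f g : ℕ → ℂ) (F : Finset ℕ) (t : ℕ → ℕ),
  x0 ≤ x → (Y : ℝ) ≤ x → 4 ≤ K → (∀ m, ‖f m‖ ≤ 1) →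
  (∀ n, ‖g n‖ ≤ 1) → (∀ m, f m ≠ 0 → x ^ ((1 : ℝ) / 3) < m ∧ (m : ℝ) ≤ x ^ ((2 : ℝ) / 3)) →
  (K : ℝ) * (Real.log 4 + (1 - ε / 2) * Real.log x) ≤ (i : ℝ) + j → (i : ℝ) + j + 2 ≤ K * Real.log Y →
  (∀ q ∈ F, Md α τ κ κ0 x (t q) q ∧ Int.gcd a q = 1) →
  ∑ q ∈ F, ‖∑ m ∈ Icc 1 Y, ∑ n ∈ Icc 1 Y, cl K i f m * cl K j g n * Ek a (t q) q (m * n)‖ ≤ C * x ^ (1 - η)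

/-- Module Abi. Uses: MI.AclStmt, MI.AtrStmt, AcbStmt, MI.AtuStmt. -/
def AbiStmt : Prop := ∀ α τ κ ε κ0 : ℝ, α ≤ 3 / 5 → 0 < ε → ε < 1 / 100 → BlStmt α τ κ ε → 0 < κ0 → κ0 < κ →
  ∃ η C x0 : ℝ, 0 < η ∧ 0 ≤ C ∧ 3 ≤ x0 ∧ ∀ (x : ℝ) (a : ℤ) (Y : ℕ) (f g : ℕ → ℂ) (F : Finset ℕ) (t : ℕ → ℕ),
  x0 ≤ x → (Y : ℝ) ≤ x → (∀ m, ‖f m‖ ≤ 1) → (∀ n, ‖g n‖ ≤ 1) →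
  (∀ m, f m ≠ 0 → x ^ ((1 : ℝ) / 3) < m ∧ (m : ℝ) ≤ x ^ ((2 : ℝ) / 3)) →
  (∀ q ∈ F, Md α τ κ κ0 x (t q) q ∧ Int.gcd a q = 1) →
  ∑ q ∈ F, ‖∑ m ∈ Icc 1 Y, ∑ n ∈ Icc 1 (Y / m), f m * g n * Ek a (t q) q (m * n)‖ ≤ C * x ^ (1 - η)

/-- Module Afi. Uses: MI.AvaStmt, CO.VgbStmt, MI.AtyStmt, AbiStmt, MI.AtuStmt. -/
def AfiStmt : Prop := AAllStmt

/-- Module Fpi. Uses: FthStmt, MI.FabStmt, MI.AtuStmt. -/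
def FpiStmt : Prop := ∀ α τ κ κ0 : ℝ, α ≤ 3 / 5 → 0 ≤ τ → τ ≤ 1 / 3 → CoreStmt α τ κ → 0 < κ0 → κ0 < κ →
  ∃ η C x0 : ℝ, 0 < η ∧ 0 ≤ C ∧ 3 ≤ x0 ∧ ∀ (x : ℝ) (a : ℤ) (Y : ℕ) (F : Finset ℕ) (t : ℕ → ℕ), x0 ≤ x →
  (Y : ℝ) ≤ x →
  (∀ q ∈ F, Md α τ κ κ0 x (t q) q ∧ Int.gcd a q = 1) → ∑ q ∈ F, |df Y q (t q) a| ≤ C * x ^ (1 - η)

/-- Module Fps. Uses: FpiStmt, MI.FgrStmt, MI.FtnStmt. (CoreStmt α τ κ is a hypothesis inside.) -/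
def FpsStmt : Prop := ∀ α τ κ κ0 : ℝ, α ≤ 3 / 5 → 0 ≤ τ → τ ≤ 1 / 3 → CoreStmt α τ κ → 0 < κ0 → κ0 < κ →
  ∃ η C x0 : ℝ, 0 < η ∧ η ≤ 1 / 10 ∧ 0 ≤ C ∧ 3 ≤ x0 ∧
  ∀ (x : ℝ) (s : ℕ → ℤ) (t : ℕ → ℕ) (y : ℕ → ℝ) (M : Finset ℕ), x0 ≤ x →
  ((M.image s).card : ℝ) ≤ x ^ η → (∀ d, 2 ≤ y d ∧ y d ≤ x) →
  (∀ d ∈ M, Md α τ κ κ0 x (t d) d ∧ Int.gcd (s d) d = 1) →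
  ∑ d ∈ M, |df (y d) d (t d) (s d)| ≤ C * x ^ (1 - η)

/-- Module Fmi. Uses: FpsStmt, MI.FbvStmt. -/
def FmiStmt : Prop := FAllStmt

end Pool.Agent.Lib.MJ
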