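import Pool.Agent.Lib.MI.Stm
import Pool.Agent.Lib.MI.Basic
import Pool.Agent.Lib.MI.SpecD
import Pool.Agent.Lib.MI.SpecB
import Pool.Agent.Lib.MI.SpecA
import Pool.Agent.Lib.MI.SpecF

/-!
MP_00e23e_nt, directory Lib/MJ (architect helper34; THEOREM MI, version 4): arbitrary integers a of any size (systems of
residue classes) in place of the fractions b/c of Lib/MI. The chapters T1, T2, L, W and most of D are those of Lib/MI. The new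
point: the bad terms of the dispersion are bounded on average over (m, n) for an arbitrary integer a.
-/

namespace Pool.Agent.Lib.MJ

open Finset Pool.Agent.Lib.EH3 Pool.Agent.Lib.TB Pool.Agent.Results.MP_00e23e_nt Pool.Agent.Lib.MI

/-- the pairs (r, s) of the dispersion -/
def Pr (a : ℤ) (R S : ℕ) (z : ℝ) (P : Finset (ℕ × ℕ)) : Prop :=
  ∀ w ∈ P, R < w.1 ∧ w.1 ≤ 2 * R ∧ S < w.2 ∧ w.2 ≤ 2 * S ∧ Squarefree (w.1 * w.2) ∧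
    Int.gcd a ((w.1 * w.2 : ℕ) : ℤ) = 1 ∧ ∀ p : ℕ, p.Prime → p ∣ w.2 → z < p

/-- the hypotheses on the sizes used for the bad terms -/
def Sz (X T z : ℝ) (R S M N : ℕ) : Prop :=
  Tau X T ∧ 1 ≤ z ∧ 1 ≤ R ∧ 1 ≤ S ∧ 1 ≤ N ∧ 8 ≤ M ∧ R ≤ N ∧
    100 * (M : ℝ) ^ 2 * (N : ℝ) ^ 2 * (R : ℝ) ^ 2 * (S : ℝ) ^ 4 ≤ X ∧ R * S ^ 2 ≤ M * N

/-- Chapter D. The dispersion method with the exact Fourier identity. -/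
def DspStmt : Prop := ∃ C : ℝ, 0 < C ∧ ∃ A : ℕ, ∀ (X T z B : ℝ) (a : ℤ) (R S M N H : ℕ) (P : Finset (ℕ × ℕ))
    (α β : ℕ → ℂ), Tau X T → 1 ≤ z → 0 ≤ B → 1 ≤ S → 1 ≤ N → 8 ≤ M → 1 ≤ H → R ≤ N → 2 * H < R →
  100 * (M : ℝ) ^ 2 * (N : ℝ) ^ 2 * (R : ℝ) ^ 2 * (S : ℝ) ^ 4 ≤ X → R * S ^ 2 ≤ M * N →
  Pr a R S z P → (∀ m, ‖α m‖ ≤ 1) → (∀ n, ‖β n‖ ≤ 1) →
  (∀ (k : ℕ) (γ : ℤ → ℕ → ℕ → ℕ → ℂ) (ω : ℕ → ℕ → ℂ), Cf P R S M γ → (∀ r n, ‖ω r n‖ ≤ 1) →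
    ‖∑ h ∈ Icc (-(H : ℤ)) H, TT a h k R S N (γ h) ω‖ ≤ B) →
  (∑ w ∈ P, ‖∑ m ∈ Ioc M (2 * M), ∑ n ∈ Ioc N (2 * N), α m * β n * Dl a w.1 w.2 (m * n)‖) ^ 2 ≤
    C * T ^ A * ((R : ℝ) * (M : ℝ) ^ 2 * N + (M : ℝ) ^ 2 * (N : ℝ) ^ 2 / z +
      (R : ℝ) ^ 2 * (S : ℝ) ^ 4 * (N : ℝ) ^ 2 / H + (M : ℝ) * N * B)

/-- Chapter B. The bilinear theorem for the moduli Md, variables ≥ x^(1/3-ε), product ≥ x^(1-ε). -/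
def BlStmt (α τ κ ε : ℝ) : Prop := ∀ κ0 : ℝ, 0 < κ0 → κ0 < κ → ∃ η C x0 : ℝ, 0 < η ∧ ∀ (x : ℝ) (a : ℤ)
    (M N : ℕ) (f g : ℕ → ℂ) (F : Finset ℕ) (t : ℕ → ℕ), x0 ≤ x → x ^ ((1 : ℝ) / 3 - ε) ≤ N →
  x ^ ((1 : ℝ) / 3 - ε) ≤ M → x ^ (1 - ε) ≤ (M : ℝ) * N → (M : ℝ) * N ≤ x → (∀ m, ‖f m‖ ≤ 1) → (∀ n, ‖g n‖ ≤ 1) →
  (∀ q ∈ F, Md α τ κ κ0 x (t q) q ∧ Int.gcd a q = 1) →
  ∑ q ∈ F, ‖∑ m ∈ Ioc M (2 * M), ∑ n ∈ Ioc N (2 * N), f m * g n * Ek a (t q) q (m * n)‖ ≤ C * x ^ (1 - η)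

/-- Chapter A. The theorem for the von Mangoldt function, one integer a and one Y ≤ x. -/
def CoreStmt (α τ κ : ℝ) : Prop := ∀ κ0 : ℝ, 0 < κ0 → κ0 < κ → ∃ η C x0 : ℝ, 0 < η ∧ ∀ (x : ℝ) (a : ℤ) (Y : ℕ)
    (F : Finset ℕ) (t : ℕ → ℕ), x0 ≤ x → (Y : ℝ) ≤ x → (∀ q ∈ F, Md α τ κ κ0 x (t q) q ∧ Int.gcd a q = 1) →
  ∑ q ∈ F, ‖∑ n ∈ Icc 1 Y, (ArithmeticFunction.vonMangoldt n : ℂ) * Ek a (t q) q n‖ ≤ C * x ^ (1 - η)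

/-- Chapter F. THEOREM MI (version 4) for the level x^α, t ≤ x^τ, primes of d/t in (x^κ0, x^κ]: s takes at most x^η
values, integers of any size. -/
def MIAt (α τ κ : ℝ) : Prop := ∀ κ0 : ℝ, 0 < κ0 → κ0 < κ → ∃ η : ℝ, 0 < η ∧ ∀ U : ℝ, 0 < U → ∃ C : ℝ,
  ∀ (x : ℝ) (s : ℕ → ℤ) (t : ℕ → ℕ) (y : ℕ → ℝ) (M : Finset ℕ), 3 ≤ x →
  ((M.image s).card : ℝ) ≤ x ^ η → (∀ d, 2 ≤ y d ∧ y d ≤ x) →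
  (∀ d ∈ M, Md α τ κ κ0 x (t d) d ∧ Int.gcd (s d) d = 1) →
  ∑ d ∈ M, |(resCount (y d) d (s d) : ℝ) - (resCount (y d) (t d) (s d) : ℝ) / ((d / t d).totient : ℝ)| ≤
      C * x ^ (1 - η) ∧
    ∑ d ∈ M, |resErr (y d) d (s d)| ≤ C * (x / (Real.log x) ^ U)

/-- THEOREM MI, version 4 -/
def MIStmt : Prop := ∀ δ τ κ : ℝ, 0 ≤ δ → 0 ≤ τ → 0 < κ → 86 * δ + 60 * κ < 1 → 8 * δ + 6 * κ + τ < 1 / 3 →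
  MIAt (1 / 2 + δ) τ κ

/-- Chapter B: to prove -/
def BAllStmt : Prop := ∀ δ τ κ : ℝ, 0 ≤ δ → 0 ≤ τ → 0 < κ → 86 * δ + 60 * κ < 1 → 8 * δ + 6 * κ + τ < 1 / 3 →
  ∃ ε : ℝ, 0 < ε ∧ ε < 1 / 100 ∧ BlStmt (1 / 2 + δ) τ κ ε

/-- Chapter A: to prove -/
def AAllStmt : Prop := ∀ α τ κ ε : ℝ, 0 < ε → ε < 1 / 100 → α ≤ 3 / 5 → 0 ≤ τ → τ ≤ 1 / 3 → 0 < κ → κ ≤ 1 / 10 →
  BlStmt α τ κ ε → CoreStmt α τ κ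

/-- Chapter F: to prove. α < 2/3 is used for the squares of primes. -/
def FAllStmt : Prop := ∀ α τ κ : ℝ, α ≤ 3 / 5 → 0 ≤ τ → τ ≤ 1 / 3 → 0 < κ → κ ≤ 1 / 10 → CoreStmt α τ κ → MIAt α τ κ

end Pool.Agent.Lib.MJ
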